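import Pool.Agent.H531R2.Subst

/-! Formalised by helper913. -/

/-!
# Jacobian criterion and faithful homomorphisms over a field of characteristic zero
(task I of the depth-4 PIT project of helper531; adapted from `Pool.Agent.H626R2.PJac`,
`Pool.Agent.H626R2.PFaith`, which treat `ℚ`)
-/

set_option autoImplicit false

namespace Pool.Agent.H531R2.D4

section JacK

variable {K : Type} [Field K] [CharZero K]

open MvPolynomial


/-- The chain rule. -/
theorem JacK.deriv_aeval {r : ℕ} {B : Type} [CommRing B] [Algebra K B] (D : Derivation K B B)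
    (T : Fin r → B) (P : MvPolynomial (Fin r) K) :
    D (aeval T P) = ∑ a, aeval T (pderiv a P) * D (T a) := by
  induction P using MvPolynomial.induction_on with
  | C a => simp
  | add p q hp hq =>
    rw [map_add, map_add, hp, hq, ← Finset.sum_add_distrib]
    refine Finset.sum_congr rfl fun a _ => ?_
    rw [map_add, map_add, add_mul]
  | mul_X p j hp =>
    rw [map_mul, Derivation.leibniz, hp, aeval_X, smul_eq_mul, smul_eq_mul]
    have h1 : ∀ a, aeval T (pderiv a (p * X j)) * D (T a)
        = T j * (aeval T (pderiv a p) * D (T a)) + aeval T p * (if a = j then D (T a) else 0) := by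
      intro a
      rw [pderiv_mul, map_add, map_mul, map_mul, aeval_X]
      by_cases h : a = j
      · subst h
        rw [pderiv_X_self, map_one, if_pos rfl]
        ring
      · rw [pderiv_X_of_ne (Ne.symm h), map_zero, if_neg h]
        ring
    rw [Finset.sum_congr rfl fun a _ => h1 a, Finset.sum_add_distrib, ← Finset.mul_sum,
      ← Finset.mul_sum, Finset.sum_ite_eq' Finset.univ j, if_pos (Finset.mem_univ _)]
    ring

theorem JacK.exists_pderiv_ne {r : ℕ} {P : MvPolynomial (Fin r) K} (h : ∀ c, P ≠ C c) :
    ∃ a, pderiv a P ≠ 0 := by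
  by_contra hcon
  push Not at hcon
  apply h (coeff 0 P)
  ext m
  rw [coeff_C]
  by_cases hm : 0 = m
  · rw [if_pos hm, ← hm]
  · rw [if_neg hm]
    obtain ⟨a, ha⟩ : ∃ a, m a ≠ 0 := by
      by_contra h0
      push Not at h0
      exact hm (Finsupp.ext fun a => (h0 a).symm)
    have h1 := congrArg (coeff (m - Finsupp.single a 1)) (hcon a)
    rw [coeff_pderiv, coeff_zero, tsub_add_cancel_of_le (by
      rw [Finsupp.single_le_iff]; omega)] at h1
    rcases mul_eq_zero.1 h1 with h2 | h2
    · exact h2
    · exfalso
      have h3 : (((m - Finsupp.single a 1 : Fin r →₀ ℕ) a + 1 : ℕ) : K) ≠ 0 :=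
        Nat.cast_ne_zero.2 (Nat.succ_ne_zero _)
      apply h3
      push_cast
      exact h2

theorem JacK.totalDegree_pderiv_lt {r : ℕ} {P : MvPolynomial (Fin r) K} {a : Fin r}
    (h : pderiv a P ≠ 0) : (pderiv a P).totalDegree < P.totalDegree := by
  rw [Nat.lt_iff_add_one_le]
  obtain ⟨m, hm, hmd⟩ : ∃ m ∈ (pderiv a P).support, (pderiv a P).totalDegree = m.degree := by
    have h1 : (pderiv a P).support.Nonempty := by
      rw [Finset.nonempty_iff_ne_empty]
      intro h0
      exact h (support_eq_empty.1 h0)
    obtain ⟨m, hm, hmax⟩ := Finset.exists_mem_eq_sup (pderiv a P).support h1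
      (fun s => s.sum fun _ e => e)
    refine ⟨m, hm, ?_⟩
    rw [totalDegree]
    rw [hmax]
    rfl
  rw [hmd]
  rw [mem_support_iff, coeff_pderiv] at hm
  have h2 : coeff (m + Finsupp.single a 1) P ≠ 0 := left_ne_zero_of_mul hm
  have h3 := le_totalDegree (mem_support_iff.2 h2)
  refine le_trans ?_ h3
  change _ ≤ (m + Finsupp.single a 1).degree
  rw [map_add, Finsupp.degree_single]

/-- A nonvanishing Jacobian determinant implies algebraic independence. -/
theorem algInd_of_detK {r : ℕ} {B : Type} [CommRing B] [IsDomain B] [Algebra K B]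
    (D : Fin r → Derivation K B B) (T : Fin r → B)
    (h : (Matrix.of fun a b => D b (T a)).det ≠ 0) : AlgebraicIndependent K T := by
  rw [algebraicIndependent_iff]
  have main : ∀ (n : ℕ) (P : MvPolynomial (Fin r) K), P.totalDegree ≤ n → aeval T P = 0 →
      P = 0 := by
    intro n
    induction n with
    | zero =>
      intro P hP h0
      rw [Nat.le_zero, totalDegree_eq_zero_iff_eq_C] at hP
      rw [hP] at h0 ⊢
      rw [algHom_C] at h0
      have := (algebraMap K B).injective
      rw [← map_zero (algebraMap K B)] at h0
      rw [this h0, C_0]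
    | succ n ih =>
      intro P hP h0
      have h1 : ∀ a, aeval T (pderiv a P) = 0 := by
        have h2 : (fun a => aeval T (pderiv a P)) = 0 := by
          apply Matrix.eq_zero_of_vecMul_eq_zero h
          funext b
          have h3 := JacK.deriv_aeval (D b) T P
          rw [h0, map_zero] at h3
          simp only [Matrix.vecMul, dotProduct, Matrix.of_apply, Pi.zero_apply]
          exact h3.symm
        exact fun a => congrFun h2 a
      by_contra hP0
      by_cases hc : ∀ c, P ≠ C c
      · obtain ⟨a, ha⟩ := JacK.exists_pderiv_ne hc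
        have h4 := JacK.totalDegree_pderiv_lt ha
        exact ha (ih _ (by omega) (h1 a))
      · push Not at hc
        obtain ⟨c, rfl⟩ := hc
        rw [algHom_C] at h0
        have := (algebraMap K B).injective
        rw [← map_zero (algebraMap K B)] at h0
        rw [this h0, C_0] at hP0
        exact hP0 rfl
  exact fun P => main _ P le_rfl

/-- A derivation that vanishes on a subalgebra vanishes on algebraic elements. -/
theorem JacK.deriv_eq_zero_of_algebraic {A : Type} [CommRing A] [IsDomain A] [Algebra K A]
    (S : Subalgebra K A) (D : Derivation K A A) (hD : ∀ x ∈ S, D x = 0) {x : A}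
    (hx : IsAlgebraic S x) : D x = 0 := by
  let D' : Derivation S A A := Derivation.mk'
    { toFun := D
      map_add' := map_add D
      map_smul' := by
        intro c a
        rw [Algebra.smul_def, Derivation.leibniz, smul_eq_mul, smul_eq_mul, RingHom.id_apply,
          Algebra.smul_def]
        have : D (algebraMap S A c) = 0 := hD _ c.2
        rw [this, mul_zero, add_zero] } (fun a b => Derivation.leibniz D a b)
  have hD' : D x = D' x := rfl
  rw [hD']
  have hinj : Function.Injective (algebraMap S A) := Subtype.val_injective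
  have : CharZero S := by
    refine ⟨fun a b h => ?_⟩
    have h1 := congrArg (algebraMap S A) h
    rw [map_natCast, map_natCast] at h1
    have : CharZero A := charZero_of_injective_algebraMap (algebraMap K A).injective
    exact_mod_cast h1
  have main : ∀ (n : ℕ) (P : Polynomial S), P.natDegree ≤ n → P ≠ 0 → Polynomial.aeval x P = 0 →
      D' x = 0 := by
    intro n
    induction n with
    | zero =>
      intro P hP hP0 h0
      exfalso
      rw [Nat.le_zero] at hP
      rw [Polynomial.eq_C_of_natDegree_eq_zero hP, Polynomial.aeval_C] at h0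
      rw [← map_zero (algebraMap S A)] at h0
      have := hinj h0
      apply hP0
      rw [Polynomial.eq_C_of_natDegree_eq_zero hP, this, Polynomial.C_0]
    | succ n ih =>
      intro P hP hP0 h0
      by_cases hd : P.natDegree = 0
      · exact ih P (by omega) hP0 h0
      have h1 := D'.map_aeval P x
      rw [h0, map_zero, smul_eq_mul] at h1
      rcases mul_eq_zero.1 h1.symm with h2 | h2
      · refine ih _ ?_ ?_ h2
        · have := Polynomial.natDegree_derivative_lt hd
          omega
        · intro h3
          exact hd (Polynomial.derivative_eq_zero.1 h3)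
      · exact h2
  obtain ⟨P, hP, h0⟩ := hx
  exact main _ P le_rfl hP h0

/-- Algebraically independent polynomials have a nonzero Jacobian minor. -/
theorem det_of_algIndK {r : ℕ} {σ : Type} [Fintype σ] (T : Fin r → MvPolynomial σ K)
    (h : AlgebraicIndependent K T) :
    ∃ s : Fin r → σ, (Matrix.of fun a b => pderiv (s b) (T a)).det ≠ 0 := by
  classical
  apply Pool.Agent.H531R2.exists_minor r (fun a j => pderiv j (T a))
  intro c hc
  -- a transcendence basis containing the `T a`
  have hX : IsTranscendenceBasis K (X : σ → MvPolynomial σ K) := IsTranscendenceBasis.mvPolynomial σ K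
  have halg : Algebra.IsAlgebraic (Algebra.adjoin K (Set.range T ∪ Set.range (X : σ → _)))
      (MvPolynomial σ K) := by
    have h1 : Algebra.adjoin K (Set.range T ∪ Set.range (X : σ → MvPolynomial σ K)) = ⊤ := by
      rw [eq_top_iff, ← MvPolynomial.adjoin_range_X]
      exact Algebra.adjoin_mono Set.subset_union_right
    refine ⟨fun x => ?_⟩
    have hx : x ∈ Algebra.adjoin K (Set.range T ∪ Set.range (X : σ → MvPolynomial σ K)) := by
      rw [h1]; trivial
    exact isAlgebraic_algebraMap (R := Algebra.adjoin K (Set.range T ∪ Set.range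
      (X : σ → MvPolynomial σ K))) (A := MvPolynomial σ K) ⟨x, hx⟩
  obtain ⟨u, hu1, hu2, hu⟩ := exists_isTranscendenceBasis_between (R := K) (Set.range T)
    (Set.range T ∪ Set.range (X : σ → MvPolynomial σ K)) Set.subset_union_left
    h.coe_range
  have hcard := IsTranscendenceBasis.lift_cardinalMk_eq hX hu
  have hfin : Finite u := by
    have h1 : Cardinal.lift (Cardinal.mk u) < Cardinal.aleph0 := by
      rw [← hcard, Cardinal.lift_lt_aleph0]
      exact Cardinal.mk_lt_aleph0
    rw [Cardinal.lift_lt_aleph0] at h1
    exact Cardinal.mk_lt_aleph0_iff.1 h1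
  have : Fintype u := Fintype.ofFinite u
  have hcard' : Fintype.card σ = Fintype.card u := by
    rw [Cardinal.mk_fintype, Cardinal.mk_fintype] at hcard
    simpa using hcard
  obtain ⟨e⟩ : Nonempty (u ≃ σ) := Fintype.card_eq.1 hcard'.symm
  -- the full Jacobian matrix
  let M : Matrix u u (MvPolynomial σ K) := Matrix.of fun y j => pderiv (e j) (y : MvPolynomial σ K)
  have hM : M.det ≠ 0 := by
    intro h0
    obtain ⟨g, hg0, hg⟩ := Matrix.exists_mulVec_eq_zero_iff.2 h0
    apply hg0
    let δ : Derivation K (MvPolynomial σ K) (MvPolynomial σ K) :=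
      mkDerivation K (fun i => g (e.symm i))
    have hδ : ∀ P, δ P = ∑ j, pderiv (e j) P * g j := by
      intro P
      induction P using MvPolynomial.induction_on with
      | C a =>
        rw [← algebraMap_eq, δ.map_algebraMap]
        simp
      | add p q hp hq =>
        rw [map_add, hp, hq, ← Finset.sum_add_distrib]
        refine Finset.sum_congr rfl fun j _ => ?_
        rw [map_add, add_mul]
      | mul_X p i hp =>
        rw [δ.leibniz, hp, smul_eq_mul, smul_eq_mul, mkDerivation_X]
        have h1 : ∀ j, pderiv (e j) (p * X i) * g j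
            = X i * (pderiv (e j) p * g j) + (if j = e.symm i then p * g j else 0) := by
          intro j
          rw [pderiv_mul]
          by_cases h : j = e.symm i
          · subst h
            rw [Equiv.apply_symm_apply, pderiv_X_self, if_pos rfl]
            ring
          · rw [pderiv_X_of_ne, if_neg h]
            · ring
            · intro h2
              apply h
              rw [h2, Equiv.symm_apply_apply]
        rw [Finset.sum_congr rfl fun j _ => h1 j, Finset.sum_add_distrib, ← Finset.mul_sum,
          Finset.sum_ite_eq' Finset.univ (e.symm i), if_pos (Finset.mem_univ _)]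
        ring
    have hu0 : ∀ x ∈ Algebra.adjoin K (u : Set (MvPolynomial σ K)), δ x = 0 := by
      intro x hx
      induction hx using Algebra.adjoin_induction with
      | mem y hy =>
        rw [hδ]
        have := congrFun hg ⟨y, hy⟩
        simpa [Matrix.mulVec, dotProduct, M] using this
      | algebraMap q => exact δ.map_algebraMap q
      | add y z _ _ hy hz => rw [map_add, hy, hz, add_zero]
      | mul y z _ _ hy hz => rw [δ.leibniz, hy, hz, smul_zero, smul_zero, add_zero]
    funext j
    have h3 : δ (X (e j)) = 0 := by
      apply JacK.deriv_eq_zero_of_algebraic _ δ hu0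
      have h4 := hu.isAlgebraic
      rw [Subtype.range_coe] at h4
      exact h4.isAlgebraic _
    rw [mkDerivation_X, Equiv.symm_apply_apply] at h3
    exact h3
  -- rows
  have hTinj : Function.Injective T := h.injective
  let c' : u → MvPolynomial σ K := fun y => if hy : ∃ a, T a = y then c hy.choose else 0
  have hc' : ∀ a, c' ⟨T a, hu1 ⟨a, rfl⟩⟩ = c a := by
    intro a
    have hex : ∃ b, T b = ((⟨T a, hu1 ⟨a, rfl⟩⟩ : u) : MvPolynomial σ K) := ⟨a, rfl⟩
    simp only [c']
    rw [dif_pos hex]
    congr 1
    exact hTinj hex.choose_spec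
  have hv : Matrix.vecMul c' M = 0 := by
    funext j
    simp only [Matrix.vecMul, dotProduct, M, Matrix.of_apply, Pi.zero_apply]
    rw [← hc (e j)]
    symm
    let ι : Fin r ↪ u := ⟨fun a => ⟨T a, hu1 ⟨a, rfl⟩⟩, fun a b hab => hTinj (by
      simpa using hab)⟩
    rw [← Finset.sum_subset (Finset.subset_univ (Finset.univ.map ι)), Finset.sum_map]
    · refine Finset.sum_congr rfl fun a _ => ?_
      rw [show ι a = ⟨T a, hu1 ⟨a, rfl⟩⟩ from rfl, hc']
    · intro y _ hy
      have : c' y = 0 := by
        simp only [c']
        rw [dif_neg]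
        rintro ⟨a, ha⟩
        apply hy
        rw [Finset.mem_map]
        exact ⟨a, Finset.mem_univ _, Subtype.ext ha⟩
      rw [this, zero_mul]
  have hc0 := Matrix.eq_zero_of_vecMul_eq_zero hM hv
  funext a
  rw [← hc' a, hc0]
  rfl


end JacK

section FaithK

variable {K : Type} [Field K] [CharZero K]


theorem faithfulK {A B : Type} [CommRing A] [IsDomain A] [Algebra K A] [CommRing B] [IsDomain B]
    [Algebra K B] {n k : ℕ} (T : Fin n → A) (Θ : A →ₐ[K] B)
    (hk : ∀ u : Fin (k + 1) → Fin n, ¬ AlgebraicIndependent K (fun a => T (u a)))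
    (hΘ : ∀ r ≤ k, ∀ u : Fin r → Fin n, AlgebraicIndependent K (fun a => T (u a)) →
      AlgebraicIndependent K (fun a => Θ (T (u a))))
    {h : A} (hmem : h ∈ Algebra.adjoin K (Set.range T)) (h0 : Θ h = 0) : h = 0 := by
  classical
  let P : ℕ → Prop := fun r => ∃ u : Fin r → Fin n, AlgebraicIndependent K (fun a => T (u a))
  have hP0 : P 0 := by
    refine ⟨Fin.elim0, ?_⟩
    rw [algebraicIndependent_empty_type_iff]
    exact (algebraMap K A).injective
  have hspec : P (Nat.findGreatest P k) := Nat.findGreatest_spec (Nat.zero_le _) hP0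
  have hle : Nat.findGreatest P k ≤ k := Nat.findGreatest_le _
  set r := Nat.findGreatest P k with hr
  have hnP : ¬ P (r + 1) := by
    intro h2
    by_cases hk1 : r + 1 ≤ k
    · exact Nat.findGreatest_is_greatest (P := P) (n := k) (k := r + 1) (by omega) hk1 h2
    · have : r + 1 = k + 1 := by omega
      rw [this] at h2
      obtain ⟨u, hu⟩ := h2
      exact hk u hu
  obtain ⟨u, hu⟩ := hspec
  set S := Algebra.adjoin K (Set.range (fun a => T (u a))) with hS
  have hTalg : ∀ i, IsAlgebraic S (T i) := by
    intro i
    by_contra hcon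
    apply hnP
    have h1 := (hu.option_iff_transcendental (T i)).2 hcon
    refine ⟨fun a => (finSuccEquiv r a).elim i u, ?_⟩
    have h2 := h1.comp (finSuccEquiv r) (finSuccEquiv r).injective
    convert h2 using 1
    funext a
    simp only [Function.comp_apply]
    cases finSuccEquiv r a <;> rfl
  have hSdom : IsDomain S := inferInstance
  have halg' : ∀ g ∈ Algebra.adjoin K (Set.range T), IsAlgebraic S g := by
    intro g hg
    induction hg using Algebra.adjoin_induction with
    | mem y hy =>
      obtain ⟨i, rfl⟩ := hy
      exact hTalg i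
    | algebraMap q =>
      have : algebraMap K A q = algebraMap S A (algebraMap K S q) := rfl
      rw [this]
      exact isAlgebraic_algebraMap _
    | add y z _ _ hy hz => exact hy.add hz
    | mul y z _ _ hy hz => exact hy.mul hz
  have halg := halg' h hmem
  by_contra hne
  obtain ⟨q, hq0, hq⟩ := halg.exists_nonzero_coeff_and_aeval_eq_zero
    (mem_nonZeroDivisors_of_ne_zero hne)
  have h3 : Θ ((q.coeff 0 : S) : A) = 0 := by
    rw [Polynomial.aeval_eq_sum_range] at hq
    have h4 := congrArg Θ hq
    rw [map_sum, map_zero, Finset.sum_eq_single 0] at h4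
    · rw [pow_zero, Algebra.smul_def, mul_one] at h4
      exact h4
    · intro m _ hm
      rw [Algebra.smul_def, map_mul, map_pow, h0, zero_pow hm, mul_zero]
    · intro h5
      exact absurd (Finset.mem_range.2 (Nat.succ_pos _)) h5
  apply hq0
  have h6 : ((q.coeff 0 : S) : A) ∈ Algebra.adjoin K (Set.range (fun a => T (u a))) :=
    (q.coeff 0).2
  rw [Algebra.adjoin_range_eq_range_aeval] at h6
  obtain ⟨p, hp⟩ := h6
  have h7 : MvPolynomial.aeval (fun a => Θ (T (u a))) p = 0 := by
    rw [← h3]
    have h8 : ((q.coeff 0 : S) : A) = MvPolynomial.aeval (fun a => T (u a)) p := hp.symm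
    rw [h8, ← AlgHom.comp_apply]
    congr 1
    apply MvPolynomial.algHom_ext
    intro i
    simp
  have h8 := (algebraicIndependent_iff.1 (hΘ r hle u hu)) p h7
  apply Subtype.ext
  have h9 : ((q.coeff 0 : S) : A) = MvPolynomial.aeval (fun a => T (u a)) p := hp.symm
  rw [h9, h8, map_zero]
  rfl


end FaithK

end Pool.Agent.H531R2.D4
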