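import Pool.Agent.H531R2.D4.FinalB

set_option autoImplicit false
set_option linter.unusedSectionVars false

/-!
# Grids
-/

namespace Pool.Agent.H531R2.D4

open MvPolynomial

variable {K : Type} [Field K] [CharZero K] {N : ℕ}

theorem totalDegree_aeval_le' {τ : Type} (Y : Fin N → MvPolynomial τ K)
    (g : MvPolynomial (Fin N) K) {D d : ℕ} (hY : ∀ b, (Y b).totalDegree ≤ D)
    (hd : g.totalDegree ≤ d) : (aeval Y g).totalDegree ≤ d * D := by
  classical
  rw [aeval_def, eval₂_eq']
  refine (MvPolynomial.totalDegree_finsetSum _ _).trans (Finset.sup_le fun m hm => ?_)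
  rw [MvPolynomial.algebraMap_eq]
  refine (totalDegree_mul _ _).trans ?_
  rw [totalDegree_C, zero_add]
  refine (totalDegree_finsetProd _ _).trans ?_
  have h1 : ∑ b, m b ≤ d := by
    refine le_trans (le_of_eq ?_) ((MvPolynomial.le_totalDegree hm).trans hd)
    rw [Finsupp.sum_fintype]
    intro i
    rfl
  calc ∑ b, (Y b ^ m b).totalDegree ≤ ∑ b, m b * D := Finset.sum_le_sum fun b _ =>
        (totalDegree_pow _ _).trans (Nat.mul_le_mul_left _ (hY b))
    _ = (∑ b, m b) * D := by rw [Finset.sum_mul]
    _ ≤ d * D := Nat.mul_le_mul_right _ h1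

theorem totalDegree_svR_le {τ : Type} {D : ℕ} (u w : Fin D → MvPolynomial τ K)
    (hu : ∀ l, (u l).totalDegree ≤ 1) (hw : ∀ l, (w l).totalDegree ≤ 1) (i : Fin N) :
    (svR u w i).totalDegree ≤ N := by
  classical
  refine (MvPolynomial.totalDegree_finsetSum _ _).trans (Finset.sup_le fun l _ => ?_)
  refine (totalDegree_mul _ _).trans ?_
  have h1 : (∏ j ∈ Finset.univ.erase i, (w l - ((j : ℕ) : MvPolynomial τ K))).totalDegree ≤
      N - 1 := by
    refine (totalDegree_finsetProd _ _).trans ?_
    refine (Finset.sum_le_card_nsmul _ _ 1 fun j _ => ?_).trans ?_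
    · refine (totalDegree_sub _ _).trans (max_le (hw l) ?_)
      rw [← map_natCast (C : K →+* MvPolynomial τ K), totalDegree_C]
      exact Nat.zero_le _
    · rw [Finset.card_erase_of_mem (Finset.mem_univ i), Finset.card_univ, Fintype.card_fin,
        smul_eq_mul, mul_one]
  have h2 := hu l
  have h3 := i.isLt
  omega

theorem totalDegree_pt_le {k D : ℕ} (i : Fin N) :
    (pt N (X : Par k D → MvPolynomial (Par k D) K) i).totalDegree ≤ N + 1 := by
  classical
  refine (totalDegree_add _ _).trans (max_le ?_ ?_)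
  · refine (totalDegree_svR_le _ _ (fun l => ?_) (fun l => ?_) i).trans (Nat.le_succ N)
    · rw [totalDegree_X]
    · rw [totalDegree_X]
  · refine (MvPolynomial.totalDegree_finsetSum _ _).trans (Finset.sup_le fun l _ => ?_)
    refine (totalDegree_mul _ _).trans ?_
    rw [totalDegree_X]
    have := totalDegree_svR_le (K := K) (N := N) (fun l' => X (.inr (l, .inl (.inl l'))))
      (fun l' => (X (.inr (l, .inl (.inr l'))) : MvPolynomial (Par k D) K))
      (fun l' => by rw [totalDegree_X]) (fun l' => by rw [totalDegree_X]) i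
    omega

theorem eval_Phi {k D : ℕ} (v : Par k D → K) (f : MvPolynomial (Fin N) K) :
    eval v (Phi K N k D f) = eval (pt N v) f := by
  have h : (eval v).comp (Phi K N k D : MvPolynomial (Fin N) K →+* _) = eval (pt N v) := by
    apply MvPolynomial.ringHom_ext
    · intro c
      simp [Phi]
    · intro i
      rw [RingHom.comp_apply, RingHom.coe_coe, Phi, aeval_X, map_pt, eval_X]
      congr 1
      funext j
      rw [eval_X]
  exact congrArg (fun g => g f) h

theorem exists_grid {k D s : ℕ} (f : MvPolynomial (Fin N) K) (hf : Phi K N k D f ≠ 0)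
    (hs : f.totalDegree ≤ s) :
    ∃ v : Par k D → Fin (s * (N + 1) + 1), eval (pt N (fun j => ((v j : ℕ) : K))) f ≠ 0 := by
  classical
  by_contra hcon
  push Not at hcon
  apply hf
  have hinj : Function.Injective (fun a : ℕ => (a : K)) := Nat.cast_injective
  refine eq_zero_of_eval_zero_at_prod_finset _
    (fun _ => (Finset.range (s * (N + 1) + 1)).image (fun a : ℕ => (a : K))) ?_ ?_
  · intro j
    rw [Finset.card_image_of_injective _ hinj, Finset.card_range]
    refine Nat.lt_succ_of_le ((degreeOf_le_totalDegree _ _).trans ?_)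
    exact totalDegree_aeval_le' _ f (fun i => totalDegree_pt_le i) hs
  · intro x hx
    have h1 : ∀ j, ∃ a : Fin (s * (N + 1) + 1), ((a : ℕ) : K) = x j := by
      intro j
      obtain ⟨a, ha, hax⟩ := Finset.mem_image.1 (hx j)
      exact ⟨⟨a, Finset.mem_range.1 ha⟩, hax⟩
    choose v hv using h1
    rw [eval_Phi]
    have h2 : x = fun j => ((v j : ℕ) : K) := by
      funext j
      exact (hv j).symm
    rw [h2]
    exact hcon v

end Pool.Agent.H531R2.D4
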