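import Pool.Agent.H531R2.D4.Defs

/-!
# Basic API: regular elements, simple poles, logarithmic forms
-/

set_option autoImplicit false

namespace Pool.Agent.H531R2.D4

open Polynomial

section Reg

variable {F : Type} [Field F] {P : F[X]}

theorem ι_ne {V : F[X]} (h : V ≠ 0) : algebraMap F[X] (RatFunc F) V ≠ 0 := RatFunc.algebraMap_ne_zero h

theorem ne_of_not_dvd {V : F[X]} (h : ¬ P ∣ V) : V ≠ 0 := by
  rintro rfl
  exact h (dvd_zero _)

theorem reg_poly (hP : Irreducible P) (U : F[X]) : Reg P (algebraMap F[X] (RatFunc F) U) :=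
  ⟨U, 1, fun h => hP.not_isUnit (isUnit_of_dvd_one h), by rw [map_one, div_one]⟩

theorem reg_zero (hP : Irreducible P) : Reg P (0 : RatFunc F) := by
  have := reg_poly hP 0
  rwa [map_zero] at this

theorem reg_one (hP : Irreducible P) : Reg P (1 : RatFunc F) := by
  have := reg_poly hP 1
  rwa [map_one] at this

theorem Reg.add (hP : Irreducible P) {x y : RatFunc F} (hx : Reg P x) (hy : Reg P y) :
    Reg P (x + y) := by
  obtain ⟨U, V, hV, rfl⟩ := hx
  obtain ⟨U', V', hV', rfl⟩ := hy
  refine ⟨U * V' + U' * V, V * V', fun h => ?_, ?_⟩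
  · rcases hP.prime.dvd_or_dvd h with h | h
    · exact hV h
    · exact hV' h
  · have h1 := ι_ne (ne_of_not_dvd hV)
    have h2 := ι_ne (ne_of_not_dvd hV')
    rw [map_add, map_mul, map_mul, map_mul]
    field_simp

theorem Reg.mul (hP : Irreducible P) {x y : RatFunc F} (hx : Reg P x) (hy : Reg P y) :
    Reg P (x * y) := by
  obtain ⟨U, V, hV, rfl⟩ := hx
  obtain ⟨U', V', hV', rfl⟩ := hy
  refine ⟨U * U', V * V', fun h => ?_, ?_⟩
  · rcases hP.prime.dvd_or_dvd h with h | h
    · exact hV h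
    · exact hV' h
  · rw [map_mul, map_mul, div_mul_div_comm]

theorem Reg.neg {x : RatFunc F} (hx : Reg P x) : Reg P (-x) := by
  obtain ⟨U, V, hV, rfl⟩ := hx
  exact ⟨-U, V, hV, by rw [map_neg, neg_div]⟩

theorem Reg.sub (hP : Irreducible P) {x y : RatFunc F} (hx : Reg P x) (hy : Reg P y) :
    Reg P (x - y) := by
  rw [sub_eq_add_neg]
  exact hx.add hP hy.neg

theorem Reg.sum (hP : Irreducible P) {α : Type} (s : Finset α) {f : α → RatFunc F}
    (h : ∀ a ∈ s, Reg P (f a)) : Reg P (∑ a ∈ s, f a) := by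
  classical
  induction s using Finset.induction_on with
  | empty => rw [Finset.sum_empty]; exact reg_zero hP
  | insert a s ha ih =>
    rw [Finset.sum_insert ha]
    exact (h a (Finset.mem_insert_self _ _)).add hP (ih fun b hb => h b (Finset.mem_insert_of_mem hb))

theorem Reg.prod (hP : Irreducible P) {α : Type} (s : Finset α) {f : α → RatFunc F}
    (h : ∀ a ∈ s, Reg P (f a)) : Reg P (∏ a ∈ s, f a) := by
  classical
  induction s using Finset.induction_on with
  | empty => rw [Finset.prod_empty]; exact reg_one hP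
  | insert a s ha ih =>
    rw [Finset.prod_insert ha]
    exact (h a (Finset.mem_insert_self _ _)).mul hP (ih fun b hb => h b (Finset.mem_insert_of_mem hb))

theorem Reg.det (hP : Irreducible P) {n : ℕ} {M : Matrix (Fin n) (Fin n) (RatFunc F)}
    (h : ∀ i j, Reg P (M i j)) : Reg P M.det := by
  rw [Matrix.det_apply']
  refine Reg.sum hP _ fun σ _ => Reg.mul hP ?_ (Reg.prod hP _ fun i _ => h _ _)
  have h1 : ((Equiv.Perm.sign σ : ℤ) : RatFunc F) = algebraMap F[X] (RatFunc F) (C ((Equiv.Perm.sign σ : ℤ) : F)) := by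
    simp
  rw [h1]
  exact reg_poly hP _

/-- `C / P` is regular at `P` only if `P ∣ C` -/
theorem dvd_of_reg_div (hP : Irreducible P) {U : F[X]} (h : Reg P (algebraMap F[X] (RatFunc F) U / algebraMap F[X] (RatFunc F) P)) : P ∣ U := by
  obtain ⟨A, V, hV, h⟩ := h
  have h1 := ι_ne (ne_of_not_dvd hV)
  rw [div_eq_div_iff (ι_ne hP.ne_zero) h1, ← map_mul, ← map_mul] at h
  have h2 := RatFunc.algebraMap_injective F h
  have h3 : P ∣ U * V := by rw [h2]; exact dvd_mul_left _ _
  exact (hP.prime.dvd_or_dvd h3).resolve_right hV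

theorem comp_unique (hP : Irreducible P) {y : RatFunc F} {C C' : F[X]} (h : Comp P y C)
    (h' : Comp P y C') : C = C' := by
  have h1 := h'.2.sub hP h.2
  have h2 : y - algebraMap F[X] (RatFunc F) C' / algebraMap F[X] (RatFunc F) P - (y - algebraMap F[X] (RatFunc F) C / algebraMap F[X] (RatFunc F) P) = algebraMap F[X] (RatFunc F) (C - C') / algebraMap F[X] (RatFunc F) P := by
    rw [map_sub, sub_div]
    ring
  rw [h2] at h1
  have h3 := dvd_of_reg_div hP h1
  have h4 : (C - C').degree < P.degree := lt_of_le_of_lt (degree_sub_le _ _) (max_lt h.1 h'.1)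
  have h5 := Polynomial.eq_zero_of_dvd_of_degree_lt h3 h4
  exact sub_eq_zero.1 h5

theorem comp_zero_of_reg (hP : Irreducible P) {y : RatFunc F} (h : Reg P y) : Comp P y 0 := by
  refine ⟨by rw [degree_zero]; exact bot_lt_iff_ne_bot.2 (degree_ne_bot.2 hP.ne_zero), ?_⟩
  rwa [map_zero, zero_div, sub_zero]

theorem reg_of_comp_zero {y : RatFunc F} (h : Comp P y 0) : Reg P y := by
  have := h.2
  rwa [map_zero, zero_div, sub_zero] at this

theorem Comp.add (hP : Irreducible P) {x y : RatFunc F} {C C' : F[X]} (h : Comp P x C)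
    (h' : Comp P y C') : Comp P (x + y) (C + C') := by
  refine ⟨lt_of_le_of_lt (degree_add_le _ _) (max_lt h.1 h'.1), ?_⟩
  have h1 := h.2.add hP h'.2
  have h2 : x - algebraMap F[X] (RatFunc F) C / algebraMap F[X] (RatFunc F) P + (y - algebraMap F[X] (RatFunc F) C' / algebraMap F[X] (RatFunc F) P) = x + y - algebraMap F[X] (RatFunc F) (C + C') / algebraMap F[X] (RatFunc F) P := by
    rw [map_add, add_div]
    ring
  rwa [h2] at h1

theorem Comp.polC_mul (hP : Irreducible P) {x : RatFunc F} {C : F[X]} (h : Comp P x C) (c : F) :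
    Comp P (RatFunc.C c * x) (Polynomial.C c * C) := by
  refine ⟨?_, ?_⟩
  · refine lt_of_le_of_lt ?_ h.1
    by_cases hc : c = 0
    · rw [hc, map_zero, zero_mul, degree_zero]; exact bot_le
    · rw [degree_C_mul hc]
  · have h1 := (reg_poly hP (Polynomial.C c)).mul hP h.2
    have h2 : algebraMap F[X] (RatFunc F) (Polynomial.C c) * (x - algebraMap F[X] (RatFunc F) C / algebraMap F[X] (RatFunc F) P) = RatFunc.C c * x -
        algebraMap F[X] (RatFunc F) (Polynomial.C c * C) / algebraMap F[X] (RatFunc F) P := by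
      rw [map_mul, RatFunc.algebraMap_C]
      ring
    rwa [h2] at h1

theorem Comp.neg {x : RatFunc F} {C : F[X]} (h : Comp P x C) :
    Comp P (-x) (-C) := by
  refine ⟨by rw [degree_neg]; exact h.1, ?_⟩
  have h1 := h.2.neg
  have h2 : -(x - algebraMap F[X] (RatFunc F) C / algebraMap F[X] (RatFunc F) P) = -x - algebraMap F[X] (RatFunc F) (-C) / algebraMap F[X] (RatFunc F) P := by
    rw [map_neg]
    ring
  rwa [h2] at h1

theorem Comp.sum (hP : Irreducible P) {α : Type} (s : Finset α) {x : α → RatFunc F}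
    {C : α → F[X]} (h : ∀ a ∈ s, Comp P (x a) (C a)) :
    Comp P (∑ a ∈ s, x a) (∑ a ∈ s, C a) := by
  classical
  induction s using Finset.induction_on with
  | empty => rw [Finset.sum_empty, Finset.sum_empty]; exact comp_zero_of_reg hP (reg_zero hP)
  | insert a s ha ih =>
    rw [Finset.sum_insert ha, Finset.sum_insert ha]
    exact (h a (Finset.mem_insert_self _ _)).add hP (ih fun b hb => h b (Finset.mem_insert_of_mem hb))

/-- the numerator of `B / (P Q)` at `P` -/
theorem comp_div (hP : Irreducible P) {B Q C : F[X]} (hQ : ¬ P ∣ Q) (hC : C.degree < P.degree)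
    (h : P ∣ C * Q - B) : Comp P (algebraMap F[X] (RatFunc F) B / (algebraMap F[X] (RatFunc F) P * algebraMap F[X] (RatFunc F) Q)) C := by
  refine ⟨hC, ?_⟩
  obtain ⟨W, hW⟩ := h
  refine ⟨-W, Q, hQ, ?_⟩
  have h1 := ι_ne hP.ne_zero
  have h2 := ι_ne (ne_of_not_dvd hQ)
  have h3 : B = C * Q - P * W := by rw [← hW]; ring
  rw [h3, map_sub, map_mul, map_mul, map_neg]
  field_simp
  ring

theorem dvd_of_comp (hP : Irreducible P) {B Q C : F[X]} (hQ : ¬ P ∣ Q)
    (h : Comp P (algebraMap F[X] (RatFunc F) B / (algebraMap F[X] (RatFunc F) P * algebraMap F[X] (RatFunc F) Q)) C) : P ∣ C * Q - B := by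
  have h1 := ι_ne hP.ne_zero
  have h2 := ι_ne (ne_of_not_dvd hQ)
  have h3 := (reg_poly hP Q).mul hP h.2
  have h4 : algebraMap F[X] (RatFunc F) Q * (algebraMap F[X] (RatFunc F) B / (algebraMap F[X] (RatFunc F) P * algebraMap F[X] (RatFunc F) Q) - algebraMap F[X] (RatFunc F) C / algebraMap F[X] (RatFunc F) P) = algebraMap F[X] (RatFunc F) (B - C * Q) / algebraMap F[X] (RatFunc F) P := by
    rw [map_sub, map_mul]
    field_simp
  rw [h4] at h3
  have h5 := dvd_of_reg_div hP h3
  have h6 : C * Q - B = -(B - C * Q) := by ring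
  rw [h6, dvd_neg]
  exact h5

theorem exists_comp_div (hP : Irreducible P) {B Q : F[X]} (hQ : ¬ P ∣ Q) :
    ∃ C : F[X], C.degree < P.degree ∧ P ∣ C * Q - B ∧ Comp P (algebraMap F[X] (RatFunc F) B / (algebraMap F[X] (RatFunc F) P * algebraMap F[X] (RatFunc F) Q)) C := by
  have hcop : IsCoprime P Q := (hP.coprime_iff_not_dvd).2 hQ
  obtain ⟨a, b, hab⟩ := hcop
  have hd : ((B * b) % P).degree < P.degree := by
    rw [Polynomial.mod_def]
    have := degree_modByMonic_lt (B * b) (monic_mul_leadingCoeff_inv hP.ne_zero)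
    rwa [degree_mul_leadingCoeff_inv _ hP.ne_zero] at this
  have hdiv : P ∣ (B * b) % P * Q - B := by
    have h1 : (B * b) % P = B * b - P * ((B * b) / P) := EuclideanDomain.mod_eq_sub_mul_div _ _
    rw [h1]
    refine ⟨-(B * a) - (B * b / P) * Q, ?_⟩
    have h2 : B = B * (a * P + b * Q) := by rw [hab, mul_one]
    calc (B * b - P * (B * b / P)) * Q - B = B * b * Q - P * (B * b / P) * Q - B * (a * P + b * Q) := by
          rw [← h2]; ring
      _ = P * (-(B * a) - (B * b / P) * Q) := by ring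
  exact ⟨(B * b) % P, hd, hdiv, comp_div hP hQ hd hdiv⟩

theorem exists_comp_of_reg (hP : Irreducible P) {y : RatFunc F} (h : Reg P (algebraMap F[X] (RatFunc F) P * y)) :
    ∃ C : F[X], Comp P y C := by
  obtain ⟨U, V, hV, h⟩ := h
  obtain ⟨C, _, _, hC⟩ := exists_comp_div (B := U) hP hV
  refine ⟨C, ?_⟩
  have h1 := ι_ne hP.ne_zero
  have h2 := ι_ne (ne_of_not_dvd hV)
  have h3 : y = algebraMap F[X] (RatFunc F) U / (algebraMap F[X] (RatFunc F) P * algebraMap F[X] (RatFunc F) V) := by
    rw [eq_div_iff (mul_ne_zero h1 h2)]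
    rw [eq_div_iff h2] at h
    rw [← h]
    ring
  rwa [h3]

theorem Comp.reg_mul (hP : Irreducible P) {y : RatFunc F} {C : F[X]} (h : Comp P y C) :
    Reg P (algebraMap F[X] (RatFunc F) P * y) := by
  have h1 := (reg_poly hP P).mul hP h.2
  have h2 : algebraMap F[X] (RatFunc F) P * y = algebraMap F[X] (RatFunc F) P * (y - algebraMap F[X] (RatFunc F) C / algebraMap F[X] (RatFunc F) P) + algebraMap F[X] (RatFunc F) C := by
    have := ι_ne hP.ne_zero
    field_simp
    ring
  rw [h2]
  exact h1.add hP (reg_poly hP C)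

end Reg

section Lam

variable {K F : Type} [Field K] [Field F] [Algebra K F] {I : Type} (D : I → Derivation K F F)

theorem lam_mem {q : ℕ} {f : Fin q → F} (hf : ∀ j, f j ≠ 0) : lam D f ∈ Lam D q :=
  Submodule.subset_span ⟨f, hf, rfl⟩

/-- induction principle for `Lam` -/
theorem Lam_induction {q : ℕ} {p : ((Fin q → I) → F) → Prop} {H : (Fin q → I) → F}
    (hH : H ∈ Lam D q) (hl : ∀ f : Fin q → F, (∀ j, f j ≠ 0) → p (lam D f)) (h0 : p 0)
    (ha : ∀ x y, p x → p y → p (x + y)) (hs : ∀ (c : K) x, p x → p (c • x)) : p H := by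
  refine Submodule.span_induction (p := fun H _ => p H) ?_ h0 (fun x y _ _ => ha x y)
    (fun c x _ => hs c x) hH
  rintro _ ⟨f, hf, rfl⟩
  exact hl f hf

theorem logder_mul {E : Type} [Field E] [Algebra K E] (d : Derivation K E E) {g h : E}
    (hg : g ≠ 0) (hh : h ≠ 0) : d (g * h) / (g * h) = d g / g + d h / h := by
  rw [d.leibniz, smul_eq_mul, smul_eq_mul]
  field_simp
  ring

theorem lam_update_mul {q : ℕ} (f : Fin q → F) (j : Fin q) {g h : F} (hg : g ≠ 0) (hh : h ≠ 0) :
    lam D (Function.update f j (g * h)) =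
      lam D (Function.update f j g) + lam D (Function.update f j h) := by
  classical
  funext v
  have key : ∀ x : F, lam D (Function.update f j x) v =
      ((Matrix.of fun i j => D (v i) (f j) / f j).updateCol j (fun i => D (v i) x / x)).det := by
    intro x
    rw [lam]
    congr 1
    ext a b
    rw [Matrix.updateCol_apply, Matrix.of_apply, Matrix.of_apply]
    by_cases hb : b = j
    · subst hb
      rw [Function.update_self, if_pos rfl]
    · rw [Function.update_of_ne hb, if_neg hb]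
  rw [Pi.add_apply, key, key, key]
  have : (fun i => D (v i) (g * h) / (g * h)) =
      (fun i => D (v i) g / g) + (fun i => D (v i) h / h) := by
    funext i
    exact logder_mul _ hg hh
  rw [this, Matrix.det_updateCol_add]

/-- pull back along a homomorphism of fields compatible with the derivations -/
theorem Lam_pull {F' I' : Type} [Field F'] [Algebra K F'] (D' : I' → Derivation K F' F')
    (j : F →+* F') (hj : ∀ c : K, j (algebraMap K F c) = algebraMap K F' c) {q : ℕ}
    {H : (Fin q → I) → F} (hH : H ∈ Lam D q) :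
    ∃ H' ∈ Lam D' q, ∀ (w : Fin q → I) (w' : Fin q → I'),
      (∀ k f, j (D (w k) f) = D' (w' k) (j f)) → H' w' = j (H w) := by
  refine Lam_induction D (p := fun H => ∃ H' ∈ Lam D' q, ∀ (w : Fin q → I) (w' : Fin q → I'),
      (∀ k f, j (D (w k) f) = D' (w' k) (j f)) → H' w' = j (H w)) hH ?_ ?_ ?_ ?_
  · intro f hf
    refine ⟨lam D' (fun k => j (f k)), lam_mem _ fun k => by
      rw [Ne, map_eq_zero]; exact hf k, ?_⟩
    intro w w' h
    rw [lam, lam, RingHom.map_det]
    congr 1
    ext a b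
    rw [Matrix.of_apply, RingHom.mapMatrix_apply, Matrix.map_apply, Matrix.of_apply, map_div₀, h]
  · exact ⟨0, Submodule.zero_mem _, fun w w' _ => by simp⟩
  · rintro x y ⟨x', hx', hx⟩ ⟨y', hy', hy⟩
    exact ⟨x' + y', Submodule.add_mem _ hx' hy', fun w w' h => by
      rw [Pi.add_apply, Pi.add_apply, map_add, hx w w' h, hy w w' h]⟩
  · rintro c x ⟨x', hx', hx⟩
    exact ⟨c • x', Submodule.smul_mem _ _ hx', fun w w' h => by
      rw [Pi.smul_apply, Pi.smul_apply, Algebra.smul_def, Algebra.smul_def, map_mul, hx w w' h,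
        hj]⟩

theorem Lam_perm {q : ℕ} {H : (Fin q → I) → F} (hH : H ∈ Lam D q) (w : Fin q → I)
    (σ : Equiv.Perm (Fin q)) : H (w ∘ σ) = (Equiv.Perm.sign σ : ℤ) * H w := by
  refine Lam_induction D (p := fun H => H (w ∘ σ) = (Equiv.Perm.sign σ : ℤ) * H w) hH ?_ ?_ ?_ ?_
  · intro f _
    rw [lam, lam]
    have := Matrix.det_permute σ (Matrix.of fun i j => D (w i) (f j) / f j)
    rw [← this]
    rfl
  · simp
  · intro x y hx hy
    rw [Pi.add_apply, Pi.add_apply, hx, hy, mul_add]
  · intro c x hx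
    rw [Pi.smul_apply, Pi.smul_apply, hx, mul_smul_comm]

theorem Lam_eq_zero {q : ℕ} {H : (Fin q → I) → F} (hH : H ∈ Lam D q) (w : Fin q → I)
    {i j : Fin q} (hij : i ≠ j) (h : w i = w j) : H w = 0 := by
  refine Lam_induction D (p := fun H => H w = 0) hH ?_ ?_ ?_ ?_
  · intro f _
    rw [lam]
    apply Matrix.det_zero_of_row_eq hij
    funext k
    rw [Matrix.of_apply, Matrix.of_apply, h]
  · rfl
  · intro x y hx hy
    rw [Pi.add_apply, hx, hy, add_zero]
  · intro c x hx
    rw [Pi.smul_apply, hx, smul_zero]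

theorem Lam_zero_const {H : (Fin 0 → I) → F} (hH : H ∈ Lam D 0) :
    ∃ c : K, ∀ w, H w = algebraMap K F c := by
  refine Lam_induction D (p := fun H => ∃ c : K, ∀ w, H w = algebraMap K F c) hH ?_ ?_ ?_ ?_
  · intro f _
    exact ⟨1, fun w => by rw [lam, Matrix.det_isEmpty, map_one]⟩
  · exact ⟨0, fun w => by simp⟩
  · rintro x y ⟨a, ha⟩ ⟨b, hb⟩
    exact ⟨a + b, fun w => by rw [Pi.add_apply, ha, hb, map_add]⟩
  · rintro c x ⟨a, ha⟩
    exact ⟨c * a, fun w => by rw [Pi.smul_apply, ha, Algebra.smul_def, map_mul]⟩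

end Lam

end Pool.Agent.H531R2.D4

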