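import Pool.Agent.H531R2.D4.TA

/-! Formalised by helper169. -/

/-!
# Components of logarithmic forms are logarithmic forms
-/

set_option autoImplicit false

namespace Pool.Agent.H531R2.D4

open Polynomial

section B
variable {K F : Type} [Field K] [Field F] [Algebra K F] {I : Type} (D : I → Derivation K F F)

theorem B_inj : Function.Injective ((algebraMap (RatFunc F)[X] (RatFunc (RatFunc F))).comp
    (mapRingHom (RatFunc.C : F →+* RatFunc F))) := by
  apply (RatFunc.algebraMap_injective (RatFunc F)).comp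
  exact Polynomial.map_injective _ (RatFunc.C : F →+* RatFunc F).injective

/-- the embedding `F(t) → F(z)(t)` -/
noncomputable def B_e (F : Type) [Field F] : RatFunc F →+* RatFunc (RatFunc F) :=
  IsFractionRing.lift (A := F[X]) (B_inj (F := F))

theorem B_e_algebraMap (p : F[X]) : B_e F (algebraMap F[X] (RatFunc F) p) =
    algebraMap (RatFunc F)[X] (RatFunc (RatFunc F)) (p.map RatFunc.C) :=
  IsFractionRing.lift_algebraMap (B_inj (F := F)) p

theorem B_e_K (c : K) : B_e F (algebraMap K (RatFunc F) c) =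
    algebraMap K (RatFunc (RatFunc F)) c := by
  rw [IsScalarTower.algebraMap_apply K F[X] (RatFunc F), B_e_algebraMap,
    IsScalarTower.algebraMap_apply K (RatFunc F)[X] (RatFunc (RatFunc F))]
  congr 1
  rw [Polynomial.algebraMap_apply, Polynomial.algebraMap_apply, Polynomial.map_C]
  congr 1

theorem B_compat (d : Derivation K (RatFunc F) (RatFunc F))
    (d' : Derivation K (RatFunc (RatFunc F)) (RatFunc (RatFunc F)))
    (h : ∀ p : F[X], B_e F (d (algebraMap F[X] (RatFunc F) p)) =
      d' (B_e F (algebraMap F[X] (RatFunc F) p))) (f : RatFunc F) :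
    B_e F (d f) = d' (B_e F f) := by
  obtain ⟨a, b, hb, rfl⟩ := IsFractionRing.div_surjective (A := F[X]) f
  rw [Derivation.leibniz_div, map_div₀, Derivation.leibniz_div]
  simp only [smul_eq_mul, map_mul, map_sub, map_pow, map_inv₀, h]

theorem DX_C (o : Option I) (c : F) : DX D o (RatFunc.C c) =
    match o with
    | none => 0
    | some i => RatFunc.C (D i c) := by
  rw [← RatFunc.algebraMap_C]
  cases o with
  | none => rw [DX_none]; simp
  | some i => rw [DX_some, mapD_C, RatFunc.algebraMap_C]

theorem B_none (f : RatFunc F) : B_e F (DX D none f) = DX (DX D) none (B_e F f) := by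
  apply B_compat
  intro p
  rw [DX_none, B_e_algebraMap, B_e_algebraMap, DX_none, derivative_map]

theorem B_some (i : I) (f : RatFunc F) :
    B_e F (DX D (some i) f) = DX (DX D) (some (some i)) (B_e F f) := by
  apply B_compat
  intro p
  rw [DX_some, B_e_algebraMap, B_e_algebraMap, DX_some]
  congr 1
  ext k
  rw [coeff_map, coeff_mapD, coeff_mapD, coeff_map, DX_C]

theorem B_z (f : RatFunc F) : DX (DX D) (some none) (B_e F f) = 0 := by
  have := B_compat (0 : Derivation K (RatFunc F) (RatFunc F)) (DX (DX D) (some none)) (by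
    intro p
    rw [Derivation.zero_apply, map_zero, B_e_algebraMap, DX_some]
    have : mapD (DX D none) (p.map RatFunc.C) = 0 := by
      ext k
      rw [coeff_mapD, coeff_map, DX_C, coeff_zero]
    rw [this, map_zero]) f
  rw [Derivation.zero_apply, map_zero] at this
  exact this.symm

/-- `z - t` -/
noncomputable def B_zt (F : Type) [Field F] : RatFunc (RatFunc F) :=
  algebraMap (RatFunc F)[X] (RatFunc (RatFunc F)) (C RatFunc.X - X)

theorem B_poly_ne : (C RatFunc.X - X : (RatFunc F)[X]) ≠ 0 := by
  intro h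
  have := congrArg (fun p => Polynomial.coeff p 1) h
  simp [coeff_X] at this

theorem B_zt_ne : B_zt F ≠ 0 := ι_ne B_poly_ne

theorem B_zt_none : DX (DX D) none (B_zt F) = -1 := by
  unfold B_zt
  rw [DX_none]
  simp

theorem B_zt_z : DX (DX D) (some none) (B_zt F) = 1 := by
  unfold B_zt
  rw [DX_some, map_sub, mapD_X, mapD_C, ← RatFunc.algebraMap_X, DX_none]
  simp

theorem B_zt_some (i : I) : DX (DX D) (some (some i)) (B_zt F) = 0 := by
  unfold B_zt
  rw [DX_some, map_sub, mapD_X, mapD_C, ← RatFunc.algebraMap_X, DX_some]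
  simp

theorem B_exists {q : ℕ} {H : (Fin (q + 1) → Option I) → RatFunc F}
    (hH : H ∈ Lam (DX D) (q + 1)) :
    ∃ H' ∈ Lam (DX (DX D)) (q + 2), ∀ v : Fin q → I,
      H' (Fin.cons none (fun k => some ((Fin.cons none (fun k => some (v k)) :
        Fin (q + 1) → Option I) k))) =
        -(B_e F (H (Fin.cons none (fun k => some (v k)))) / B_zt F) := by
  refine Lam_induction (DX D) (p := fun H => ∃ H' ∈ Lam (DX (DX D)) (q + 2), ∀ v : Fin q → I,
      H' (Fin.cons none (fun k => some ((Fin.cons none (fun k => some (v k)) :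
        Fin (q + 1) → Option I) k))) =
        -(B_e F (H (Fin.cons none (fun k => some (v k)))) / B_zt F)) hH ?_ ?_ ?_ ?_
  · intro f hf
    refine ⟨lam (DX (DX D)) (Fin.cons (B_zt F) (fun k => B_e F (f k))), lam_mem _ ?_, ?_⟩
    · intro j
      refine Fin.cases ?_ (fun k => ?_) j
      · rw [Fin.cons_zero]; exact B_zt_ne
      · rw [Fin.cons_succ, Ne, map_eq_zero]; exact hf k
    · intro v
      rw [lam, Matrix.det_succ_row _ 1, Fin.sum_univ_succ]
      have hz : ∀ k : Fin (q + 1), (Matrix.of fun (i : Fin (q + 2)) (j : Fin (q + 2)) =>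
          (DX (DX D) ((Fin.cons none (fun k => some ((Fin.cons none (fun k => some (v k)) :
            Fin (q + 1) → Option I) k)) : Fin (q + 2) → Option (Option I)) i))
            ((Fin.cons (B_zt F) (fun k => B_e F (f k)) : Fin (q + 2) → RatFunc (RatFunc F)) j) /
            (Fin.cons (B_zt F) (fun k => B_e F (f k)) : Fin (q + 2) → RatFunc (RatFunc F)) j)
            1 k.succ = 0 := by
        intro k
        rw [Matrix.of_apply, Fin.cons_succ, ← Fin.succ_zero_eq_one, Fin.cons_succ, Fin.cons_zero,
          B_z, zero_div]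
      rw [Finset.sum_eq_zero (fun k _ => by rw [hz k, mul_zero, zero_mul]), add_zero]
      have h10 : (Matrix.of fun (i : Fin (q + 2)) (j : Fin (q + 2)) =>
          (DX (DX D) ((Fin.cons none (fun k => some ((Fin.cons none (fun k => some (v k)) :
            Fin (q + 1) → Option I) k)) : Fin (q + 2) → Option (Option I)) i))
            ((Fin.cons (B_zt F) (fun k => B_e F (f k)) : Fin (q + 2) → RatFunc (RatFunc F)) j) /
            (Fin.cons (B_zt F) (fun k => B_e F (f k)) : Fin (q + 2) → RatFunc (RatFunc F)) j)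
            1 0 = 1 / B_zt F := by
        rw [Matrix.of_apply, Fin.cons_zero, ← Fin.succ_zero_eq_one, Fin.cons_succ, Fin.cons_zero,
          B_zt_z]
      rw [h10]
      have hdet : B_e F (lam (DX D) f (Fin.cons none (fun k => some (v k)))) =
          ((Matrix.of fun (i : Fin (q + 2)) (j : Fin (q + 2)) =>
          (DX (DX D) ((Fin.cons none (fun k => some ((Fin.cons none (fun k => some (v k)) :
            Fin (q + 1) → Option I) k)) : Fin (q + 2) → Option (Option I)) i))
            ((Fin.cons (B_zt F) (fun k => B_e F (f k)) : Fin (q + 2) → RatFunc (RatFunc F)) j) /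
            (Fin.cons (B_zt F) (fun k => B_e F (f k)) : Fin (q + 2) → RatFunc (RatFunc F)) j).submatrix
            (Fin.succAbove 1) (Fin.succAbove 0)).det := by
        rw [lam, RingHom.map_det]
        congr 1
        ext i j
        rw [Matrix.submatrix_apply, Matrix.of_apply, RingHom.mapMatrix_apply, Matrix.map_apply,
          Matrix.of_apply, Fin.zero_succAbove, Fin.cons_succ, map_div₀]
        congr 1
        refine Fin.cases ?_ (fun k => ?_) i
        · rw [Fin.succAbove_ne_zero_zero (by simp), Fin.cons_zero, Fin.cons_zero, B_none]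
        · have : (1 : Fin (q + 2)).succAbove k.succ = k.succ.succ := by
            rw [← Fin.succ_zero_eq_one, Fin.succ_succAbove_succ, Fin.zero_succAbove]
          rw [this, Fin.cons_succ, Fin.cons_succ, Fin.cons_succ, B_some]
      rw [← hdet]
      simp only [Fin.val_one, Fin.val_zero, add_zero, pow_one]
      ring
  · exact ⟨0, Submodule.zero_mem _, fun v => by simp⟩
  · rintro x y ⟨x', hx', hx⟩ ⟨y', hy', hy⟩
    refine ⟨x' + y', Submodule.add_mem _ hx' hy', fun v => ?_⟩
    rw [Pi.add_apply, Pi.add_apply, map_add, hx v, hy v]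
    ring
  · rintro c x ⟨x', hx', hx⟩
    refine ⟨c • x', Submodule.smul_mem _ _ hx', fun v => ?_⟩
    rw [Pi.smul_apply, Pi.smul_apply, hx v, Algebra.smul_def, Algebra.smul_def, map_mul, B_e_K]
    ring

theorem B_irr {P : F[X]} (hP : Irreducible P) (hm : P.Monic) :
    Irreducible (P.map (RatFunc.C : F →+* RatFunc F)) := by
  have h1 : Irreducible (P.map (C : F →+* F[X])) := by
    apply Monic.irreducible_of_irreducible_map (evalRingHom (0 : F)) _ (hm.map _)
    rw [Polynomial.map_map]
    have : (evalRingHom (0 : F)).comp (C : F →+* F[X]) = RingHom.id F := by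
      ext x; simp
    rw [this, Polynomial.map_id]
    exact hP
  have h2 := ((hm.map (C : F →+* F[X])).irreducible_iff_irreducible_map_fraction_map
    (K := RatFunc F)).1 h1
  rw [Polynomial.map_map] at h2
  have : (algebraMap F[X] (RatFunc F)).comp (C : F →+* F[X]) = RatFunc.C := by
    ext x; simp
  rwa [this] at h2

theorem B_eval (p : F[X]) : (p.map (RatFunc.C : F →+* RatFunc F)).eval RatFunc.X =
    algebraMap F[X] (RatFunc F) p := by
  induction p using Polynomial.induction_on' with
  | add p q hp hq => rw [Polynomial.map_add, eval_add, hp, hq, map_add]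
  | monomial n a =>
    rw [Polynomial.map_monomial, eval_monomial, ← C_mul_X_pow_eq_monomial, map_mul, map_pow,
      RatFunc.algebraMap_C, RatFunc.algebraMap_X]

theorem B_not_dvd {P : F[X]} (hP : Irreducible P) (hm : P.Monic) :
    ¬ P.map (RatFunc.C : F →+* RatFunc F) ∣ (C RatFunc.X - X) := by
  intro h
  have h1 : Irreducible (X - C RatFunc.X : (RatFunc F)[X]) := irreducible_X_sub_C _
  have h2 : P.map (RatFunc.C : F →+* RatFunc F) ∣ (X - C RatFunc.X) := by
    have : (X - C RatFunc.X : (RatFunc F)[X]) = -(C RatFunc.X - X) := by ring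
    rw [this, dvd_neg]; exact h
  have h3 := (B_irr hP hm).associated_of_dvd h1 h2
  have h4 : (X - C RatFunc.X : (RatFunc F)[X]) ∣ P.map (RatFunc.C : F →+* RatFunc F) := h3.symm.dvd
  rw [dvd_iff_isRoot, IsRoot.def, B_eval] at h4
  exact ι_ne hP.ne_zero h4

theorem B_reg {P : F[X]} {y : RatFunc F} (h : Reg P y) :
    Reg (P.map (RatFunc.C : F →+* RatFunc F)) (B_e F y) := by
  obtain ⟨U, V, hV, rfl⟩ := h
  refine ⟨U.map RatFunc.C, V.map RatFunc.C, ?_, ?_⟩
  · rwa [Polynomial.map_dvd_map']
  · rw [map_div₀, B_e_algebraMap, B_e_algebraMap]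

/-- the component of a logarithmic form at `P` is a logarithmic form -/
theorem comp_mem {P : F[X]} (hP : Irreducible P) (hm : P.Monic) {q : ℕ}
    {H : (Fin (q + 1) → Option I) → RatFunc F} (hH : H ∈ Lam (DX D) (q + 1)) :
    ∃ Ψ ∈ Lam (DX D) (q + 1), ∀ v : Fin q → I, ∀ C : F[X],
      Comp P (H (Fin.cons none (fun k => some (v k)))) C →
      Ψ (Fin.cons none (fun k => some (v k))) =
        algebraMap F[X] (RatFunc F) C / algebraMap F[X] (RatFunc F) P := by
  obtain ⟨H', hH', hH'v⟩ := B_exists D hH
  have hP' := B_irr hP hm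
  have hm' := hm.map (RatFunc.C : F →+* RatFunc F)
  obtain ⟨Ψ, hΨ, hΨv⟩ := res_trace (DX D) hP' hm' hH'
  refine ⟨-Ψ, Submodule.neg_mem _ hΨ, ?_⟩
  intro v A hA
  obtain ⟨C', hC', hcoeff⟩ := hΨv (Fin.cons none (fun k => some (v k)))
  rw [hH'v v] at hC'
  rw [Pi.neg_apply, ← hcoeff]
  -- the explicit numerator
  have hPne : algebraMap F[X] (RatFunc F) P ≠ 0 := ι_ne hP.ne_zero
  have hdeg : A.degree < P.degree := hA.1
  have hn : 0 < P.natDegree := hP.natDegree_pos
  obtain ⟨N, hN⟩ : ∃ N : (RatFunc F)[X], N =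
      C (algebraMap F[X] (RatFunc F) A) * P.map RatFunc.C -
      C (algebraMap F[X] (RatFunc F) P) * A.map RatFunc.C := ⟨_, rfl⟩
  have hroot : N.IsRoot RatFunc.X := by
    rw [IsRoot.def, hN, eval_sub, eval_mul, eval_mul, eval_C, eval_C, B_eval, B_eval]
    ring
  obtain ⟨M, hM⟩ : ∃ M : (RatFunc F)[X], M = N /ₘ (X - C RatFunc.X) := ⟨_, rfl⟩
  have hMN : (X - C RatFunc.X) * M = N := by
    rw [hM]; exact mul_divByMonic_eq_iff_isRoot.2 hroot
  have hAcoeff : ∀ k, P.natDegree ≤ k → A.coeff k = 0 := by
    intro k hk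
    apply coeff_eq_zero_of_degree_lt
    refine lt_of_lt_of_le hdeg ?_
    rw [degree_eq_natDegree hP.ne_zero]
    exact_mod_cast hk
  have hNcoeff : ∀ k, P.natDegree < k → N.coeff k = 0 := by
    intro k hk
    rw [hN, coeff_sub, coeff_C_mul, coeff_C_mul, coeff_map, coeff_map, hAcoeff k hk.le,
      coeff_eq_zero_of_natDegree_lt hk]
    simp
  have hNtop : N.coeff P.natDegree = algebraMap F[X] (RatFunc F) A := by
    rw [hN, coeff_sub, coeff_C_mul, coeff_C_mul, coeff_map, coeff_map, hAcoeff _ le_rfl,
      hm.coeff_natDegree]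
    simp
  have hNdeg : N.natDegree ≤ P.natDegree := by
    rw [natDegree_le_iff_coeff_eq_zero]
    exact hNcoeff
  have hMdeg : M.natDegree ≤ P.natDegree - 1 := by
    rw [hM, natDegree_divByMonic _ (monic_X_sub_C _), natDegree_X_sub_C]
    omega
  have hMtop : M.coeff (P.natDegree - 1) = algebraMap F[X] (RatFunc F) A := by
    rw [← hNtop, ← hMN, sub_mul, coeff_sub, coeff_C_mul]
    have h1 : P.natDegree = P.natDegree - 1 + 1 := by omega
    rw [h1, coeff_X_mul, Nat.add_sub_cancel]
    have h2 : M.coeff (P.natDegree - 1 + 1) = 0 := coeff_eq_zero_of_natDegree_lt (by omega)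
    rw [h2, mul_zero, sub_zero]
  obtain ⟨C2, hC2⟩ : ∃ C2 : (RatFunc F)[X], C2 =
    C (-(algebraMap F[X] (RatFunc F) P)⁻¹) * M := ⟨_, rfl⟩
  have hC2deg : C2.degree < (P.map (RatFunc.C : F →+* RatFunc F)).degree := by
    rw [Polynomial.degree_map, degree_eq_natDegree hP.ne_zero, hC2]
    rw [degree_C_mul (neg_ne_zero.2 (inv_ne_zero hPne))]
    refine lt_of_le_of_lt degree_le_natDegree ?_
    exact_mod_cast (by omega : M.natDegree < P.natDegree)
  have hcomp : Comp (P.map (RatFunc.C : F →+* RatFunc F))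
      (-(B_e F (H (Fin.cons none (fun k => some (v k)))) / B_zt F)) C2 := by
    have h1 : Comp (P.map (RatFunc.C : F →+* RatFunc F))
        (algebraMap (RatFunc F)[X] (RatFunc (RatFunc F)) (-(A.map RatFunc.C)) /
        (algebraMap (RatFunc F)[X] (RatFunc (RatFunc F)) (P.map RatFunc.C) *
         algebraMap (RatFunc F)[X] (RatFunc (RatFunc F)) (C RatFunc.X - X))) C2 := by
      apply comp_div hP' (B_not_dvd hP hm) hC2deg
      refine ⟨C (algebraMap F[X] (RatFunc F) A * (algebraMap F[X] (RatFunc F) P)⁻¹), ?_⟩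
      have h2 : C2 * (C RatFunc.X - X) = C ((algebraMap F[X] (RatFunc F) P)⁻¹) * N := by
        rw [hC2, ← hMN, C_neg]; ring
      rw [h2, hN, C_mul]
      have h3 : C ((algebraMap F[X] (RatFunc F) P)⁻¹) * C (algebraMap F[X] (RatFunc F) P) = 1 := by
        rw [← C_mul, inv_mul_cancel₀ hPne, C_1]
      calc C ((algebraMap F[X] (RatFunc F) P)⁻¹) * (C (algebraMap F[X] (RatFunc F) A) *
            P.map RatFunc.C - C (algebraMap F[X] (RatFunc F) P) * A.map RatFunc.C) -
            -(A.map RatFunc.C) = C ((algebraMap F[X] (RatFunc F) P)⁻¹) *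
            C (algebraMap F[X] (RatFunc F) A) * P.map RatFunc.C -
            (C ((algebraMap F[X] (RatFunc F) P)⁻¹) * C (algebraMap F[X] (RatFunc F) P)) *
              A.map RatFunc.C + A.map RatFunc.C := by ring
        _ = _ := by rw [h3]; ring
    have h4 : Reg (P.map (RatFunc.C : F →+* RatFunc F)) (-(B_e F (H (Fin.cons none
        (fun k => some (v k)))) / B_zt F) -
        (algebraMap (RatFunc F)[X] (RatFunc (RatFunc F)) (-(A.map RatFunc.C)) /
        (algebraMap (RatFunc F)[X] (RatFunc (RatFunc F)) (P.map RatFunc.C) *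
         algebraMap (RatFunc F)[X] (RatFunc (RatFunc F)) (C RatFunc.X - X)))) := by
      have h5 := B_reg hA.2
      have h6 : Reg (P.map (RatFunc.C : F →+* RatFunc F)) (1 / B_zt F) :=
        ⟨1, C RatFunc.X - X, B_not_dvd hP hm, by rw [map_one]; rfl⟩
      have h7 := (h5.mul hP' h6).neg
      convert h7 using 1
      have e1 : B_e F (H (Fin.cons none fun k => some (v k)) -
          (algebraMap F[X] (RatFunc F)) A / (algebraMap F[X] (RatFunc F)) P) =
          B_e F (H (Fin.cons none fun k => some (v k))) -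
          algebraMap (RatFunc F)[X] (RatFunc (RatFunc F)) (A.map RatFunc.C) /
          algebraMap (RatFunc F)[X] (RatFunc (RatFunc F)) (P.map RatFunc.C) := by
        rw [map_sub, map_div₀, B_e_algebraMap, B_e_algebraMap]
      have e2 : algebraMap (RatFunc F)[X] (RatFunc (RatFunc F)) (-(A.map RatFunc.C)) =
          -algebraMap (RatFunc F)[X] (RatFunc (RatFunc F)) (A.map RatFunc.C) := map_neg _ _
      rw [e1, e2]
      have h8 := ι_ne hP'.ne_zero
      have h9 : algebraMap (RatFunc F)[X] (RatFunc (RatFunc F)) (C RatFunc.X - X) = B_zt F := rfl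
      have h10 := B_zt_ne (F := F)
      rw [h9]
      field_simp
      ring
    have h11 := h1.add hP' (comp_zero_of_reg hP' h4)
    rw [add_zero, add_sub_cancel] at h11
    exact h11
  have := comp_unique hP' hC' hcomp
  rw [this, hC2, coeff_C_mul, natDegree_map, hMtop]
  field_simp

end B

end Pool.Agent.H531R2.D4
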