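import Pool.Agent.H531R2.D4.TD3
import Pool.Agent.H531R2.D4.TA

/-! Formalised by helper287. -/

set_option autoImplicit false

namespace Pool.Agent.H531R2.D4

open Polynomial

section D
variable {K F : Type} [Field K] [Field F] [Algebra K F] {I : Type} (D : I → Derivation K F F)

theorem onepoint {E : Type} [Field E] [Algebra K E] [IsAlgClosed E]
    (DE : I → Derivation K E E) (ψ : F →+* RatFunc E)
    (hψK : ∀ c : K, ψ (algebraMap K F c) = algebraMap K (RatFunc E) c) (i₀ : I)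
    (hψ₀ : ∀ f, ψ (D i₀ f) = DX DE none (ψ f)) (hψ : ∀ i f, ψ (D i f) = DX DE (some i) (ψ f))
    (α : E) {ι : Type} [Fintype ι] {q : ℕ} (Ψ : ι → (Fin (q + 2) → Option I) → RatFunc F)
    (hΨ : ∀ s, Ψ s ∈ Lam (DX D) (q + 2)) (v : Fin q → I)
    (P : F[X]) (hP : P.Monic) (C : ι → F[X]) (hC : ∀ s, (C s).degree < P.degree)
    (hCΨ : ∀ s, Ψ s (Fin.cons none (Fin.cons (some i₀) (fun k => some (v k)))) =
      algebraMap F[X] (RatFunc F) (C s) / algebraMap F[X] (RatFunc F) P)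
    (Q B W : ι → F[X]) (hQ : ∀ s, C s * Q s = B s + P * W s)
    (Pt : E[X]) (hPt : ∀ i, RegAt α (ψ (P.coeff i)) (Pt.coeff i))
    (Qt : ι → E[X]) (hQt : ∀ s i, RegAt α (ψ ((Q s).coeff i)) ((Qt s).coeff i))
    (Bt : ι → E[X]) (hBt : ∀ s i, RegAt α (ψ ((B s).coeff i)) ((Bt s).coeff i))
    (ζ₀ : E) (hζ : ∀ ζ, ζ ≠ ζ₀ → Pt.eval ζ = 0 → ∀ s, (Qt s).eval ζ ≠ 0)
    (h0 : (∑ s, C s).coeff (P.natDegree - 1) = 0) :
    ∀ i, ∃ c, RegAt α (ψ ((∑ s, C s).coeff i)) c :=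
  onepoint_of D DE (@fun _ hP hm _ _ hH => res_trace (DX DE) hP hm hH)
    (@fun _ hP _ _ hH w => simple_pole DE hP hH w) ψ hψK i₀ hψ₀ hψ α Ψ hΨ v P hP C hC hCΨ
    Q B W hQ Pt hPt Qt hQt Bt hBt ζ₀ hζ h0
end D

end Pool.Agent.H531R2.D4
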