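import Pool.Agent.H531R2.D4.ShDefs

/-! Formalised by helper768. -/

/-!
# Shifts: compatibility with derivations, irreducibility, degrees (task E)
-/

set_option autoImplicit false

namespace Pool.Agent.H531R2.D4

namespace H768

open Polynomial

section E
variable {K : Type} [Field K] {σ : Type}

theorem sh_C (a : σ → K) (c : K) : sh a (MvPolynomial.C c) = C (MvPolynomial.C c) := by
  have : (MvPolynomial.C c : MvPolynomial σ K) = algebraMap K _ c := rfl
  rw [this, AlgHom.commutes]
  rfl

theorem sh_X (a : σ → K) (i : σ) :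
    sh a (MvPolynomial.X i) = C (MvPolynomial.X i) + C (MvPolynomial.C (a i)) * X := by
  unfold sh
  rw [MvPolynomial.aeval_X]

theorem dD_C (v : σ → K) (c : K) : dD v (MvPolynomial.C c) = 0 := by
  exact (dD v).map_algebraMap c

theorem dD_X (v : σ → K) (i : σ) : dD v (MvPolynomial.X i) = MvPolynomial.C (v i) := by
  unfold dD
  rw [MvPolynomial.mkDerivation_X]

theorem mapD_shP (a v : σ → K) (p : MvPolynomial σ K) :
    mapD (pD v) ((sh a p).map (algebraMap (MvPolynomial σ K) (Rf σ K))) =
      (sh a (dD v p)).map (algebraMap (MvPolynomial σ K) (Rf σ K)) := by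
  induction p using MvPolynomial.induction_on with
  | C c =>
    rw [sh_C, Polynomial.map_C, mapD_C, pD_algebraMap, dD_C, map_zero, map_zero, map_zero,
      Polynomial.map_zero]
  | add p q hp hq =>
    rw [map_add, map_add, map_add, Polynomial.map_add, map_add, hp, hq, Polynomial.map_add]
  | mul_X p i hp =>
    have hX : mapD (pD v) ((sh a (MvPolynomial.X i)).map
        (algebraMap (MvPolynomial σ K) (Rf σ K))) =
        C (algebraMap (MvPolynomial σ K) (Rf σ K) (MvPolynomial.C (v i))) := by
      rw [sh_X, Polynomial.map_add, Polynomial.map_mul, Polynomial.map_C, Polynomial.map_C,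
        Polynomial.map_X, map_add, mapD_C, pD_algebraMap, dD_X, Derivation.leibniz, mapD_C,
        mapD_X, pD_algebraMap, dD_C]
      simp
    rw [map_mul, Polynomial.map_mul, Derivation.leibniz, hX, hp, Derivation.leibniz, dD_X,
      smul_eq_mul, smul_eq_mul, smul_eq_mul, smul_eq_mul, map_add, map_mul, map_mul,
      Polynomial.map_add, Polynomial.map_mul, Polynomial.map_mul, sh_C, Polynomial.map_C]

theorem derivative_sh (a : σ → K) (p : MvPolynomial σ K) :
    derivative (sh a p) = sh a (dD a p) := by
  induction p using MvPolynomial.induction_on with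
  | C c => rw [sh_C, derivative_C, dD_C, map_zero]
  | add p q hp hq => rw [map_add, map_add, hp, hq, map_add, map_add]
  | mul_X p i hp =>
    rw [map_mul, derivative_mul, hp, Derivation.leibniz, dD_X, smul_eq_mul, smul_eq_mul, map_add,
      map_mul, map_mul, sh_C, sh_X]
    simp only [derivative_add, derivative_C, derivative_mul, derivative_X]
    ring

/-- two derivations over a homomorphism which agree on the ring agree on the fraction field -/
theorem der_ext {A L M : Type} [CommRing A] [IsDomain A] [Field L] [Field M] [Algebra A L]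
    [IsFractionRing A L] [Algebra K L] [Algebra K M] (g : L →+* M) (d1 : Derivation K L L)
    (d2 : Derivation K M M)
    (h : ∀ x : A, g (d1 (algebraMap A L x)) = d2 (g (algebraMap A L x))) (f : L) :
    g (d1 f) = d2 (g f) := by
  obtain ⟨x, y, hy, rfl⟩ := IsFractionRing.div_surjective (A := A) f
  have hy0 : algebraMap A L y ≠ 0 := IsFractionRing.to_map_ne_zero_of_mem_nonZeroDivisors hy
  set Y := algebraMap A L y with hY
  set F := algebraMap A L x / Y with hF
  have h1 : Y * F = algebraMap A L x := by rw [hF]; field_simp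
  have h2 : g (d1 (Y * F)) = d2 (g (Y * F)) := by rw [h1]; exact h x
  rw [map_mul g, Derivation.leibniz, Derivation.leibniz, smul_eq_mul, smul_eq_mul, smul_eq_mul,
    smul_eq_mul, map_add, map_mul, map_mul, h y] at h2
  have h3 : g Y ≠ 0 := by rw [Ne, map_eq_zero]; exact hy0
  exact mul_left_cancel₀ h3 (add_right_cancel h2)

theorem shF_pD (a v : σ → K) (f : Rf σ K) : shF a (pD v f) = DX pD (some v) (shF a f) := by
  refine der_ext (A := MvPolynomial σ K) (shF a) (pD v) (DX pD (some v)) (fun p => ?_) f
  rw [pD_algebraMap, shF_algebraMap, shF_algebraMap, DX_some, mapD_shP]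

theorem shF_pD_self (a : σ → K) (f : Rf σ K) : shF a (pD a f) = DX pD none (shF a f) := by
  refine der_ext (A := MvPolynomial σ K) (shF a) (pD a) (DX pD none) (fun p => ?_) f
  rw [pD_algebraMap, shF_algebraMap, shF_algebraMap, DX_none, Polynomial.derivative_map,
    derivative_sh]

theorem shF_algebraMap_K (a : σ → K) (c : K) :
    shF a (algebraMap K (Rf σ K) c) = algebraMap K (RatFunc (Rf σ K)) c := by
  have h1 : algebraMap K (Rf σ K) c = algebraMap (MvPolynomial σ K) (Rf σ K) (MvPolynomial.C c) := by
    rw [IsScalarTower.algebraMap_apply K (MvPolynomial σ K) (Rf σ K)]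
    rfl
  rw [h1, shF_algebraMap, sh_C, Polynomial.map_C, ← h1, RatFunc.algebraMap_C]
  rfl

/-- the automorphism `X_i ↦ X_i + a_i t`, `t ↦ t` -/
noncomputable def shE (a : σ → K) : (MvPolynomial σ K)[X] →+* (MvPolynomial σ K)[X] :=
  eval₂RingHom (sh a : MvPolynomial σ K →+* (MvPolynomial σ K)[X]) X

theorem shE_C (a : σ → K) (p : MvPolynomial σ K) : shE a (C p) = sh a p := by
  unfold shE
  simp

theorem shE_X (a : σ → K) : shE a (X : (MvPolynomial σ K)[X]) = X := by
  unfold shE
  simp

theorem shE_comp (a b : σ → K) (h : ∀ i, a i + b i = 0) :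
    (shE b).comp (shE a) = RingHom.id _ := by
  apply Polynomial.ringHom_ext
  · intro p
    rw [RingHom.comp_apply, shE_C, RingHom.id_apply]
    have h1 : ((shE b).comp (sh a : MvPolynomial σ K →+* (MvPolynomial σ K)[X])) =
        (C : MvPolynomial σ K →+* (MvPolynomial σ K)[X]) := by
      apply MvPolynomial.ringHom_ext
      · intro c
        rw [RingHom.comp_apply, RingHom.coe_coe, sh_C, shE_C, sh_C]
      · intro i
        rw [RingHom.comp_apply, RingHom.coe_coe, sh_X, map_add, map_mul, shE_C, shE_C, shE_X, sh_X,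
          sh_C]
        have h2 : b i = - a i := by linear_combination h i
        rw [h2, map_neg, map_neg]
        ring
    exact congrArg (fun g => g p) h1
  · rw [RingHom.comp_apply, shE_X, shE_X, RingHom.id_apply]

theorem irreducible_sh (a : σ → K) {p : MvPolynomial σ K} (hp : Irreducible p) :
    Irreducible (sh a p) := by
  have h1 : Prime (C p : (MvPolynomial σ K)[X]) := by
    rw [Polynomial.prime_C_iff]
    exact hp.prime
  let e : (MvPolynomial σ K)[X] ≃+* (MvPolynomial σ K)[X] :=
    RingEquiv.ofRingHom (shE a) (shE (-a)) (shE_comp (-a) a (fun i => by simp))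
      (shE_comp a (-a) (fun i => by simp))
  have h2 : e (C p) = sh a p := shE_C a p
  rw [← h2]
  exact (MulEquiv.irreducible_iff e.toMulEquiv).mpr h1.irreducible

theorem irreducible_shP (a : σ → K) {p : MvPolynomial σ K} (hp : Irreducible p) (hm : Mon p a) :
    Irreducible (shP a p) := by
  obtain ⟨c, hc, hlc⟩ := hm
  have h1 := irreducible_sh a hp
  have hu : IsUnit (C (MvPolynomial.C c⁻¹) : (MvPolynomial σ K)[X]) := by
    rw [Polynomial.isUnit_C]
    exact (IsUnit.mk0 c⁻¹ (inv_ne_zero hc)).map MvPolynomial.C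
  have h2 : Irreducible (C (MvPolynomial.C c⁻¹) * sh a p) :=
    (irreducible_isUnit_mul hu).mpr h1
  have hmon : (C (MvPolynomial.C c⁻¹) * sh a p).Monic := by
    rw [Monic, leadingCoeff_mul, leadingCoeff_C, hlc, ← map_mul, inv_mul_cancel₀ hc, map_one]
  have h3 := (hmon.irreducible_iff_irreducible_map_fraction_map (K := Rf σ K)).mp h2
  rw [Polynomial.map_mul] at h3
  have hu' : IsUnit ((C (MvPolynomial.C c⁻¹) : (MvPolynomial σ K)[X]).map
      (algebraMap (MvPolynomial σ K) (Rf σ K))) :=
    hu.map (mapRingHom (algebraMap (MvPolynomial σ K) (Rf σ K)))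
  exact (irreducible_isUnit_mul hu').mp h3

theorem not_dvd_shP (a : σ → K) {p q : MvPolynomial σ K} (hp : Irreducible p)
    (hq : Irreducible q) (hm : Mon p a) (hm' : Mon q a) (h : ¬ Associated p q) :
    ¬ shP a p ∣ shP a q := by
  intro hdvd
  have h1 : Associated (shP a p) (shP a q) :=
    (irreducible_shP a hp hm).associated_of_dvd (irreducible_shP a hq hm') hdvd
  obtain ⟨c, hc, hlc⟩ := hm
  obtain ⟨c', hc', hlc'⟩ := hm'
  obtain ⟨u, hu⟩ := h1
  obtain ⟨w, hw, hwu⟩ := Polynomial.isUnit_iff.mp u.isUnit
  have hinj := IsFractionRing.injective (MvPolynomial σ K) (Rf σ K)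
  have hlp : (shP a p).leadingCoeff = algebraMap (MvPolynomial σ K) (Rf σ K) (MvPolynomial.C c) := by
    unfold shP
    rw [Polynomial.leadingCoeff_map_of_injective hinj, hlc]
  have hlq : (shP a q).leadingCoeff = algebraMap (MvPolynomial σ K) (Rf σ K) (MvPolynomial.C c') := by
    unfold shP
    rw [Polynomial.leadingCoeff_map_of_injective hinj, hlc']
  have hC0 : algebraMap (MvPolynomial σ K) (Rf σ K) (MvPolynomial.C c) ≠ 0 := by
    intro h0
    have := hinj (h0.trans (map_zero _).symm)
    exact hc (MvPolynomial.C_eq_zero.mp this)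
  have hweq : w = algebraMap (MvPolynomial σ K) (Rf σ K) (MvPolynomial.C (c⁻¹ * c')) := by
    have h2 := congrArg leadingCoeff hu
    rw [leadingCoeff_mul, hlp, hlq, ← hwu, leadingCoeff_C] at h2
    apply mul_left_cancel₀ hC0
    rw [h2, ← map_mul, ← map_mul, mul_inv_cancel_left₀ hc]
  have h3 : sh a q = sh a p * C (MvPolynomial.C (c⁻¹ * c')) := by
    apply Polynomial.map_injective _ hinj
    rw [Polynomial.map_mul, Polynomial.map_C, ← hweq]
    have h4 : shP a q = shP a p * C w := by rw [hwu]; exact hu.symm
    exact h4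
  have h5 := congrArg (eval (0 : MvPolynomial σ K)) h3
  rw [eval_mul, eval_zero_sh, eval_zero_sh, eval_C] at h5
  apply h
  refine ⟨((IsUnit.mk0 (c⁻¹ * c') (mul_ne_zero (inv_ne_zero hc) hc')).map
    (MvPolynomial.C : K →+* MvPolynomial σ K)).unit, ?_⟩
  rw [IsUnit.unit_spec]
  exact h5.symm

/-- joint degree bound for elements of `K[X][t]` -/
def JD (n : ℕ) (U : (MvPolynomial σ K)[X]) : Prop :=
  ∀ i, U.coeff i ≠ 0 → i + (U.coeff i).totalDegree ≤ n

theorem JD.mono {n n' : ℕ} {U : (MvPolynomial σ K)[X]} (h : JD n U) (hn : n ≤ n') : JD n' U :=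
  fun i hi => (h i hi).trans hn

theorem JD.add {n : ℕ} {U V : (MvPolynomial σ K)[X]} (hU : JD n U) (hV : JD n V) :
    JD n (U + V) := by
  intro i hi
  rw [coeff_add] at hi ⊢
  by_cases h1 : U.coeff i = 0
  · rw [h1, zero_add] at hi ⊢
    exact hV i hi
  · by_cases h2 : V.coeff i = 0
    · rw [h2, add_zero] at hi ⊢
      exact hU i hi
    · have h3 := hU i h1
      have h4 := hV i h2
      have h5 := MvPolynomial.totalDegree_add (U.coeff i) (V.coeff i)
      rcases le_total (U.coeff i).totalDegree (V.coeff i).totalDegree with h6 | h6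
      · rw [max_eq_right h6] at h5; omega
      · rw [max_eq_left h6] at h5; omega

theorem JD.zero (n : ℕ) : JD n (0 : (MvPolynomial σ K)[X]) := by
  intro i hi
  exact absurd (coeff_zero i) hi

theorem JD.sum {n : ℕ} {α : Type} (s : Finset α) (U : α → (MvPolynomial σ K)[X])
    (h : ∀ x ∈ s, JD n (U x)) : JD n (∑ x ∈ s, U x) := by
  classical
  induction s using Finset.induction_on with
  | empty => rw [Finset.sum_empty]; exact JD.zero n
  | insert b s hb ih =>
    rw [Finset.sum_insert hb]
    exact (h b (Finset.mem_insert_self _ _)).add (ih fun x hx => h x (Finset.mem_insert_of_mem hx))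

theorem JD.mul {n m : ℕ} {U V : (MvPolynomial σ K)[X]} (hU : JD n U) (hV : JD m V) :
    JD (n + m) (U * V) := by
  intro i hi
  rw [coeff_mul] at hi ⊢
  have h1 : ∀ x ∈ Finset.HasAntidiagonal.antidiagonal i, U.coeff x.1 * V.coeff x.2 ≠ 0 →
      i + (U.coeff x.1 * V.coeff x.2).totalDegree ≤ n + m := by
    intro x hx hne
    have h2 := hU x.1 (left_ne_zero_of_mul hne)
    have h3 := hV x.2 (right_ne_zero_of_mul hne)
    have h4 := MvPolynomial.totalDegree_mul (U.coeff x.1) (V.coeff x.2)
    have h5 := Finset.HasAntidiagonal.mem_antidiagonal.mp hx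
    omega
  -- the total degree of the sum
  obtain ⟨x, hx, hx0⟩ := Finset.exists_ne_zero_of_sum_ne_zero hi
  have h6 := h1 x hx hx0
  have h7 : (∑ x ∈ Finset.HasAntidiagonal.antidiagonal i, U.coeff x.1 * V.coeff x.2).totalDegree ≤ n + m - i := by
    refine MvPolynomial.totalDegree_finsetSum_le ?_
    intro y hy
    by_cases hy0 : U.coeff y.1 * V.coeff y.2 = 0
    · rw [hy0, MvPolynomial.totalDegree_zero]; exact Nat.zero_le _
    · have := h1 y hy hy0
      omega
  omega

theorem JD.pow {n : ℕ} {U : (MvPolynomial σ K)[X]} (hU : JD n U) (k : ℕ) : JD (k * n) (U ^ k) := by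
  induction k with
  | zero =>
    intro i hi
    rw [pow_zero, coeff_one] at hi ⊢
    split_ifs at hi ⊢ with h0
    · subst h0
      simp
    · exact absurd rfl hi
  | succ k ih =>
    rw [pow_succ]
    exact (ih.mul hU).mono (by ring_nf; exact le_rfl)

theorem JD.C (p : MvPolynomial σ K) : JD p.totalDegree (C p) := by
  intro i hi
  rw [coeff_C] at hi ⊢
  split_ifs at hi ⊢ with h0
  · subst h0; simp
  · exact absurd rfl hi

theorem JD.sh_X (a : σ → K) (i : σ) : JD 1 (sh a (MvPolynomial.X i)) := by
  rw [H768.sh_X]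
  refine JD.add ((JD.C _).mono ?_) ?_
  · rw [MvPolynomial.totalDegree_X]
  · intro j hj
    rw [coeff_C_mul, coeff_X] at hj ⊢
    split_ifs at hj ⊢ with h0
    · subst h0; simp
    · simp at hj

theorem JD.prod {α : Type} (s : Finset α) (U : α → (MvPolynomial σ K)[X]) (n : α → ℕ)
    (h : ∀ x ∈ s, JD (n x) (U x)) : JD (∑ x ∈ s, n x) (∏ x ∈ s, U x) := by
  classical
  induction s using Finset.induction_on with
  | empty =>
    rw [Finset.sum_empty, Finset.prod_empty]
    have := JD.C (σ := σ) (K := K) 1
    rw [MvPolynomial.totalDegree_one, map_one] at this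
    exact this
  | insert b s hb ih =>
    rw [Finset.sum_insert hb, Finset.prod_insert hb]
    exact (h b (Finset.mem_insert_self _ _)).mul (ih fun x hx => h x (Finset.mem_insert_of_mem hx))

theorem sh_monomial (a : σ → K) (e : σ →₀ ℕ) (c : K) :
    sh a (MvPolynomial.monomial e c) =
      C (MvPolynomial.C c) * ∏ i ∈ e.support, (sh a (MvPolynomial.X i)) ^ e i := by
  rw [MvPolynomial.monomial_eq, map_mul, sh_C, Finsupp.prod, map_prod]
  congr 1
  exact Finset.prod_congr rfl fun i _ => map_pow _ _ _

theorem JD.sh (a : σ → K) (p : MvPolynomial σ K) : JD p.totalDegree (sh a p) := by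
  conv_rhs => rw [p.as_sum]
  rw [map_sum]
  refine JD.sum _ _ fun e he => ?_
  have h1 : e.degree ≤ p.totalDegree := by
    have := MvPolynomial.le_totalDegree he
    simpa [Finsupp.degree_apply, Finsupp.sum] using this
  refine JD.mono ?_ h1
  rw [sh_monomial, Finsupp.degree_apply]
  have h2 : JD 0 (Polynomial.C (MvPolynomial.C (MvPolynomial.coeff e p) : MvPolynomial σ K)) := by
    have := JD.C (MvPolynomial.C (MvPolynomial.coeff e p) : MvPolynomial σ K)
    rwa [MvPolynomial.totalDegree_C] at this
  have h3 := h2.mul (JD.prod e.support (fun i => (D4.sh a (MvPolynomial.X i)) ^ e i) (fun i => e i)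
    (fun i _ => by
      have := (JD.sh_X a i).pow (e i)
      rwa [mul_one] at this))
  rwa [zero_add] at h3

theorem natDegree_sh_le (a : σ → K) (p : MvPolynomial σ K) :
    (sh a p).natDegree ≤ p.totalDegree := by
  by_cases h0 : sh a p = 0
  · rw [h0, natDegree_zero]; exact Nat.zero_le _
  · have h1 := JD.sh a p (sh a p).natDegree (by
      rw [← leadingCoeff]
      exact leadingCoeff_ne_zero.mpr h0)
    omega

theorem totalDegree_coeff_sh_le (a : σ → K) (p : MvPolynomial σ K) (i : ℕ) :
    ((sh a p).coeff i).totalDegree ≤ p.totalDegree := by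
  by_cases h0 : (sh a p).coeff i = 0
  · rw [h0, MvPolynomial.totalDegree_zero]; exact Nat.zero_le _
  · have h1 := JD.sh a p i h0
    omega

/-- coefficients of `p(t a)` -/
theorem coeff_line (a : σ → K) (p : MvPolynomial σ K) (n : ℕ) :
    ((sh a p).map (MvPolynomial.constantCoeff : MvPolynomial σ K →+* K)).coeff n =
      MvPolynomial.eval a (MvPolynomial.homogeneousComponent n p) := by
  induction p using MvPolynomial.induction_on' with
  | monomial e c =>
    have hX : ∀ i, (sh a (MvPolynomial.X i)).map
        (MvPolynomial.constantCoeff : MvPolynomial σ K →+* K) = Polynomial.C (a i) * X := by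
      intro i
      rw [sh_X, Polynomial.map_add, Polynomial.map_mul, Polynomial.map_C, Polynomial.map_C,
        Polynomial.map_X, MvPolynomial.constantCoeff_X, MvPolynomial.constantCoeff_C, map_zero,
        zero_add]
    have h1 : (sh a (MvPolynomial.monomial e c)).map
        (MvPolynomial.constantCoeff : MvPolynomial σ K →+* K) =
        Polynomial.C (MvPolynomial.eval a (MvPolynomial.monomial e c)) * X ^ e.degree := by
      rw [sh_monomial, Polynomial.map_mul, Polynomial.map_C, MvPolynomial.constantCoeff_C,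
        Polynomial.map_prod, MvPolynomial.eval_monomial, Finsupp.prod, Finsupp.degree_apply, map_mul,
        map_prod, mul_assoc, ← Finset.prod_pow_eq_pow_sum, ← Finset.prod_mul_distrib]
      congr 1
      refine Finset.prod_congr rfl fun i _ => ?_
      rw [Polynomial.map_pow, hX, mul_pow, map_pow]
    have h2 : (MvPolynomial.monomial e c : MvPolynomial σ K) ∈
        MvPolynomial.homogeneousSubmodule σ K e.degree := MvPolynomial.isHomogeneous_monomial c rfl
    rw [h1, coeff_C_mul, coeff_X_pow, MvPolynomial.homogeneousComponent_of_mem h2]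
    split_ifs with h0
    · rw [mul_one]
    · rw [mul_zero, map_zero]
  | add p q hp hq =>
    rw [map_add, Polynomial.map_add, coeff_add, hp, hq, map_add, map_add]

theorem coeff_sh_totalDegree (a : σ → K) (p : MvPolynomial σ K) :
    (sh a p).coeff p.totalDegree =
      MvPolynomial.C (MvPolynomial.eval a (MvPolynomial.homogeneousComponent p.totalDegree p)) := by
  have h1 := coeff_line a p p.totalDegree
  rw [coeff_map] at h1
  rw [← h1]
  by_cases h0 : (sh a p).coeff p.totalDegree = 0
  · rw [h0]; simp
  · have h2 := JD.sh a p _ h0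
    have h3 : ((sh a p).coeff p.totalDegree).totalDegree = 0 := by omega
    rw [MvPolynomial.totalDegree_eq_zero_iff_eq_C] at h3
    rw [h3]
    simp

theorem mon_of_top (a : σ → K) (p : MvPolynomial σ K)
    (h : MvPolynomial.eval a (MvPolynomial.homogeneousComponent p.totalDegree p) ≠ 0) :
    Mon p a := by
  have h1 := coeff_sh_totalDegree a p
  have h2 : (sh a p).coeff p.totalDegree ≠ 0 := by
    rw [h1]
    exact fun h0 => h (MvPolynomial.C_eq_zero.mp h0)
  have h3 : (sh a p).natDegree = p.totalDegree :=
    le_antisymm (natDegree_sh_le a p) (le_natDegree_of_ne_zero h2)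
  exact ⟨_, h, by rw [leadingCoeff, h3, h1]⟩

/-- evaluation of shifts at points of a commutative `K`-algebra -/
theorem eval_map_sh {B : Type} [CommRing B] [Algebra K B] (a : σ → K) (p : MvPolynomial σ K)
    (x : σ → B) (s : B) :
    ((sh a p).map (MvPolynomial.aeval x : MvPolynomial σ K →ₐ[K] B).toRingHom).eval s =
      MvPolynomial.aeval (mv x a s) p := by
  induction p using MvPolynomial.induction_on with
  | C c =>
    rw [sh_C, Polynomial.map_C, eval_C, MvPolynomial.aeval_C]
    exact MvPolynomial.aeval_C x c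
  | add p q hp hq => rw [map_add, Polynomial.map_add, eval_add, hp, hq, map_add]
  | mul_X p i hp =>
    rw [map_mul, Polynomial.map_mul, eval_mul, hp, map_mul, MvPolynomial.aeval_X, sh_X]
    congr 1
    rw [Polynomial.map_add, Polynomial.map_mul, Polynomial.map_C, Polynomial.map_C,
      Polynomial.map_X, eval_add, eval_mul, eval_C, eval_C, eval_X]
    have h1 : (MvPolynomial.aeval x : MvPolynomial σ K →ₐ[K] B).toRingHom (MvPolynomial.X i) = x i :=
      MvPolynomial.aeval_X x i
    have h2 : (MvPolynomial.aeval x : MvPolynomial σ K →ₐ[K] B).toRingHom (MvPolynomial.C (a i)) =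
        algebraMap K B (a i) := MvPolynomial.aeval_C x (a i)
    rw [h1, h2]
    rfl

end E

end H768

export H768 (shF_pD shF_pD_self shF_algebraMap_K irreducible_sh irreducible_shP not_dvd_shP
  natDegree_sh_le totalDegree_coeff_sh_le coeff_sh_totalDegree mon_of_top eval_map_sh)

end Pool.Agent.H531R2.D4
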