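import Pool.Agent.H531R2.D4.TE

/-! Formalised by helper152. -/

set_option autoImplicit false

namespace Pool.Agent.H531R2.D4

open Polynomial

variable {K : Type} [Field K] {σ : Type}

theorem totalDegree_det_le {k : ℕ} (M : Matrix (Fin k) (Fin k) (MvPolynomial σ K)) {d : ℕ}
    (h : ∀ i j, (M i j).totalDegree ≤ d) : M.det.totalDegree ≤ k * d := by
  rw [Matrix.det_apply']
  refine (MvPolynomial.totalDegree_finsetSum _ _).trans (Finset.sup_le fun τ _ => ?_)
  refine (MvPolynomial.totalDegree_mul _ _).trans ?_
  have h1 : ((Equiv.Perm.sign τ : ℤ) : MvPolynomial σ K).totalDegree = 0 := by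
    rcases Int.units_eq_one_or (Equiv.Perm.sign τ) with h | h <;> rw [h] <;> simp
  rw [h1, zero_add]
  refine (MvPolynomial.totalDegree_finsetProd _ _).trans ?_
  refine (Finset.sum_le_sum fun i _ => h _ _).trans ?_
  simp

theorem totalDegree_sylvester_le (f g : (MvPolynomial σ K)[X]) (m n : ℕ) {d : ℕ}
    (hf : ∀ i, (f.coeff i).totalDegree ≤ d) (hg : ∀ i, (g.coeff i).totalDegree ≤ d)
    (i j : Fin (m + n)) : (sylvester f g m n i j).totalDegree ≤ d := by
  induction j using Fin.addCases with
  | left j => 
    simp only [sylvester, Matrix.of_apply, Fin.addCases_left]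
    split_ifs
    · exact hg _
    · simp
  | right j =>
    simp only [sylvester, Matrix.of_apply, Fin.addCases_right]
    split_ifs
    · exact hf _
    · simp

theorem totalDegree_adj_le {k : ℕ} (M : Matrix (Fin k) (Fin k) (MvPolynomial σ K)) {d : ℕ}
    (h : ∀ i j, (M i j).totalDegree ≤ d) (i j : Fin k) : (M.adjugate i j).totalDegree ≤ k * d := by
  rw [Matrix.adjugate_apply]
  apply totalDegree_det_le
  intro a b
  by_cases hab : a = j
  · subst hab
    rw [Matrix.updateRow_self]
    by_cases hb : b = i
    · subst hb; simp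
    · rw [Pi.single_eq_of_ne hb]; simp
  · rw [Matrix.updateRow_ne hab]
    exact h a b

theorem totalDegree_Nn_le (a : σ → K) (p q : MvPolynomial σ K) {d : ℕ} (hp : p.totalDegree ≤ d)
    (hq : q.totalDegree ≤ d) : (Nn a p q).totalDegree ≤ 2 * d * d := by
  unfold Nn resultant
  have h := totalDegree_det_le (d := d) (sylvester (sh a p) (sh a q) (sh a p).natDegree
    (sh a q).natDegree) (totalDegree_sylvester_le _ _ _ _
      (fun i => (totalDegree_coeff_sh_le a p i).trans hp)
      (fun i => (totalDegree_coeff_sh_le a q i).trans hq))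
  refine h.trans (Nat.mul_le_mul_right d ?_)
  have h1 := (natDegree_sh_le a p).trans hp
  have h2 := (natDegree_sh_le a q).trans hq
  omega

theorem exists_bezout (a : σ → K) (p q : MvPolynomial σ K) {d : ℕ} (hp : p.totalDegree ≤ d)
    (hq : q.totalDegree ≤ d) (h0 : (sh a p).natDegree ≠ 0 ∨ (sh a q).natDegree ≠ 0) :
    ∃ U W : (MvPolynomial σ K)[X], U * sh a p + W * sh a q = C (Nn a p q) ∧
      W.natDegree ≤ 2 * d ∧ ∀ i, (W.coeff i).totalDegree ≤ 2 * d * d := by
  set f := sh a p with hf
  set g := sh a q with hg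
  set m := f.natDegree with hm
  set n := g.natDegree with hn
  have hmd : m ≤ d := (natDegree_sh_le a p).trans hp
  have hnd : n ≤ d := (natDegree_sh_le a q).trans hq
  have hmn : 0 < m + n := by omega
  let v : degreeLT (MvPolynomial σ K) (m + n) := ⟨1, by
    rw [Polynomial.mem_degreeLT]
    refine lt_of_le_of_lt degree_one_le ?_
    exact_mod_cast hmn⟩
  let X := adjSylvester f g (m := m) (n := n) v
  have key : ((sylvesterMap f g le_rfl le_rfl X)).1 = C (f.resultant g m n) := by
    have := congr(($(sylveserMap_comp_adjSylvester f g (le_refl m) (le_refl n)) v).1)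
    simpa [Algebra.smul_def, v] using this
  refine ⟨X.2.1, X.1.1, ?_, ?_, ?_⟩
  · rw [mul_comm, mul_comm X.1.1]
    exact key
  · have h1 : X.1.1.degree < (m : ℕ) := by simpa [-SetLike.coe_mem, mem_degreeLT] using X.1.2
    have h2 : X.1.1.natDegree ≤ m := natDegree_le_of_degree_le h1.le
    omega
  · intro i
    by_cases hi : i < m
    · have hcoef : X.1.1.coeff i = (sylvester f g m n).adjugate (Fin.castAdd n ⟨i, hi⟩) ⟨0, hmn⟩ := by
        set b1 := ((degreeLT.basis (MvPolynomial σ K) m).prod
          (degreeLT.basis (MvPolynomial σ K) n)).reindex finSumFinEquiv with hb1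
        have e1 : X.1.1.coeff i = b1.repr X (Fin.castAdd n ⟨i, hi⟩) := by
          rw [hb1, Module.Basis.repr_reindex_apply, finSumFinEquiv_symm_apply_castAdd,
            Module.Basis.prod_repr_inl, degreeLT.basis_repr]
        have e2 : b1.repr X = ((sylvester f g m n).adjugate).mulVec
            ((degreeLT.basis (MvPolynomial σ K) (m + n)).repr v) := by
          have := LinearMap.toMatrix_mulVec_repr (degreeLT.basis (MvPolynomial σ K) (m + n)) b1
            (adjSylvester f g (m := m) (n := n)) v
          have e3 : LinearMap.toMatrix (degreeLT.basis (MvPolynomial σ K) (m + n)) b1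
              (adjSylvester f g (m := m) (n := n)) = (sylvester f g m n).adjugate := by
            unfold adjSylvester
            exact LinearMap.toMatrix_toLin _ _ _
          rw [e3] at this
          exact this.symm
        rw [e1, e2, Matrix.mulVec, dotProduct]
        rw [Finset.sum_eq_single (⟨0, hmn⟩ : Fin (m + n))]
        · rw [degreeLT.basis_repr]
          simp [v]
        · intro b _ hb
          rw [degreeLT.basis_repr]
          have : (b : ℕ) ≠ 0 := fun h => hb (Fin.ext h)
          simp [v, coeff_one, this]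
        · intro h; exact absurd (Finset.mem_univ _) h
      rw [hcoef]
      have := totalDegree_adj_le (sylvester f g m n) (totalDegree_sylvester_le f g m n
        (fun i => (totalDegree_coeff_sh_le a p i).trans hp)
        (fun i => (totalDegree_coeff_sh_le a q i).trans hq)) (Fin.castAdd n ⟨i, hi⟩) ⟨0, hmn⟩
      refine this.trans (Nat.mul_le_mul_right d ?_)
      omega
    · have h1 : X.1.1.degree < (m : ℕ) := by simpa [-SetLike.coe_mem, mem_degreeLT] using X.1.2
      rw [coeff_eq_zero_of_degree_lt (h1.trans_le (by exact_mod_cast not_lt.1 hi))]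
      simp

theorem Nn_ne_zero (a : σ → K) {p q : MvPolynomial σ K} (hp : Irreducible p)
    (hq : Irreducible q) (hm : Mon p a) (hm' : Mon q a) (h : ¬ Associated p q) :
    Nn a p q ≠ 0 := by
  intro h0
  have hinj := IsFractionRing.injective (MvPolynomial σ K) (Rf σ K)
  have h1 : resultant (shP a p) (shP a q) = 0 := by
    have h2 := resultant_map_map (sh a p) (sh a q) (sh a p).natDegree (sh a q).natDegree
      (algebraMap (MvPolynomial σ K) (Rf σ K))
    have h3 : (shP a p).natDegree = (sh a p).natDegree := natDegree_map_eq_of_injective hinj _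
    have h4 : (shP a q).natDegree = (sh a q).natDegree := natDegree_map_eq_of_injective hinj _
    rw [h3, h4]
    unfold shP
    rw [h2]
    unfold Nn at h0
    rw [h0, map_zero]
  rw [resultant_eq_zero_iff] at h1
  exact h1.2 (((irreducible_shP a hp hm).coprime_iff_not_dvd).2 (not_dvd_shP a hp hq hm hm' h))

theorem natDegree_map_of_Mon {B : Type} [Field B] (a : σ → K) {p : MvPolynomial σ K}
    (hm : Mon p a) (φ : MvPolynomial σ K →+* B) :
    ((sh a p).map φ).natDegree = (sh a p).natDegree ∧ (sh a p).map φ ≠ 0 := by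
  obtain ⟨c, hc, h⟩ := hm
  have h1 : φ (sh a p).leadingCoeff ≠ 0 := by
    rw [h]
    intro h2
    have h3 : φ (MvPolynomial.C c * MvPolynomial.C c⁻¹) = 1 := by
      rw [← map_mul, mul_inv_cancel₀ hc, map_one, map_one]
    rw [map_mul, h2, zero_mul] at h3
    exact zero_ne_one h3
  refine ⟨natDegree_map_of_leadingCoeff_ne_zero _ h1, ?_⟩
  intro h2
  have h3 := leadingCoeff_map_of_leadingCoeff_ne_zero φ h1
  rw [h2, leadingCoeff_zero] at h3
  exact h1 h3.symm

theorem map_Nn {B : Type} [Field B] (a : σ → K) {p q : MvPolynomial σ K}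
    (hm : Mon p a) (hm' : Mon q a) (φ : MvPolynomial σ K →+* B) :
    resultant ((sh a p).map φ) ((sh a q).map φ) = φ (Nn a p q) := by
  rw [(natDegree_map_of_Mon a hm φ).1, (natDegree_map_of_Mon a hm' φ).1, resultant_map_map]
  rfl

theorem isCoprime_of_Nn {B : Type} [Field B] [Algebra K B] (a : σ → K)
    {p q : MvPolynomial σ K} (hm : Mon p a) (hm' : Mon q a) (x : σ → B)
    (h : MvPolynomial.aeval x (Nn a p q) ≠ 0) :
    IsCoprime ((sh a p).map (MvPolynomial.aeval x : MvPolynomial σ K →ₐ[K] B).toRingHom)
      ((sh a q).map (MvPolynomial.aeval x : MvPolynomial σ K →ₐ[K] B).toRingHom) := by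
  have h1 := map_Nn a hm hm' (MvPolynomial.aeval x : MvPolynomial σ K →ₐ[K] B).toRingHom
  have h2 := mt resultant_eq_zero_iff.2 (h1 ▸ h)
  by_contra h3
  exact h2 ⟨Or.inl (natDegree_map_of_Mon a hm _).2, h3⟩

theorem Nn_eq_zero_iff {E : Type} [Field E] [IsAlgClosed E] [Algebra K E] (a : σ → K)
    {p q : MvPolynomial σ K} (hm : Mon p a) (hm' : Mon q a) (_hd : (sh a p).natDegree ≠ 0)
    (x : σ → E) :
    MvPolynomial.aeval x (Nn a p q) = 0 ↔
      ∃ s : E, MvPolynomial.aeval (mv x a s) p = 0 ∧ MvPolynomial.aeval (mv x a s) q = 0 := by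
  have h1 := map_Nn a hm hm' (MvPolynomial.aeval x : MvPolynomial σ K →ₐ[K] E).toRingHom
  have h2 : MvPolynomial.aeval x (Nn a p q) = 0 ↔
      ¬ IsCoprime ((sh a p).map (MvPolynomial.aeval x : MvPolynomial σ K →ₐ[K] E).toRingHom)
      ((sh a q).map (MvPolynomial.aeval x : MvPolynomial σ K →ₐ[K] E).toRingHom) := by
    rw [show MvPolynomial.aeval x (Nn a p q) =
      (MvPolynomial.aeval x : MvPolynomial σ K →ₐ[K] E).toRingHom (Nn a p q) from rfl, ← h1,
      resultant_eq_zero_iff]
    exact ⟨fun h => h.2, fun h => ⟨Or.inl (natDegree_map_of_Mon a hm _).2, h⟩⟩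
  rw [h2]
  simp_rw [← eval_map_sh a _ x]
  set f := (sh a p).map (MvPolynomial.aeval x : MvPolynomial σ K →ₐ[K] E).toRingHom with hf
  set g := (sh a q).map (MvPolynomial.aeval x : MvPolynomial σ K →ₐ[K] E).toRingHom with hg
  have hf0 : f ≠ 0 := (natDegree_map_of_Mon a hm _).2
  constructor
  · intro h
    classical
    have h3 : ¬ IsUnit (gcd f g) := by
      rwa [gcd_isUnit_iff]
    have h4 : gcd f g ≠ 0 := by
      intro h5
      rw [gcd_eq_zero_iff] at h5
      exact hf0 h5.1
    have h5 : (gcd f g).degree ≠ 0 := fun h6 => h3 (isUnit_iff_degree_eq_zero.2 h6)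
    obtain ⟨s, hs⟩ := IsAlgClosed.exists_root (gcd f g) h5
    refine ⟨s, ?_, ?_⟩
    · exact (hs.dvd (gcd_dvd_left f g))
    · exact (hs.dvd (gcd_dvd_right f g))
  · rintro ⟨s, hs1, hs2⟩ ⟨u, w, huw⟩
    have := congrArg (eval s) huw
    rw [eval_add, eval_mul, eval_mul, hs1, hs2] at this
    simp at this

theorem totalDegree_coeff_mul {U V : (MvPolynomial σ K)[X]} {d e : ℕ}
    (hU : ∀ i, (U.coeff i).totalDegree ≤ d) (hV : ∀ i, (V.coeff i).totalDegree ≤ e) (i : ℕ) :
    ((U * V).coeff i).totalDegree ≤ d + e := by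
  rw [coeff_mul]
  refine (MvPolynomial.totalDegree_finsetSum _ _).trans (Finset.sup_le fun x _ => ?_)
  exact (MvPolynomial.totalDegree_mul _ _).trans (add_le_add (hU _) (hV _))

theorem totalDegree_coeff_modByMonic {P U : (MvPolynomial σ K)[X]} (hP : P.Monic) {d e : ℕ}
    (hPd : ∀ i, (P.coeff i).totalDegree ≤ d) (hUe : ∀ i, (U.coeff i).totalDegree ≤ e) (i : ℕ) :
    ((U %ₘ P).coeff i).totalDegree ≤ e + U.natDegree * d := by
  induction hn : U.natDegree using Nat.strong_induction_on generalizing U e with
  | _ n ih =>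
    by_cases hlt : U.degree < P.degree
    · rw [(modByMonic_eq_self_iff hP).2 hlt]
      exact (hUe i).trans (Nat.le_add_right _ _)
    · have hU0 : U ≠ 0 := by
        rintro rfl
        apply hlt
        rw [degree_zero]
        exact bot_lt_iff_ne_bot.2 (degree_ne_bot.2 hP.ne_zero)
      have hle : P.natDegree ≤ U.natDegree := natDegree_le_natDegree (not_lt.1 hlt)
      by_cases hn0 : n = 0
      · have h1 : P = 1 := eq_one_of_monic_natDegree_zero hP (by omega)
        rw [h1, modByMonic_one]
        simp
      · set U1 := U - C U.leadingCoeff * X ^ (U.natDegree - P.natDegree) * P with hU1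
        have hmod : U %ₘ P = U1 %ₘ P := by
          rw [hU1, sub_modByMonic]
          rw [(modByMonic_eq_zero_iff_dvd hP).2 (dvd_mul_left _ _), sub_zero]
        have hdeg : U1.natDegree < n := by
          have h1 : U1.degree < U.degree := by
            have := div_wf_lemma ⟨not_lt.1 hlt, hU0⟩ hP
            rwa [mul_comm P] at this
          by_cases hz : U1 = 0
          · rw [hz, natDegree_zero]
            omega
          · have := natDegree_lt_natDegree hz h1
            omega
        have hcoef : ∀ i, (U1.coeff i).totalDegree ≤ e + d := by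
          intro i
          rw [hU1, coeff_sub]
          refine (MvPolynomial.totalDegree_sub _ _).trans (max_le ((hUe i).trans (Nat.le_add_right _ _)) ?_)
          rw [mul_assoc, coeff_C_mul]
          refine (MvPolynomial.totalDegree_mul _ _).trans (add_le_add (hUe _) ?_)
          rw [coeff_X_pow_mul']
          split_ifs
          · exact hPd _
          · simp
        rw [hmod]
        refine (ih _ hdeg hcoef rfl).trans ?_
        have : U1.natDegree + 1 ≤ n := hdeg
        nlinarith

end Pool.Agent.H531R2.D4
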