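import Pool.Agent.H531R2.D4.TF

/-! Formalised by helper497. -/

/-!
# Task G1 of the depth-4 PIT project: the one-point property holds for almost all directions
-/

set_option autoImplicit false

namespace Pool.Agent.H531R2.D4

open Polynomial

section G1
variable {K : Type} [Field K] [CharZero K] {σ : Type} [Finite σ]

omit [CharZero K] in
theorem G1_alg {x y m z : K} (h : x - y ≠ 0) : (z + m * x - (z + m * y)) / (x - y) = m := by
  field_simp
  ring

omit [CharZero K] [Finite σ] in
theorem G1_natDegree_ne {p : MvPolynomial σ K} (hp : Irreducible p) {a : σ → K} (hm : Mon p a) :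
    (sh a p).natDegree ≠ 0 := by
  intro h0
  obtain ⟨c, hc, hl⟩ := hm
  have h1 : sh a p = C (MvPolynomial.C c) := by
    rw [← hl, Polynomial.leadingCoeff, h0]
    exact Polynomial.eq_C_of_natDegree_eq_zero h0
  have h2 := eval_zero_sh a p
  rw [h1, eval_C] at h2
  apply hp.not_isUnit
  rw [← h2]
  exact (isUnit_iff_ne_zero.2 hc).map MvPolynomial.C

/-- the points `(s, τ)` with `p = q = 0` at `X + τ b + s a` -/
def G1_Z (a b : σ → K) (p q : MvPolynomial σ K) :
    Set (AlgebraicClosure (Rf σ K) × AlgebraicClosure (Rf σ K)) :=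
  {z | MvPolynomial.aeval (mv (mv (fun i => algebraMap (MvPolynomial σ K)
      (AlgebraicClosure (Rf σ K)) (MvPolynomial.X i)) b z.2) a z.1) p = 0 ∧
    MvPolynomial.aeval (mv (mv (fun i => algebraMap (MvPolynomial σ K)
      (AlgebraicClosure (Rf σ K)) (MvPolynomial.X i)) b z.2) a z.1) q = 0}

omit [CharZero K] [Finite σ] in
theorem G1_aeval_X (p : MvPolynomial σ K) :
    MvPolynomial.aeval (fun i => algebraMap (MvPolynomial σ K)
      (AlgebraicClosure (Rf σ K)) (MvPolynomial.X i)) p = algebraMap (MvPolynomial σ K)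
      (AlgebraicClosure (Rf σ K)) p := by
  have h : (MvPolynomial.aeval (fun i => algebraMap (MvPolynomial σ K)
      (AlgebraicClosure (Rf σ K)) (MvPolynomial.X i)) : MvPolynomial σ K →ₐ[K] _) =
      IsScalarTower.toAlgHom K (MvPolynomial σ K) (AlgebraicClosure (Rf σ K)) := by
    apply MvPolynomial.algHom_ext
    intro i
    rw [MvPolynomial.aeval_X]
    rfl
  rw [h]
  rfl

omit [CharZero K] [Finite σ] in
theorem G1_Z_finite (a b : σ → K) {p q : MvPolynomial σ K} (hp : Irreducible p)
    (hq : Irreducible q) (hm : Mon p a) (hm' : Mon q a) (h : ¬ Associated p q) :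
    (G1_Z a b p q).Finite := by
  classical
  set E := AlgebraicClosure (Rf σ K) with hE
  set x : σ → E := fun i => algebraMap (MvPolynomial σ K) E (MvPolynomial.X i) with hx
  have hinj : Function.Injective (algebraMap (MvPolynomial σ K) E) := by
    rw [IsScalarTower.algebraMap_eq (MvPolynomial σ K) (Rf σ K) E]
    exact (algebraMap (Rf σ K) E).injective.comp
      (IsFractionRing.injective (MvPolynomial σ K) (Rf σ K))
  have hxinj : Function.Injective (MvPolynomial.aeval x : MvPolynomial σ K →ₐ[K] E).toRingHom := by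
    intro u v huv
    have h1 : MvPolynomial.aeval x u = MvPolynomial.aeval x v := huv
    rw [hx, G1_aeval_X, G1_aeval_X] at h1
    exact hinj h1
  -- the polynomial in `τ`
  set N := Nn a p q with hN
  have hN0 : N ≠ 0 := Nn_ne_zero a hp hq hm hm' h
  set GT : E[X] := (sh b N).map (MvPolynomial.aeval x : MvPolynomial σ K →ₐ[K] E).toRingHom with hGT
  have hGT0 : GT ≠ 0 := by
    intro h0
    apply hN0
    apply sh_injective b
    rw [map_zero]
    exact (Polynomial.map_eq_zero_iff hxinj).1 h0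
  -- the polynomial in `s`
  set GS : E → E[X] := fun τ => (sh a p).map
    (MvPolynomial.aeval (mv x b τ) : MvPolynomial σ K →ₐ[K] E).toRingHom with hGS
  have hGS0 : ∀ τ, GS τ ≠ 0 := by
    intro τ h0
    obtain ⟨c, hc, hl⟩ := hm
    have h1 := congrArg (fun f => Polynomial.coeff f (sh a p).natDegree) h0
    simp only [hGS, Polynomial.coeff_map, Polynomial.coeff_zero] at h1
    rw [Polynomial.coeff_natDegree, hl] at h1
    have h2 : MvPolynomial.aeval (mv x b τ) (MvPolynomial.C c : MvPolynomial σ K) = 0 := h1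
    rw [MvPolynomial.aeval_C, map_eq_zero] at h2
    exact hc h2
  have hfin : ((GT.rootSet E) ).Finite := Polynomial.rootSet_finite _ _
  have hsub : G1_Z a b p q ⊆ ⋃ τ ∈ GT.roots.toFinset, ((GS τ).roots.toFinset : Set E) ×ˢ {τ} := by
    rintro ⟨s, τ⟩ ⟨h1, h2⟩
    dsimp only at h1 h2
    rw [Set.mem_iUnion₂]
    refine ⟨τ, ?_, ?_⟩
    · rw [Multiset.mem_toFinset, Polynomial.mem_roots hGT0, Polynomial.IsRoot.def, hGT,
        eval_map_sh]
      exact (Nn_eq_zero_iff a hm hm' (G1_natDegree_ne hp hm) _).2 ⟨s, h1, h2⟩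
    · refine ⟨?_, rfl⟩
      rw [Finset.mem_coe, Multiset.mem_toFinset, Polynomial.mem_roots (hGS0 τ),
        Polynomial.IsRoot.def, hGS, eval_map_sh]
      exact h1
  refine Set.Finite.subset ?_ hsub
  apply Set.Finite.biUnion (Finset.finite_toSet _)
  intro τ _
  exact (Finset.finite_toSet _).prod (Set.finite_singleton τ)

/-- for all but finitely many `μ` the pair of directions `(a + μ b, b)` has the one-point
property -/
theorem finite_not_OneP (𝒬 : Finset (MvPolynomial σ K)) (hirr : ∀ p ∈ 𝒬, Irreducible p)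
    (hass : ∀ p ∈ 𝒬, ∀ q ∈ 𝒬, Associated p q → p = q) (a b : σ → K) (hm : ∀ p ∈ 𝒬, Mon p a) :
    {μ : K | ¬ OneP 𝒬 (a + μ • b) b}.Finite := by
  classical
  set E := AlgebraicClosure (Rf σ K) with hE
  set Z : Set (E × E) := ⋃ p ∈ 𝒬, ⋃ q ∈ 𝒬.filter (fun q => q ≠ p), G1_Z a b p q with hZ
  have hZfin : Z.Finite := by
    apply Set.Finite.biUnion (Finset.finite_toSet _)
    intro p hp
    apply Set.Finite.biUnion (Finset.finite_toSet _)
    intro q hq
    rw [Finset.mem_coe, Finset.mem_filter] at hq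
    exact G1_Z_finite a b (hirr p hp) (hirr q hq.1) (hm p hp) (hm q hq.1)
      (fun h => hq.2 (hass p hp q hq.1 h).symm)
  set T : Set E := (fun w : (E × E) × (E × E) => (w.1.2 - w.2.2) / (w.1.1 - w.2.1)) '' (Z ×ˢ Z)
    with hT
  have hTfin : T.Finite := (hZfin.prod hZfin).image _
  refine Set.Finite.subset (hTfin.preimage (f := algebraMap K E)
    ((algebraMap K E).injective.injOn)) ?_
  intro μ hμ
  by_contra hnot
  apply hμ
  intro p q q' hp hq hq' hqp hqp' α ζ ζ' x h1 h2 h3 h4
  by_contra hne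
  apply hnot
  have hmv : ∀ s : E, mv (mv (fun i => algebraMap (MvPolynomial σ K) E (MvPolynomial.X i)) b α)
      (a + μ • b) s = mv (mv (fun i => algebraMap (MvPolynomial σ K) E (MvPolynomial.X i)) b
        (α + algebraMap K E μ * s)) a s := by
    intro s
    funext i
    simp only [mv, Pi.add_apply, Pi.smul_apply, smul_eq_mul, map_add, map_mul]
    ring
  rw [show x = mv (fun i => algebraMap (MvPolynomial σ K) E (MvPolynomial.X i)) b α from rfl,
    hmv] at h1 h2 h3 h4
  rw [Set.mem_preimage, hT]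
  refine ⟨((ζ, α + algebraMap K E μ * ζ), (ζ', α + algebraMap K E μ * ζ')), ⟨?_, ?_⟩, ?_⟩
  · rw [hZ, Set.mem_iUnion₂]
    refine ⟨p, hp, ?_⟩
    rw [Set.mem_iUnion₂]
    exact ⟨q, Finset.mem_filter.2 ⟨hq, hqp⟩, h1, h2⟩
  · rw [hZ, Set.mem_iUnion₂]
    refine ⟨p, hp, ?_⟩
    rw [Set.mem_iUnion₂]
    exact ⟨q', Finset.mem_filter.2 ⟨hq', hqp'⟩, h3, h4⟩
  · dsimp only
    exact G1_alg (sub_ne_zero.2 hne)

end G1

end Pool.Agent.H531R2.D4
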