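import Pool.Agent.H531R2.D4.TF

/-! Formalised by helper125. -/

/-!
# Depth-4 PIT (project of helper531), task G2: irreducible factors of eliminants are not constant
-/

set_option autoImplicit false

namespace Pool.Agent.H531R2.D4

open Polynomial

variable {K : Type} [Field K] {σ : Type}

/-- the polynomial `s ↦ p (x + s a)` is nonzero -/
theorem map_sh_ne_zero_of_Mon {B : Type} [Field B] [Algebra K B] {a : σ → K}
    {p : MvPolynomial σ K} (hm : Mon p a) (x : σ → B) :
    (sh a p).map (MvPolynomial.aeval x : MvPolynomial σ K →ₐ[K] B).toRingHom ≠ 0 := by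
  obtain ⟨c, hc, hlc⟩ := hm
  intro h
  have h1 := congrArg (fun f => f.coeff (sh a p).natDegree) h
  simp only [coeff_map, coeff_zero] at h1
  rw [coeff_natDegree, hlc] at h1
  have h2 : (MvPolynomial.aeval x : MvPolynomial σ K →ₐ[K] B).toRingHom (MvPolynomial.C c) =
      algebraMap K B c := by
    simp
  rw [h2] at h1
  exact hc ((map_eq_zero (algebraMap K B)).1 h1)

/-- an irreducible polynomial with constant leading coefficient in the direction `a` is not
constant in the direction `a` -/
theorem G2_natDegree_sh_ne_zero {a : σ → K} {p : MvPolynomial σ K} (hp : Irreducible p)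
    (hm : Mon p a) : (sh a p).natDegree ≠ 0 := by
  intro h
  obtain ⟨c, hc, hlc⟩ := hm
  have h2 : (sh a p).coeff 0 = p := by
    rw [coeff_zero_eq_eval_zero, eval_zero_sh]
  have h3 : p = MvPolynomial.C c := by
    rw [← hlc, leadingCoeff, h, h2]
  apply hp.not_isUnit
  rw [h3]
  exact (IsUnit.mk0 c hc).map MvPolynomial.C

theorem mv_mv {B : Type} [CommRing B] [Algebra K B] (x : σ → B) (a b : σ → K) (μ : K) (τ s : B) :
    mv (mv x b τ) (a + μ • b) s = mv (mv x b (τ + algebraMap K B μ * s)) a s := by
  funext i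
  simp only [mv, Pi.add_apply, Pi.smul_apply, smul_eq_mul, map_add, map_mul]
  ring

/-- irreducible factors of the eliminant in the direction `a + μ b` are not constant in the
direction `b` -/
theorem nonconst [CharZero K] (a b : σ → K) (μ : K) {p q : MvPolynomial σ K} (hp : Irreducible p)
    (_hq : Irreducible q) (hm : Mon p a) (hm' : Mon q a) (hμ : Mon p (a + μ • b))
    (hμ' : Mon q (a + μ • b)) (hN : Mon (Nn a p q) b) {g : MvPolynomial σ K}
    (hg : Irreducible g) (hdvd : g ∣ Nn (a + μ • b) p q) : (sh b g).natDegree ≠ 0 := by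
  classical
  intro h0
  -- the shift of `g` is constant
  have hgC : sh b g = C g := by
    have h1 : sh b g = C ((sh b g).coeff 0) := eq_C_of_natDegree_eq_zero h0
    have h2 : (sh b g).coeff 0 = g := by
      rw [coeff_zero_eq_eval_zero, eval_zero_sh]
    rw [h2] at h1
    exact h1
  -- generic point of `g = 0`
  let J : Ideal (MvPolynomial σ K) := Ideal.span {g}
  have hJ : J.IsPrime := (Ideal.span_singleton_prime hg.ne_zero).2 hg.prime
  let κ := AlgebraicClosure (FractionRing (MvPolynomial σ K ⧸ J))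
  let x : σ → κ := fun i => algebraMap (FractionRing (MvPolynomial σ K ⧸ J)) κ
    (algebraMap (MvPolynomial σ K ⧸ J) _ (Ideal.Quotient.mk J (MvPolynomial.X i)))
  have hx : ∀ h : MvPolynomial σ K, MvPolynomial.aeval x h =
      algebraMap (FractionRing (MvPolynomial σ K ⧸ J)) κ
        (algebraMap (MvPolynomial σ K ⧸ J) _ (Ideal.Quotient.mk J h)) := by
    intro h
    have hh : (MvPolynomial.aeval x : MvPolynomial σ K →ₐ[K] κ) =
        (IsScalarTower.toAlgHom K (FractionRing (MvPolynomial σ K ⧸ J)) κ).comp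
          ((IsScalarTower.toAlgHom K (MvPolynomial σ K ⧸ J)
            (FractionRing (MvPolynomial σ K ⧸ J))).comp (Ideal.Quotient.mkₐ K J)) := by
      apply MvPolynomial.algHom_ext
      intro i
      rw [MvPolynomial.aeval_X]
      rfl
    rw [hh]
    rfl
  have hxg : MvPolynomial.aeval x g = 0 := by
    rw [hx, Ideal.Quotient.eq_zero_iff_mem.2 (Ideal.mem_span_singleton_self g), map_zero, map_zero]
  -- the finite set of roots
  let R : κ[X] := (sh b (Nn a p q)).map
    (MvPolynomial.aeval x : MvPolynomial σ K →ₐ[K] κ).toRingHom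
  have hR : R ≠ 0 := map_sh_ne_zero_of_Mon hN x
  let S : κ → κ[X] := fun τ => (sh a p).map
    (MvPolynomial.aeval (mv x b τ) : MvPolynomial σ K →ₐ[K] κ).toRingHom
  have hS : ∀ τ, S τ ≠ 0 := fun τ => map_sh_ne_zero_of_Mon hm (mv x b τ)
  let Z : Finset κ := R.roots.toFinset.biUnion fun τ' =>
    (S τ').roots.toFinset.image fun s => τ' - algebraMap K κ μ * s
  have hZ : ∀ τ : κ, τ ∈ Z := by
    intro τ
    have h1 : MvPolynomial.aeval (mv x b τ) g = 0 := by
      rw [← eval_map_sh b g x τ, hgC, map_C, eval_C]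
      exact hxg
    have h2 : MvPolynomial.aeval (mv x b τ) (Nn (a + μ • b) p q) = 0 := by
      obtain ⟨w, hw⟩ := hdvd
      rw [hw, map_mul, h1, zero_mul]
    obtain ⟨s, hs, hs'⟩ := (Nn_eq_zero_iff (a + μ • b) hμ hμ' (G2_natDegree_sh_ne_zero hp hμ)
      (mv x b τ)).1 h2
    rw [mv_mv] at hs hs'
    have h3 : MvPolynomial.aeval (mv x b (τ + algebraMap K κ μ * s)) (Nn a p q) = 0 :=
      (Nn_eq_zero_iff a hm hm' (G2_natDegree_sh_ne_zero hp hm) _).2 ⟨s, hs, hs'⟩
    rw [← eval_map_sh b (Nn a p q) x] at h3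
    rw [← eval_map_sh a p] at hs
    refine Finset.mem_biUnion.2 ⟨τ + algebraMap K κ μ * s, ?_, ?_⟩
    · rw [Multiset.mem_toFinset, mem_roots hR]
      exact h3
    · refine Finset.mem_image.2 ⟨s, ?_, by ring⟩
      rw [Multiset.mem_toFinset, mem_roots (hS _)]
      exact hs
  have hinf : Infinite κ := by
    have : CharZero κ := charZero_of_injective_algebraMap (algebraMap K κ).injective
    infer_instance
  exact Set.infinite_univ (Z.finite_toSet.subset fun τ _ => hZ τ)

end Pool.Agent.H531R2.D4
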