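import Pool.Agent.H531R2.D4.TE

/-! Formalised by helper51. -/

/-!
# Task G3: a fraction which is a polynomial along a direction
-/

set_option autoImplicit false

namespace Pool.Agent.H531R2.D4

open Polynomial

theorem G3_dvd {K : Type} [Field K] {σ : Type} (b : σ → K) {g U : MvPolynomial σ K}
    (hirr : Irreducible g) (hd : (sh b g).natDegree ≠ 0) {H : (Rf σ K)[X]}
    (h : shP b g * H = shP b U) : g ∣ U := by
  classical
  have hp : Prime (sh b g) := (irreducible_sh b hirr).prime
  obtain ⟨d, hd0, hdH⟩ := IsLocalization.integerNormalization_spec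
    (nonZeroDivisors (MvPolynomial σ K)) H
  set H' := IsLocalization.integerNormalization (nonZeroDivisors (MvPolynomial σ K)) H with hH'
  have h1 : sh b g * H' = C d * sh b U := by
    apply Polynomial.map_injective _ (IsFractionRing.injective (MvPolynomial σ K) (Rf σ K))
    rw [Polynomial.map_mul, Polynomial.map_mul, Polynomial.map_C, hdH]
    have h2 : shP b U = (sh b U).map (algebraMap (MvPolynomial σ K) (Rf σ K)) := rfl
    have h3 : shP b g = (sh b g).map (algebraMap (MvPolynomial σ K) (Rf σ K)) := rfl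
    rw [← h2, ← h3, ← h, mul_left_comm]
    congr 1
    rw [← algebraMap_smul (Rf σ K) d H, Polynomial.smul_eq_C_mul]
  have h4 : sh b g ∣ C d * sh b U := ⟨H', h1.symm⟩
  rcases hp.dvd_or_dvd h4 with h5 | h5
  · exfalso
    have h6 := Polynomial.natDegree_le_of_dvd h5 (by
      rw [Ne, Polynomial.C_eq_zero]
      exact nonZeroDivisors.ne_zero hd0)
    rw [Polynomial.natDegree_C] at h6
    exact hd (Nat.le_zero.1 h6)
  · obtain ⟨W, hW⟩ := h5
    have h7 := congrArg (Polynomial.eval 0) hW
    rw [Polynomial.eval_mul, eval_zero_sh, eval_zero_sh] at h7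
    exact ⟨_, h7⟩

theorem poly_of_poly_along {K : Type} [Field K] {σ : Type} (b : σ → K) {c : Rf σ K}
    {U V : MvPolynomial σ K} (hV : V ≠ 0)
    (hc : c = algebraMap _ _ U / algebraMap _ _ V)
    (hg : ∀ g, Irreducible g → g ∣ V → (sh b g).natDegree ≠ 0)
    (hp : ∃ G : (Rf σ K)[X], shF b c = algebraMap _ _ G) :
    ∃ C : MvPolynomial σ K, c = algebraMap _ _ C := by
  classical
  obtain ⟨G, hG⟩ := hp
  revert hg hc hV
  induction V using WfDvdMonoid.induction_on_irreducible generalizing U with
  | zero =>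
    intro hV
    exact absurd rfl hV
  | unit u hu =>
    intro _ hc _
    obtain ⟨w, rfl⟩ := hu
    refine ⟨U * ((w⁻¹ : (MvPolynomial σ K)ˣ) : MvPolynomial σ K), ?_⟩
    rw [hc, div_eq_iff, map_mul, mul_assoc, ← map_mul, Units.inv_mul, map_one, mul_one]
    intro h
    rw [map_eq_zero_iff _ (IsFractionRing.injective (MvPolynomial σ K) (Rf σ K))] at h
    exact w.ne_zero h
  | mul V g hV0 hirr ih =>
    intro _ hc hg
    have hinj := IsFractionRing.injective (MvPolynomial σ K) (Rf σ K)
    have hg0 : algebraMap (MvPolynomial σ K) (Rf σ K) g ≠ 0 := by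
      rw [Ne, map_eq_zero_iff _ hinj]
      exact hirr.ne_zero
    have hV1 : algebraMap (MvPolynomial σ K) (Rf σ K) V ≠ 0 := by
      rw [Ne, map_eq_zero_iff _ hinj]
      exact hV0
    have h1 : algebraMap (MvPolynomial σ K) (Rf σ K) (g * V) * c = algebraMap _ _ U := by
      rw [hc, mul_div_cancel₀]
      rw [map_mul]
      exact mul_ne_zero hg0 hV1
    have h2 := congrArg (shF b) h1
    rw [map_mul, shF_algebraMap, shF_algebraMap, hG, ← map_mul] at h2
    have h3 := RatFunc.algebraMap_injective (Rf σ K) h2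
    rw [map_mul, Polynomial.map_mul, mul_assoc] at h3
    obtain ⟨U', hU'⟩ := G3_dvd b hirr (hg g hirr (dvd_mul_right _ _)) h3
    refine ih (U := U') hV0 ?_ fun g' h4 h5 => hg g' h4 (dvd_mul_of_dvd_right h5 _)
    rw [hc, hU', map_mul, map_mul, mul_div_mul_left _ _ hg0]

end Pool.Agent.H531R2.D4
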