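import Pool.Agent.H531R2.D4.TF

/-! Formalised by helper36. -/

set_option autoImplicit false

namespace Pool.Agent.H531R2.D4

open Polynomial

section L
variable {K : Type} [Field K] {σ : Type}


/-- the monic version of `sh a p` over `A` -/
theorem Pm_data (a : σ → K) {p : MvPolynomial σ K} (hm : Mon p a) :
    ∃ c : K, c ≠ 0 ∧ (C (MvPolynomial.C c⁻¹) * sh a p).Monic ∧
      sh a p = C (MvPolynomial.C c) * (C (MvPolynomial.C c⁻¹) * sh a p) ∧
      Pm a p = (C (MvPolynomial.C c⁻¹) * sh a p).map (algebraMap (MvPolynomial σ K) (Rf σ K)) := by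
  obtain ⟨c, hc, hlc⟩ := hm
  refine ⟨c, hc, ?_, ?_, ?_⟩
  · rw [Monic, leadingCoeff_mul, hlc, leadingCoeff_C, ← map_mul, inv_mul_cancel₀ hc, map_one]
  · rw [← mul_assoc, ← map_mul, ← map_mul, mul_inv_cancel₀ hc, map_one, map_one, one_mul]
  · rw [Polynomial.map_mul, Pm, map_C]
    congr 2
    rw [shP, leadingCoeff_map_of_injective (IsFractionRing.injective _ _), hlc]
    apply inv_eq_of_mul_eq_one_right
    rw [← map_mul, ← map_mul, mul_inv_cancel₀ hc, map_one, map_one]

theorem L_Pm_monic (a : σ → K) {p : MvPolynomial σ K} (hm : Mon p a) : (Pm a p).Monic := by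
  obtain ⟨c, _, h1, _, h2⟩ := Pm_data a hm
  rw [h2]
  exact h1.map _

theorem L_Pm_irreducible (a : σ → K) {p : MvPolynomial σ K} (hp : Irreducible p) (hm : Mon p a) :
    Irreducible (Pm a p) := by
  have h := irreducible_shP a hp hm
  rw [Pm]
  have h0 : (shP a p).leadingCoeff ≠ 0 := leadingCoeff_ne_zero.2 h.ne_zero
  have hu : IsUnit (C (shP a p).leadingCoeff⁻¹) := isUnit_C.2 (isUnit_iff_ne_zero.2 (inv_ne_zero h0))
  exact (irreducible_isUnit_mul hu).2 h

theorem L_Pm_dvd_iff (a : σ → K) {p : MvPolynomial σ K} (hp : Irreducible p) (hm : Mon p a)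
    (Q : (Rf σ K)[X]) : Pm a p ∣ Q ↔ shP a p ∣ Q := by
  have h := irreducible_shP a hp hm
  have h0 : (shP a p).leadingCoeff ≠ 0 := leadingCoeff_ne_zero.2 h.ne_zero
  have hu : IsUnit (C (shP a p).leadingCoeff⁻¹) := isUnit_C.2 (isUnit_iff_ne_zero.2 (inv_ne_zero h0))
  rw [Pm]
  exact hu.mul_left_dvd

/-- powers of the shift divide only if the powers divide -/
theorem pow_dvd_of_Pm (a : σ → K) {p B : MvPolynomial σ K} (hm : Mon p a) (k : ℕ)
    (h : Pm a p ^ k ∣ shP a B) : p ^ k ∣ B := by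
  obtain ⟨c, hc, h1, h3, h2⟩ := Pm_data a hm
  rw [h2, ← Polynomial.map_pow, shP,
    Polynomial.map_dvd_map _ (IsFractionRing.injective _ _) (h1.pow k)] at h
  obtain ⟨W, hW⟩ := h
  have h4 := congrArg (Polynomial.eval 0) hW
  rw [eval_zero_sh, eval_mul, eval_pow, eval_mul, eval_zero_sh, eval_C] at h4
  refine ⟨(MvPolynomial.C c⁻¹) ^ k * eval 0 W, ?_⟩
  rw [h4]
  ring

theorem natDegree_sh_ne (a : σ → K) {p : MvPolynomial σ K} (hp : Irreducible p) (hm : Mon p a) :
    (sh a p).natDegree ≠ 0 := by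
  intro h0
  obtain ⟨c, hc, hlc⟩ := hm
  have h1 := eq_C_of_natDegree_eq_zero h0
  have h2 : (sh a p).coeff 0 = MvPolynomial.C c := by
    rw [← hlc, leadingCoeff, h0]
  rw [h2] at h1
  have h3 := congrArg (Polynomial.eval 0) h1
  rw [eval_zero_sh, eval_C] at h3
  apply hp.not_isUnit
  rw [h3]
  exact (isUnit_iff_ne_zero.2 hc).map MvPolynomial.C

theorem shF_div (a : σ → K) (B Q : MvPolynomial σ K) :
    shF a (algebraMap _ _ B / algebraMap _ _ Q) = (algebraMap (Rf σ K)[X] (RatFunc (Rf σ K))) (shP a B) / (algebraMap (Rf σ K)[X] (RatFunc (Rf σ K))) (shP a Q) := by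
  rw [map_div₀, shF_algebraMap, shF_algebraMap]
  rfl

theorem shP_mul (a : σ → K) (B Q : MvPolynomial σ K) : shP a (B * Q) = shP a B * shP a Q := by
  rw [shP, map_mul, Polynomial.map_mul]; rfl

theorem shP_pow (a : σ → K) (B : MvPolynomial σ K) (k : ℕ) : shP a (B ^ k) = shP a B ^ k := by
  rw [shP, map_pow, Polynomial.map_pow]; rfl

theorem L_shP_prod (a : σ → K) (S : Multiset (MvPolynomial σ K)) :
    shP a S.prod = (S.map (shP a)).prod := by
  induction S using Multiset.induction_on with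
  | empty => simp [shP]
  | cons g S ih => rw [Multiset.prod_cons, shP_mul, ih, Multiset.map_cons, Multiset.prod_cons]

theorem L_not_dvd_prod {R : Type} [CommMonoidWithZero R] {P : R} (hP : Prime P) (S : Multiset R)
    (h : ∀ g ∈ S, ¬ P ∣ g) : ¬ P ∣ S.prod := by
  intro hd
  obtain ⟨g, hg, hdg⟩ := hP.exists_mem_multiset_dvd hd
  exact h g hg hdg

/-- Bezout identity for a product -/
theorem bezout_prod [CharZero K] (a : σ → K) {p : MvPolynomial σ K} (hp : Irreducible p) (hm : Mon p a) {d : ℕ}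
    (hpd : p.totalDegree ≤ d) (S : Multiset (MvPolynomial σ K))
    (hS : ∀ g ∈ S, g.totalDegree ≤ d) :
    ∃ U W : (MvPolynomial σ K)[X], U * sh a p + W * sh a S.prod =
      C (S.map (fun g => Nn a p g)).prod ∧ W.natDegree ≤ Multiset.card S * (2 * d) ∧
      ∀ i, (W.coeff i).totalDegree ≤ Multiset.card S * (2 * d * d) := by
  induction S using Multiset.induction_on with
  | empty =>
    refine ⟨0, 1, by simp, by simp, fun i => ?_⟩
    rw [coeff_one]
    split_ifs <;> simp
  | cons g S ih =>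
    obtain ⟨U, W, h1, h2, h3⟩ := ih fun g' hg' => hS g' (Multiset.mem_cons_of_mem hg')
    obtain ⟨U', W', h1', h2', h3'⟩ := exists_bezout a p g hpd (hS g (Multiset.mem_cons_self _ _))
      (Or.inl (natDegree_sh_ne a hp hm))
    refine ⟨U' * (U * sh a p + W * sh a S.prod) + W' * sh a g * U, W' * W, ?_, ?_, fun i => ?_⟩
    · rw [Multiset.map_cons, Multiset.prod_cons, Multiset.prod_cons, map_mul, map_mul, ← h1, ← h1']
      ring
    · refine natDegree_mul_le.trans ?_
      rw [Multiset.card_cons]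
      nlinarith
    · refine (totalDegree_coeff_mul h3' h3 i).trans ?_
      rw [Multiset.card_cons]
      nlinarith

end L

section L2
variable {K : Type} [Field K] [CharZero K] {σ : Type}


/-- explicit form of the component -/
theorem comp_bound (𝒬 : Finset (MvPolynomial σ K)) {d : ℕ} (h𝒬 : Irr 𝒬 d) (a : σ → K)
    (hm : ∀ p ∈ 𝒬, Mon p a) {p : MvPolynomial σ K} (hp : p ∈ 𝒬) {h : Rf σ K} (hB : Bdd 𝒬 d h)
    {C : (Rf σ K)[X]} (hC : Comp (Pm a p) (shF a h) C) :
    ∃ (S : Multiset (MvPolynomial σ K)) (B : MvPolynomial σ K) (R : (MvPolynomial σ K)[X]),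
      (∀ g ∈ S, g ∈ 𝒬 ∧ g ≠ p) ∧ Multiset.card S ≤ d ∧ B.totalDegree ≤ 2 * d ∧
      h = algebraMap _ _ B / (algebraMap _ _ p * algebraMap _ _ S.prod) ∧
      R.natDegree ≤ d ∧ (∀ i, (R.coeff i).totalDegree ≤ 8 * (d + 1) ^ 4) ∧
      Polynomial.C (algebraMap _ _ (S.map (fun g => Nn a p g)).prod) * C =
        R.map (algebraMap (MvPolynomial σ K) (Rf σ K)) := by
  classical
  obtain ⟨hirr, hass, hdeg⟩ := h𝒬
  have hpi : Irreducible p := hirr p hp
  have hpm : Mon p a := hm p hp
  have hPi : Irreducible (Pm a p) := L_Pm_irreducible a hpi hpm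
  have hPmon : (Pm a p).Monic := L_Pm_monic a hpm
  obtain ⟨S, B, hS, hcard, hBd, hh⟩ := hB
  -- split off the copies of `p`
  obtain ⟨S₀, hS₀⟩ : ∃ S₀, S₀ = S.filter (fun g => g ≠ p) := ⟨_, rfl⟩
  obtain ⟨m, hmc⟩ : ∃ m, m = S.count p := ⟨_, rfl⟩
  have hsplit : S = Multiset.replicate m p + S₀ := by
    have h1 := Multiset.filter_add_not (fun g => g = p) S
    rw [Multiset.filter_eq' S p] at h1
    rw [hmc, hS₀]
    exact h1.symm
  have hS₀m : ∀ g ∈ S₀, g ∈ 𝒬 ∧ g ≠ p := by
    intro g hg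
    rw [hS₀, Multiset.mem_filter] at hg
    exact ⟨hS g hg.1, hg.2⟩
  have hS₀c : m + Multiset.card S₀ = Multiset.card S := by
    rw [hsplit, Multiset.card_add, Multiset.card_replicate]
  have hSprod : S.prod = p ^ m * S₀.prod := by
    rw [hsplit, Multiset.prod_add, Multiset.prod_replicate]
  have hp0 : p ≠ 0 := hpi.ne_zero
  have hS₀0 : S₀.prod ≠ 0 := by
    rw [Ne, Multiset.prod_eq_zero_iff]
    intro h0
    exact (hirr 0 (hS₀m 0 h0).1).ne_zero rfl
  have hinj : Function.Injective (algebraMap (MvPolynomial σ K) (Rf σ K)) :=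
    IsFractionRing.injective _ _
  have hne : ∀ g : MvPolynomial σ K, g ≠ 0 → algebraMap (MvPolynomial σ K) (Rf σ K) g ≠ 0 :=
    fun g hg => by rwa [Ne, map_eq_zero_iff _ hinj]
  have hshne : ∀ g : MvPolynomial σ K, g ≠ 0 → shP a g ≠ 0 := by
    intro g hg
    rw [shP, Ne, Polynomial.map_eq_zero_iff hinj, map_eq_zero_iff _ (sh_injective a)]
    exact hg
  have hPQ : ∀ g ∈ S₀.map (shP a), ¬ Pm a p ∣ g := by
    intro g' hg'
    obtain ⟨g, hg, rfl⟩ := Multiset.mem_map.1 hg'
    rw [L_Pm_dvd_iff a hpi hpm]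
    refine not_dvd_shP a hpi (hirr g (hS₀m g hg).1) hpm (hm g (hS₀m g hg).1) ?_
    intro hcon
    exact (hS₀m g hg).2 (hass p hp g (hS₀m g hg).1 hcon).symm
  have hPQ' : ¬ Pm a p ∣ shP a S₀.prod := by
    rw [L_shP_prod]
    exact L_not_dvd_prod hPi.prime _ hPQ
  obtain ⟨u, hu0, hu⟩ : ∃ u : Rf σ K, u ≠ 0 ∧ shP a p = Polynomial.C u * Pm a p := by
    have h0 : (shP a p).leadingCoeff ≠ 0 := leadingCoeff_ne_zero.2 (hshne p hp0)
    refine ⟨(shP a p).leadingCoeff, h0, ?_⟩
    rw [Pm, ← mul_assoc, ← Polynomial.C_mul, mul_inv_cancel₀ h0, Polynomial.C_1, one_mul]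
  -- the reduced representation
  obtain ⟨B₁, hB₁d, hhB₁⟩ : ∃ B₁ : MvPolynomial σ K, B₁.totalDegree ≤ 2 * d ∧
      h = algebraMap _ _ B₁ / (algebraMap _ _ p * algebraMap _ _ S₀.prod) := by
    rcases Nat.eq_zero_or_pos m with hm0 | hm0
    · refine ⟨B * p, ?_, ?_⟩
      · refine (MvPolynomial.totalDegree_mul _ _).trans ?_
        have := hdeg p hp
        omega
      · rw [hh, hSprod, hm0, pow_zero, one_mul, map_mul]
        have h1 := hne p hp0
        have h2 := hne _ hS₀0
        field_simp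
    · obtain ⟨k, rfl⟩ : ∃ k, m = k + 1 := ⟨m - 1, by omega⟩
      have hdvd : Pm a p ^ k ∣ shP a B := by
        have h1 := hC.reg_mul hPi
        rw [hh, shF_div, hSprod, shP_mul, shP_pow] at h1
        obtain ⟨U, V, hV, h1⟩ := h1
        have hV0 := ι_ne (ne_of_not_dvd hV)
        have h2 : (algebraMap (Rf σ K)[X] (RatFunc (Rf σ K))) (shP a p ^ (k + 1) * shP a S₀.prod) ≠ 0 :=
          ι_ne (mul_ne_zero (pow_ne_zero _ (hshne p hp0)) (hshne _ hS₀0))
        rw [← mul_div_assoc, div_eq_div_iff h2 hV0, ← map_mul, ← map_mul, ← map_mul] at h1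
        have h3 := RatFunc.algebraMap_injective _ h1
        rw [hu] at h3
        have h4 : shP a B * V = Pm a p ^ k * (U * Polynomial.C u ^ (k + 1) * shP a S₀.prod) := by
          have h5 : Pm a p * (shP a B * V) =
              Pm a p * (Pm a p ^ k * (U * Polynomial.C u ^ (k + 1) * shP a S₀.prod)) := by
            rw [← mul_assoc, h3]
            ring
          exact mul_left_cancel₀ hPi.ne_zero h5
        exact hPi.prime.pow_dvd_of_dvd_mul_right k hV ⟨_, h4⟩
      obtain ⟨B₁, hB₁⟩ := pow_dvd_of_Pm a hpm k hdvd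
      refine ⟨B₁, ?_, ?_⟩
      · by_cases h0 : B₁ = 0
        · rw [h0, MvPolynomial.totalDegree_zero]; omega
        · have h1 : B₁.totalDegree ≤ B.totalDegree := by
            rw [hB₁, MvPolynomial.totalDegree_mul_of_isDomain (pow_ne_zero _ hp0) h0]
            omega
          omega
      · rw [hh, hSprod, hB₁, map_mul, map_mul, map_pow, map_pow]
        have h1 := hne p hp0
        have h2 := hne _ hS₀0
        rw [div_eq_div_iff (mul_ne_zero (pow_ne_zero _ h1) h2) (mul_ne_zero h1 h2)]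
        ring
  obtain ⟨c, hc, hP0, hP0', hPm⟩ := Pm_data a hpm
  obtain ⟨P₀, hP₀⟩ : ∃ P₀, P₀ = Polynomial.C (MvPolynomial.C c⁻¹) * sh a p := ⟨_, rfl⟩
  rw [← hP₀] at hP0 hP0' hPm
  obtain ⟨U, W, hUW, hWd, hWc⟩ := bezout_prod a hpi hpm (hdeg p hp) S₀
    (fun g hg => hdeg g (hS₀m g hg).1)
  obtain ⟨T, hT⟩ : ∃ T, T = Polynomial.C (MvPolynomial.C c⁻¹) * sh a B₁ * W := ⟨_, rfl⟩
  have hcS : Multiset.card S₀ ≤ d := by omega
  refine ⟨S₀, B₁, T %ₘ P₀, hS₀m, hcS, hB₁d, hhB₁, ?_, ?_, ?_⟩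
  · have h1 : P₀.natDegree ≤ d := by
      rw [hP₀]
      refine (natDegree_C_mul_le _ _).trans ((natDegree_sh_le a p).trans (hdeg p hp))
    have h2 : P₀ ≠ 1 := by
      intro h3
      rw [h3, Polynomial.map_one] at hPm
      exact hPi.not_isUnit (by rw [hPm]; exact isUnit_one)
    exact ((natDegree_modByMonic_lt T hP0 h2).le).trans h1
  · intro i
    have h1 : ∀ i, (P₀.coeff i).totalDegree ≤ d := by
      intro i
      rw [hP₀, coeff_C_mul]
      refine (MvPolynomial.totalDegree_mul _ _).trans ?_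
      rw [MvPolynomial.totalDegree_C, zero_add]
      exact (totalDegree_coeff_sh_le a p i).trans (hdeg p hp)
    have h2 : ∀ i, ((Polynomial.C (MvPolynomial.C c⁻¹) * sh a B₁).coeff i).totalDegree ≤ 2 * d := by
      intro i
      rw [coeff_C_mul]
      refine (MvPolynomial.totalDegree_mul _ _).trans ?_
      rw [MvPolynomial.totalDegree_C, zero_add]
      exact (totalDegree_coeff_sh_le a B₁ i).trans hB₁d
    have h3 : ∀ i, (T.coeff i).totalDegree ≤ 2 * d + Multiset.card S₀ * (2 * d * d) := by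
      intro i
      rw [hT]
      exact totalDegree_coeff_mul h2 hWc i
    have h4 : T.natDegree ≤ 2 * d + Multiset.card S₀ * (2 * d) := by
      rw [hT]
      refine natDegree_mul_le.trans (Nat.add_le_add ?_ hWd)
      refine (natDegree_C_mul_le _ _).trans ((natDegree_sh_le a B₁).trans hB₁d)
    refine (totalDegree_coeff_modByMonic hP0 h1 h3 i).trans ?_
    have h5 : T.natDegree * d ≤ (2 * d + d * (2 * d)) * d :=
      Nat.mul_le_mul_right _ (h4.trans (Nat.add_le_add_left (Nat.mul_le_mul_right _ hcS) _))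
    have h6 : Multiset.card S₀ * (2 * d * d) ≤ d * (2 * d * d) := Nat.mul_le_mul_right _ hcS
    calc 2 * d + Multiset.card S₀ * (2 * d * d) + T.natDegree * d
        ≤ 2 * d + d * (2 * d * d) + (2 * d + d * (2 * d)) * d := by omega
      _ ≤ 8 * (d + 1) ^ 4 := by
          nlinarith [Nat.zero_le (d ^ 2), Nat.zero_le (d ^ 3), Nat.zero_le (d ^ 4), Nat.zero_le d]
  · rw [Polynomial.map_modByMonic _ hP0, ← hPm]
    have hdivC : Pm a p ∣ C * shP a S₀.prod - Polynomial.C u⁻¹ * shP a B₁ := by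
      refine dvd_of_comp hPi hPQ' ?_
      have h1 : shF a h = (algebraMap (Rf σ K)[X] (RatFunc (Rf σ K))) (Polynomial.C u⁻¹ * shP a B₁) / ((algebraMap (Rf σ K)[X] (RatFunc (Rf σ K))) (Pm a p) * (algebraMap (Rf σ K)[X] (RatFunc (Rf σ K))) (shP a S₀.prod)) := by
        rw [hhB₁, ← map_mul, shF_div, shP_mul, hu, ← map_mul, div_eq_div_iff
          (ι_ne (mul_ne_zero (mul_ne_zero (by rwa [Ne, Polynomial.C_eq_zero]) hPi.ne_zero)
            (hshne _ hS₀0)))
          (ι_ne (mul_ne_zero hPi.ne_zero (hshne _ hS₀0))), ← map_mul, ← map_mul]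
        congr 1
        have h2 : Polynomial.C u⁻¹ * Polynomial.C u = 1 := by
          rw [← Polynomial.C_mul, inv_mul_cancel₀ hu0, Polynomial.C_1]
        calc shP a B₁ * (Pm a p * shP a S₀.prod)
            = (Polynomial.C u⁻¹ * Polynomial.C u) * (shP a B₁ * (Pm a p * shP a S₀.prod)) := by
              rw [h2, one_mul]
          _ = _ := by ring
      rw [← h1]
      exact hC
    -- identify `u`
    have hcu : Polynomial.C u⁻¹ * shP a p = Pm a p := by
      rw [hu, ← mul_assoc, ← Polynomial.C_mul, inv_mul_cancel₀ hu0, Polynomial.C_1, one_mul]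
    have hu' : Polynomial.C u⁻¹ = (Polynomial.C (MvPolynomial.C c⁻¹) : (MvPolynomial σ K)[X]).map
        (algebraMap (MvPolynomial σ K) (Rf σ K)) := by
      have h1 : Polynomial.C u⁻¹ * shP a p =
          (Polynomial.C (MvPolynomial.C c⁻¹) : (MvPolynomial σ K)[X]).map
            (algebraMap (MvPolynomial σ K) (Rf σ K)) * shP a p := by
        rw [hcu, hPm, hP₀, Polynomial.map_mul]
        rfl
      exact mul_right_cancel₀ (hshne p hp0) h1
    have hTmap : T.map (algebraMap (MvPolynomial σ K) (Rf σ K)) =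
        Polynomial.C u⁻¹ * shP a B₁ * W.map (algebraMap (MvPolynomial σ K) (Rf σ K)) := by
      rw [hT, Polynomial.map_mul, Polynomial.map_mul, hu']
      rfl
    have hUW' := congrArg (Polynomial.map (algebraMap (MvPolynomial σ K) (Rf σ K))) hUW
    rw [Polynomial.map_add, Polynomial.map_mul, Polynomial.map_mul, Polynomial.map_C] at hUW'
    change _ * shP a p + _ * shP a S₀.prod = _ at hUW'
    obtain ⟨Z, hZ⟩ := hdivC
    have hfin : T.map (algebraMap (MvPolynomial σ K) (Rf σ K)) -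
        Polynomial.C (algebraMap _ _ (S₀.map (fun g => Nn a p g)).prod) * C =
        Pm a p * (-(Z * W.map (algebraMap (MvPolynomial σ K) (Rf σ K))) -
          Polynomial.C u * U.map (algebraMap (MvPolynomial σ K) (Rf σ K)) * C) := by
      rw [hTmap, ← hUW', hu]
      have h5 : Polynomial.C u⁻¹ * shP a B₁ = C * shP a S₀.prod - Pm a p * Z := by
        rw [← hZ]; ring
      rw [h5]
      ring
    have hdegC : (Polynomial.C (algebraMap (MvPolynomial σ K) (Rf σ K)
        (S₀.map (fun g => Nn a p g)).prod) * C).degree < (Pm a p).degree := by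
      refine lt_of_le_of_lt ?_ hC.1
      refine (degree_mul_le _ _).trans ?_
      calc (Polynomial.C (algebraMap (MvPolynomial σ K) (Rf σ K)
        (S₀.map (fun g => Nn a p g)).prod)).degree + C.degree ≤ 0 + C.degree :=
              add_le_add_left degree_C_le _
        _ = C.degree := zero_add _
    have huniq := (div_modByMonic_unique
      (-(Z * W.map (algebraMap (MvPolynomial σ K) (Rf σ K))) -
          Polynomial.C u * U.map (algebraMap (MvPolynomial σ K) (Rf σ K)) * C)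
      (Polynomial.C (algebraMap _ _ (S₀.map (fun g => Nn a p g)).prod) * C) hPmon
      (f := T.map (algebraMap (MvPolynomial σ K) (Rf σ K)))
      ⟨by rw [← hfin]; ring, hdegC⟩).2
    exact huniq.symm

end L2

end Pool.Agent.H531R2.D4
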