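import Pool.Agent.H531R2.D4.TL

/-! Formalised by helper723. -/

set_option autoImplicit false

namespace Pool.Agent.H531R2.D4

open Polynomial

section M
variable {K : Type} [Field K] [CharZero K] {σ : Type}

set_option linter.unusedSectionVars false

/-- evaluation at a point as a ring homomorphism -/
noncomputable def evy (y : σ → K) : MvPolynomial σ K →+* K :=
  (MvPolynomial.aeval y : MvPolynomial σ K →ₐ[K] K).toRingHom

theorem evy_apply (y : σ → K) (p : MvPolynomial σ K) : evy y p = MvPolynomial.eval y p := by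
  show MvPolynomial.aeval y p = _
  rw [MvPolynomial.aeval_eq_eval]

theorem eval_evy (a y : σ → K) (p : MvPolynomial σ K) (z : K) :
    ((sh a p).map (evy y)).eval z = MvPolynomial.eval (mv y a z) p := by
  have h := eval_map_sh a p y z
  rw [MvPolynomial.aeval_eq_eval] at h
  exact h

/-- if some coefficient of the component at `p` is nonzero at `y`, then the sum of the `h s` is
nonzero at almost all points of the line `y + z a` -/
theorem spec (𝒬 : Finset (MvPolynomial σ K)) {d : ℕ} (h𝒬 : Irr 𝒬 d) (a : σ → K)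
    (hm : ∀ p ∈ 𝒬, Mon p a) {p : MvPolynomial σ K} (hp : p ∈ 𝒬) {ι : Type} [Fintype ι]
    (h : ι → Rf σ K) (hB : ∀ s, Bdd 𝒬 d (h s)) (C : ι → (Rf σ K)[X])
    (hC : ∀ s, Comp (Pm a p) (shF a (h s)) (C s)) (y : σ → K)
    (hy : ∀ q ∈ 𝒬, MvPolynomial.eval y q ≠ 0)
    (hN : ∀ q ∈ 𝒬, q ≠ p → MvPolynomial.eval y (Nn a p q) ≠ 0) (i : ℕ)
    (hi : NZ y ((∑ s, C s).coeff i)) :
    ∃ E : K[X], E ≠ 0 ∧ ∀ z : K, E.eval z ≠ 0 → NZ (mv y a z) (∑ s, h s) := by
  classical
  obtain ⟨hirr, hass, hdeg⟩ := h𝒬
  choose S B R hS hcard hBd hh hRd hRc hRC using fun s =>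
    comp_bound 𝒬 ⟨hirr, hass, hdeg⟩ a hm hp (hB s) (hC s)
  set am := algebraMap (MvPolynomial σ K) (Rf σ K) with ham
  have hinj : Function.Injective am := IsFractionRing.injective (MvPolynomial σ K) (Rf σ K)
  -- names
  set Q : ι → MvPolynomial σ K := fun s => (S s).prod with hQ
  set N : ι → MvPolynomial σ K := fun s => ((S s).map (fun g => Nn a p g)).prod with hNs
  set Q0 : MvPolynomial σ K := ∏ s, Q s with hQ0
  set N0 : MvPolynomial σ K := ∏ s, N s with hN0
  set B0 : MvPolynomial σ K := ∑ s, B s * ∏ s' ∈ Finset.univ.erase s, Q s' with hB0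
  set R0 : (MvPolynomial σ K)[X] :=
    ∑ s, Polynomial.C (∏ s' ∈ Finset.univ.erase s, N s') * R s with hR0
  have hpirr := hirr p hp
  have hp0 : p ≠ 0 := hpirr.ne_zero
  have hSQ : ∀ s, Q s ≠ 0 := by
    intro s h0
    have := Multiset.prod_eq_zero_iff.1 h0
    exact (hirr 0 (hS s 0 this).1).ne_zero rfl
  have hQ00 : Q0 ≠ 0 := Finset.prod_ne_zero_iff.2 fun s _ => hSQ s
  -- values at `y`
  have hyQ : ∀ s, MvPolynomial.eval y (Q s) ≠ 0 := by
    intro s h0
    simp only [hQ] at h0
    rw [map_multiset_prod, Multiset.prod_eq_zero_iff, Multiset.mem_map] at h0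
    obtain ⟨g, hg, hg0⟩ := h0
    exact hy g (hS s g hg).1 hg0
  have hyN : ∀ s, MvPolynomial.eval y (N s) ≠ 0 := by
    intro s h0
    simp only [hNs] at h0
    rw [map_multiset_prod, Multiset.prod_eq_zero_iff, Multiset.map_map, Multiset.mem_map] at h0
    obtain ⟨g, hg, hg0⟩ := h0
    exact hN g (hS s g hg).1 (hS s g hg).2 hg0
  have hyQ0 : MvPolynomial.eval y Q0 ≠ 0 := by
    rw [hQ0, map_prod]
    exact Finset.prod_ne_zero_iff.2 fun s _ => hyQ s
  have hyN0 : MvPolynomial.eval y N0 ≠ 0 := by
    rw [hN0, map_prod]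
    exact Finset.prod_ne_zero_iff.2 fun s _ => hyN s
  -- the sum as one fraction
  have hsum : ∑ s, h s = am B0 / (am p * am Q0) := by
    have hap : am p ≠ 0 := (map_ne_zero_iff _ hinj).2 hp0
    have haQ : am Q0 ≠ 0 := (map_ne_zero_iff _ hinj).2 hQ00
    rw [eq_div_iff (mul_ne_zero hap haQ), Finset.sum_mul, hB0, map_sum]
    refine Finset.sum_congr rfl fun s _ => ?_
    have haQs : am (Q s) ≠ 0 := (map_ne_zero_iff _ hinj).2 (hSQ s)
    have e1 : Q0 = Q s * ∏ s' ∈ Finset.univ.erase s, Q s' :=
      (Finset.mul_prod_erase _ _ (Finset.mem_univ s)).symm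
    rw [hh s, e1, map_mul, map_mul]
    show am (B s) / (am p * am (Q s)) * _ = _
    field_simp
  have hRsum : Polynomial.C (am N0) * ∑ s, C s = R0.map am := by
    rw [hR0, Finset.mul_sum, Polynomial.map_sum]
    refine Finset.sum_congr rfl fun s _ => ?_
    have e1 : N0 = (∏ s' ∈ Finset.univ.erase s, N s') * N s :=
      (Finset.prod_erase_mul _ _ (Finset.mem_univ s)).symm
    rw [e1, map_mul, map_mul, mul_assoc, hRC s, Polynomial.map_mul, Polynomial.map_C]
  -- the monic version
  obtain ⟨c, hc0, hc⟩ := hm p hp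
  have hcC : (MvPolynomial.C c : MvPolynomial σ K) * MvPolynomial.C c⁻¹ = 1 := by
    rw [← map_mul, mul_inv_cancel₀ hc0, map_one]
  set pm : (MvPolynomial σ K)[X] := Polynomial.C (MvPolynomial.C c⁻¹) * sh a p with hpm
  have hpmM : pm.Monic := by
    rw [hpm, Polynomial.Monic, Polynomial.leadingCoeff_mul, Polynomial.leadingCoeff_C, hc,
      mul_comm, hcC]
  have hlc : (shP a p).leadingCoeff = am (MvPolynomial.C c) := by
    rw [shP, Polynomial.leadingCoeff_map_of_injective hinj, hc]
  have hPm : Pm a p = pm.map am := by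
    rw [Pm, hlc, hpm, Polynomial.map_mul, Polynomial.map_C]
    congr 2
    have : am (MvPolynomial.C c) * am (MvPolynomial.C c⁻¹) = 1 := by
      rw [← map_mul, hcC, map_one]
    exact inv_eq_of_mul_eq_one_right this
  have hPirr : Irreducible (Pm a p) := by
    rw [Pm]
    have hu : IsUnit (Polynomial.C (shP a p).leadingCoeff⁻¹) := by
      rw [Polynomial.isUnit_C, isUnit_iff_ne_zero]
      apply inv_ne_zero
      rw [hlc]
      refine (map_ne_zero_iff _ hinj).2 ?_
      rw [Ne, MvPolynomial.C_eq_zero]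
      exact hc0
    exact (irreducible_isUnit_mul hu).2 (irreducible_shP a hpirr (hm p hp))
  have hcomp : Comp (Pm a p) (shF a (∑ s, h s)) (∑ s, C s) := by
    rw [map_sum]
    exact Comp.sum hPirr _ fun s _ => hC s
  have hdegC : (∑ s, C s).degree < (Pm a p).degree := hcomp.1
  -- `P ∤ sh Q0`
  have hndvd : ¬ Pm a p ∣ shP a Q0 := by
    intro hdv
    have e1 : shP a Q0 = ∏ s, ((S s).map (fun g => shP a g)).prod := by
      rw [hQ0, shP, map_prod, Polynomial.map_prod]
      refine Finset.prod_congr rfl fun s _ => ?_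
      rw [hQ]
      simp only
      rw [map_multiset_prod, Polynomial.map_multiset_prod, Multiset.map_map]
      rfl
    rw [e1] at hdv
    obtain ⟨s, _, hs⟩ := hPirr.prime.exists_mem_finset_dvd hdv
    obtain ⟨g', hg', hdvg⟩ := hPirr.prime.exists_mem_multiset_dvd hs
    rw [Multiset.mem_map] at hg'
    obtain ⟨g, hg, rfl⟩ := hg'
    have hgQ := hS s g hg
    refine not_dvd_shP a hpirr (hirr g hgQ.1) (hm p hp) (hm g hgQ.1) (fun has => ?_) ?_
    · exact hgQ.2 (hass p hp g hgQ.1 has).symm
    · refine dvd_trans ?_ hdvg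
      rw [Pm]
      exact dvd_mul_left _ _
  -- the congruence modulo `P`
  set B' : (Rf σ K)[X] := Polynomial.C (shP a p).leadingCoeff⁻¹ * shP a B0 with hB'
  have hlc0 : (shP a p).leadingCoeff ≠ 0 := by
    rw [hlc]
    refine (map_ne_zero_iff _ hinj).2 ?_
    rw [Ne, MvPolynomial.C_eq_zero]
    exact hc0
  have hfrac : shF a (∑ s, h s) = algebraMap (Rf σ K)[X] (RatFunc (Rf σ K)) B' /
      (algebraMap (Rf σ K)[X] (RatFunc (Rf σ K)) (Pm a p) * algebraMap (Rf σ K)[X] (RatFunc (Rf σ K)) (shP a Q0)) := by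
    rw [hsum, map_div₀, map_mul, ham, shF_algebraMap, shF_algebraMap, shF_algebraMap, hB', Pm]
    rw [map_mul, map_mul]
    have h1 : algebraMap (Rf σ K)[X] (RatFunc (Rf σ K)) (Polynomial.C (shP a p).leadingCoeff⁻¹) ≠ 0 := by
      refine (map_ne_zero_iff _ (RatFunc.algebraMap_injective (Rf σ K))).2 ?_
      rw [Ne, Polynomial.C_eq_zero]
      exact inv_ne_zero hlc0
    rw [mul_assoc, mul_div_mul_left _ _ h1]
    rfl
  have hdvd : Pm a p ∣ (∑ s, C s) * shP a Q0 - B' := by
    rw [hfrac] at hcomp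
    exact dvd_of_comp hPirr hndvd hcomp
  -- descend to polynomials
  set T : (MvPolynomial σ K)[X] := R0 * sh a Q0 -
    Polynomial.C (N0 * MvPolynomial.C c⁻¹) * sh a B0 with hT
  have hTmap : T.map am = Polynomial.C (am N0) * ((∑ s, C s) * shP a Q0 - B') := by
    rw [hT, Polynomial.map_sub, Polynomial.map_mul, Polynomial.map_mul, Polynomial.map_C,
      ← hRsum, hB', hlc, mul_sub, ← mul_assoc, ← mul_assoc]
    have e2 : (am (MvPolynomial.C c))⁻¹ = am (MvPolynomial.C c⁻¹) := by
      have : am (MvPolynomial.C c) * am (MvPolynomial.C c⁻¹) = 1 := by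
        rw [← map_mul, hcC, map_one]
      exact inv_eq_of_mul_eq_one_right this
    rw [e2, ← Polynomial.C_mul, ← map_mul]
    rfl
  have hpmT : pm ∣ T := by
    rw [← Polynomial.map_dvd_map am hinj hpmM, hTmap, ← hPm]
    exact dvd_mul_of_dvd_right hdvd _
  -- degrees
  have hR0deg : R0.degree < pm.degree := by
    have h1 : (R0.map am).degree = R0.degree := Polynomial.degree_map_eq_of_injective hinj _
    have h2 : (pm.map am).degree = pm.degree := Polynomial.degree_map_eq_of_injective hinj _
    rw [← h1, ← h2, ← hPm, ← hRsum]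
    refine lt_of_le_of_lt ?_ hdegC
    by_cases h0 : am N0 = 0
    · rw [h0, map_zero, zero_mul, degree_zero]; exact bot_le
    · rw [degree_C_mul h0]
  -- evaluate
  set ev := evy y with hev
  have hevT : (pm.map ev) ∣ (T.map ev) := Polynomial.map_dvd ev hpmT
  have hpmev : (pm.map ev).Monic := hpmM.map ev
  have hcoprime : IsCoprime (pm.map ev) ((sh a Q0).map ev) := by
    rw [hQ0, map_prod, Polynomial.map_prod]
    refine IsCoprime.prod_right fun s _ => ?_
    rw [hQ]
    simp only
    rw [map_multiset_prod, Polynomial.map_multiset_prod]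
    have hcg : ∀ g ∈ S s, IsCoprime (pm.map ev) ((sh a g).map ev) := by
      intro g hg
      have hgQ := hS s g hg
      have h1 := isCoprime_of_Nn (B := K) a (hm p hp) (hm g hgQ.1) y (by
        rw [MvPolynomial.aeval_eq_eval]
        exact hN g hgQ.1 hgQ.2)
      rw [hpm, Polynomial.map_mul, Polynomial.map_C]
      refine (isCoprime_mul_unit_left_left ?_ _ _).2 h1
      rw [Polynomial.isUnit_C, hev, evy_apply, MvPolynomial.eval_C]
      exact (inv_ne_zero hc0).isUnit
    have key : ∀ M : Multiset (MvPolynomial σ K), (∀ g ∈ M, IsCoprime (pm.map ev)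
        ((sh a g).map ev)) → IsCoprime (pm.map ev)
        (Multiset.map (Polynomial.map ev) (Multiset.map (fun g => sh a g) M)).prod := by
      intro M
      induction M using Multiset.induction_on with
      | empty => intro _; simpa using isCoprime_one_right
      | cons g M ih =>
        intro hM
        rw [Multiset.map_cons, Multiset.map_cons, Multiset.prod_cons]
        exact IsCoprime.mul_right (hM g (Multiset.mem_cons_self _ _))
          (ih fun g' hg' => hM g' (Multiset.mem_cons_of_mem hg'))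
    exact key _ hcg
  have hBne : (sh a B0).map ev ≠ 0 := by
    intro h0
    have h1 : T.map ev = (R0.map ev) * ((sh a Q0).map ev) := by
      rw [hT, Polynomial.map_sub, Polynomial.map_mul, Polynomial.map_mul, h0, mul_zero, sub_zero]
    rw [h1] at hevT
    have h2 : pm.map ev ∣ R0.map ev := hcoprime.dvd_of_dvd_mul_right hevT
    have h3 : (R0.map ev).degree < (pm.map ev).degree := by
      refine lt_of_le_of_lt (Polynomial.degree_map_le) ?_
      rw [hpmM.degree_map]
      exact hR0deg
    have h4 : R0.map ev = 0 := Polynomial.eq_zero_of_dvd_of_degree_lt h2 h3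
    -- contradiction at the coefficient `i`
    obtain ⟨U, V, hU, hV, hUV⟩ := hi
    rw [← ham] at hUV
    have h5 := congrArg (fun P : (Rf σ K)[X] => P.coeff i) hRsum
    simp only [Polynomial.coeff_C_mul, Polynomial.coeff_map] at h5
    rw [hUV] at h5
    have hV0 : am V ≠ 0 := by
      refine (map_ne_zero_iff _ hinj).2 ?_
      rintro rfl
      exact hV (map_zero _)
    have h6 : am (N0 * U) = am (R0.coeff i * V) := by
      rw [map_mul, map_mul, ← h5]
      field_simp
    have h7 := congrArg (MvPolynomial.eval y) (hinj h6)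
    rw [map_mul, map_mul] at h7
    have h8 : MvPolynomial.eval y (R0.coeff i) = 0 := by
      have := congrArg (fun P : K[X] => P.coeff i) h4
      simp only [Polynomial.coeff_map, Polynomial.coeff_zero] at this
      rw [← evy_apply]
      exact this
    rw [h8, zero_mul] at h7
    exact (mul_ne_zero hyN0 hU) h7
  have hpQne : (sh a (p * Q0)).map ev ≠ 0 := by
    intro h0
    have h1 := eval_evy a y (p * Q0) 0
    rw [← hev, h0, Polynomial.eval_zero] at h1
    have h2 : mv y a 0 = y := by
      funext j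
      simp [mv]
    rw [h2, map_mul] at h1
    exact (mul_ne_zero (hy p hp) hyQ0) h1.symm
  refine ⟨(sh a B0).map ev * (sh a (p * Q0)).map ev, mul_ne_zero hBne hpQne, fun z hz => ?_⟩
  rw [Polynomial.eval_mul, hev, eval_evy, eval_evy] at hz
  refine ⟨B0, p * Q0, left_ne_zero_of_mul hz, right_ne_zero_of_mul hz, ?_⟩
  rw [hsum, map_mul]
end M

end Pool.Agent.H531R2.D4
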