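import Pool.Agent.H531R2.D4.TA
import Pool.Agent.H531R2.D4.TB
import Pool.Agent.H531R2.D4.TC
import Pool.Agent.H531R2.D4.TD
import Pool.Agent.H531R2.D4.TE
import Pool.Agent.H531R2.D4.TF
import Pool.Agent.H531R2.D4.TG1
import Pool.Agent.H531R2.D4.TG2
import Pool.Agent.H531R2.D4.TG3
import Pool.Agent.H531R2.D4.TH
import Pool.Agent.H531R2.D4.TI
import Pool.Agent.H531R2.D4.TJ
import Pool.Agent.H531R2.D4.TL
import Pool.Agent.H531R2.D4.TM

/-! All preparations. -/
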