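import Pool.Agent.H531R2.D4.ShDefs

/-!
# Extension of coefficients `F(t) → E(t)`
-/

set_option autoImplicit false

namespace Pool.Agent.H531R2.D4

open Polynomial

theorem der_compat0 {K A L L' : Type} [Field K] [CommRing A] [IsDomain A] [Field L] [Algebra A L]
    [IsFractionRing A L] [Field L'] [Algebra K L] [Algebra K L'] (j : L →+* L')
    (d : Derivation K L L) (d' : Derivation K L' L')
    (h : ∀ a : A, j (d (algebraMap A L a)) = d' (j (algebraMap A L a))) (x : L) :
    j (d x) = d' (j x) := by
  obtain ⟨a, b, hb, rfl⟩ := IsFractionRing.div_surjective (A := A) x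
  rw [Derivation.leibniz_div, map_div₀, Derivation.leibniz_div]
  simp only [smul_eq_mul, map_mul, map_sub, map_inv₀, map_pow, h]

section MapE

variable {F E : Type} [Field F] [Field E] [Algebra F E]

/-- coefficient extension `F(t) → E(t)` -/
noncomputable def mapE (F E : Type) [Field F] [Field E] [Algebra F E] : RatFunc F →+* RatFunc E :=
  RatFunc.mapRingHom (Polynomial.mapRingHom (algebraMap F E))
    (nonZeroDivisors_le_comap_nonZeroDivisors_of_injective _
      (Polynomial.map_injective _ (algebraMap F E).injective))

theorem mapE_algebraMap (p : F[X]) :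
    mapE F E (algebraMap _ _ p) = algebraMap _ _ (p.map (algebraMap F E)) := by
  have := RatFunc.map_apply_div (Polynomial.mapRingHom (algebraMap F E))
    (nonZeroDivisors_le_comap_nonZeroDivisors_of_injective _
      (Polynomial.map_injective _ (algebraMap F E).injective)) p 1
  rw [map_one, map_one, map_one, div_one, div_one] at this
  exact this

theorem mapE_DX_none {K I : Type} [Field K] [Algebra K F] [Algebra K E]
    (D : I → Derivation K F F) (D' : I → Derivation K E E) (y : RatFunc F) :
    mapE F E (DX D none y) = DX D' none (mapE F E y) := by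
  apply der_compat0 (A := F[X])
  intro p
  rw [DX_none, mapE_algebraMap, mapE_algebraMap, DX_none, Polynomial.derivative_map]

theorem mapE_DX_some {K I : Type} [Field K] [Algebra K F] [Algebra K E]
    (D : I → Derivation K F F) (D' : I → Derivation K E E)
    (h : ∀ i f, algebraMap F E (D i f) = D' i (algebraMap F E f)) (i : I) (y : RatFunc F) :
    mapE F E (DX D (some i) y) = DX D' (some i) (mapE F E y) := by
  apply der_compat0 (A := F[X])
  intro p
  rw [DX_some, mapE_algebraMap, mapE_algebraMap, DX_some]
  congr 1
  ext n
  rw [coeff_map, coeff_mapD, coeff_mapD, coeff_map, h]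

/-- a fraction regular at all points of an algebraically closed extension is a polynomial -/
theorem poly_of_regAt [IsAlgClosed E] {y : RatFunc F} (h : ∀ α : E, ∃ c, RegAt α (mapE F E y) c) :
    ∃ G : F[X], y = algebraMap F[X] (RatFunc F) G := by
  have hden : y.denom.natDegree = 0 := by
    by_contra hd
    have h1 : (y.denom.map (algebraMap F E)).degree ≠ 0 := by
      rw [degree_map]
      intro h2
      apply hd
      exact natDegree_eq_zero_iff_degree_le_zero.2 (le_of_eq h2)
    obtain ⟨α, hα⟩ := IsAlgClosed.exists_root _ h1
    obtain ⟨c, U, V, hV, hy, -⟩ := h α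
    have hcop := y.isCoprime_num_denom
    obtain ⟨a, b, hab⟩ := hcop
    have hy0 : y = algebraMap F[X] (RatFunc F) y.num / algebraMap F[X] (RatFunc F) y.denom :=
      (RatFunc.num_div_denom y).symm
    have hV0 : V ≠ 0 := by
      rintro rfl
      simp at hV
    have hd0 : y.denom.map (algebraMap F E) ≠ 0 :=
      (Polynomial.map_ne_zero_iff (algebraMap F E).injective).2 y.denom_ne_zero
    rw [hy0, map_div₀, mapE_algebraMap, mapE_algebraMap,
      div_eq_div_iff (ι_ne hd0) (ι_ne hV0), ← map_mul, ← map_mul] at hy
    have h3 := RatFunc.algebraMap_injective E hy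
    have h4 := congrArg (eval α) h3
    rw [eval_mul, eval_mul, hα.eq_zero, mul_zero] at h4
    have h5 : (y.num.map (algebraMap F E)).eval α = 0 := (mul_eq_zero.1 h4).resolve_right hV
    have h6 := congrArg (fun p => (p.map (algebraMap F E)).eval α) hab
    simp only [Polynomial.map_add, Polynomial.map_mul, eval_add, eval_mul, Polynomial.map_one,
      eval_one] at h6
    rw [h5, hα.eq_zero, mul_zero, mul_zero, add_zero] at h6
    exact zero_ne_one h6
  have h1 : y.denom = 1 := y.monic_denom.natDegree_eq_zero.1 hden
  refine ⟨y.num, ?_⟩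
  have hy0 := RatFunc.num_div_denom y
  rw [h1, map_one, div_one] at hy0
  exact hy0.symm

end MapE

end Pool.Agent.H531R2.D4
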