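import Pool.Agent.H531R2.D4.Base
import Pool.Agent.H531R2.D4.CaseB1

/-!
# The regular case: the numerators are polynomials
-/

set_option autoImplicit false

namespace Pool.Agent.H531R2.D4

open Polynomial

set_option linter.unusedSectionVars false

variable {K : Type} [Field K] [CharZero K] {σ : Type}

section basic

theorem shP_ne_zero (a : σ → K) {p : MvPolynomial σ K} (hp : p ≠ 0) : shP a p ≠ 0 := by
  intro h
  apply hp
  apply sh_injective a
  rw [map_zero]
  apply Polynomial.map_injective _ (IsFractionRing.injective (MvPolynomial σ K) (Rf σ K))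
  rw [Polynomial.map_zero]
  exact h

omit [CharZero K] in
theorem leadingCoeff_shP (a : σ → K) (p : MvPolynomial σ K) :
    (shP a p).leadingCoeff = algebraMap _ _ (sh a p).leadingCoeff :=
  Polynomial.leadingCoeff_map_of_injective (IsFractionRing.injective _ _) _

theorem Pm_monic (a : σ → K) {p : MvPolynomial σ K} (hp : p ≠ 0) : (Pm a p).Monic := by
  have h := leadingCoeff_ne_zero.2 (shP_ne_zero a hp)
  rw [Pm, Monic, leadingCoeff_mul, leadingCoeff_C, inv_mul_cancel₀ h]

theorem Pm_irreducible (a : σ → K) {p : MvPolynomial σ K} (hp : Irreducible p) (hm : Mon p a) :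
    Irreducible (Pm a p) := by
  have h := leadingCoeff_ne_zero.2 (shP_ne_zero a hp.ne_zero)
  have h1 : IsUnit (C (shP a p).leadingCoeff⁻¹ : (Rf σ K)[X]) :=
    Polynomial.isUnit_C.2 (isUnit_iff_ne_zero.2 (inv_ne_zero h))
  rw [Pm]
  exact (irreducible_isUnit_mul h1).2 (irreducible_shP a hp hm)

theorem Pm_dvd_iff (a : σ → K) {p : MvPolynomial σ K} (hp : p ≠ 0) (V : (Rf σ K)[X]) :
    Pm a p ∣ V ↔ shP a p ∣ V := by
  have h := leadingCoeff_ne_zero.2 (shP_ne_zero a hp)
  have h1 : IsUnit (C (shP a p).leadingCoeff⁻¹ : (Rf σ K)[X]) :=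
    Polynomial.isUnit_C.2 (isUnit_iff_ne_zero.2 (inv_ne_zero h))
  rw [Pm]
  exact h1.mul_left_dvd

theorem natDegree_Pm (a : σ → K) {p : MvPolynomial σ K} (hp : p ≠ 0) :
    (Pm a p).natDegree = (sh a p).natDegree := by
  have h := leadingCoeff_ne_zero.2 (shP_ne_zero a hp)
  rw [Pm, Polynomial.natDegree_C_mul (inv_ne_zero h), shP,
    Polynomial.natDegree_map_eq_of_injective (IsFractionRing.injective _ _)]

theorem natDegree_sh_ne_zero (a : σ → K) {p : MvPolynomial σ K} (hp : Irreducible p)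
    (hm : Mon p a) : (sh a p).natDegree ≠ 0 := by
  intro h
  obtain ⟨c, hc, h1⟩ := hm
  rw [leadingCoeff, h] at h1
  have h2 := eq_C_of_natDegree_eq_zero h
  have h3 := eval_zero_sh a p
  rw [h2, eval_C, h1] at h3
  apply hp.not_isUnit
  rw [← h3]
  exact (isUnit_iff_ne_zero.2 hc).map MvPolynomial.C

end basic

section regat

variable {E : Type} [Field E] (α : E)

theorem regAt_poly (U : E[X]) : RegAt α (algebraMap E[X] (RatFunc E) U) (U.eval α) :=
  ⟨U, 1, by simp, by simp, by simp⟩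

theorem regAt_C_mul {y : RatFunc E} {c : E} (h : RegAt α y c) (d : E) :
    RegAt α (algebraMap E[X] (RatFunc E) (C d) * y) (d * c) := by
  obtain ⟨U, V, hV, rfl, rfl⟩ := h
  exact ⟨C d * U, V, hV, by rw [map_mul, mul_div_assoc], by rw [eval_mul, eval_C, mul_div_assoc]⟩

end regat

/-- the coefficient map used in the one-point argument -/
noncomputable def psi (b : σ → K) : Rf σ K →+* RatFunc (AlgebraicClosure (Rf σ K)) :=
  (mapE (Rf σ K) (AlgebraicClosure (Rf σ K))).comp (shF b)

/-- the generic point of the line with coordinate `α` -/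
noncomputable def xg (b : σ → K) (α : AlgebraicClosure (Rf σ K)) :
    σ → AlgebraicClosure (Rf σ K) :=
  mv (fun i => algebraMap (MvPolynomial σ K) _ (MvPolynomial.X i)) b α

theorem aeval_gen : (MvPolynomial.aeval (fun i => algebraMap (MvPolynomial σ K)
    (AlgebraicClosure (Rf σ K)) (MvPolynomial.X i)) : MvPolynomial σ K →ₐ[K] _).toRingHom =
    algebraMap (MvPolynomial σ K) (AlgebraicClosure (Rf σ K)) := by
  apply MvPolynomial.ringHom_ext
  · intro r
    simp only [AlgHom.toRingHom_eq_coe, RingHom.coe_coe, MvPolynomial.aeval_C]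
    rw [← MvPolynomial.algebraMap_eq, ← IsScalarTower.algebraMap_apply]
  · intro i
    simp

theorem regAt_psi (b : σ → K) (α : AlgebraicClosure (Rf σ K)) (p : MvPolynomial σ K) :
    RegAt α (psi b (algebraMap _ _ p)) (MvPolynomial.aeval (xg b α) p) := by
  have h1 : psi b (algebraMap _ _ p) = algebraMap _ _
      ((sh b p).map (algebraMap (MvPolynomial σ K) (AlgebraicClosure (Rf σ K)))) := by
    rw [psi, RingHom.comp_apply, shF_algebraMap, mapE_algebraMap, Polynomial.map_map,
      ← IsScalarTower.algebraMap_eq]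
  have h2 : MvPolynomial.aeval (xg b α) p =
      ((sh b p).map (algebraMap (MvPolynomial σ K) (AlgebraicClosure (Rf σ K)))).eval α := by
    rw [← aeval_gen, eval_map_sh]
    rfl
  rw [h1, h2]
  exact regAt_poly α _

/-- pull back of a form along the shift -/
theorem pull_sh (a : σ → K) {q : ℕ} {H : (Fin (q + 1) → (σ → K)) → Rf σ K}
    (hH : H ∈ Lam pD (q + 1)) :
    ∃ H' ∈ Lam (DX (pD (K := K) (σ := σ))) (q + 1), ∀ w : Fin q → (σ → K),
      H' (Fin.cons none (fun k => some (w k))) = shF a (H (Fin.cons a w)) := by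
  obtain ⟨H', hH', h⟩ := Lam_pull (K := K) (F := Rf σ K) (I := σ → K) (F' := RatFunc (Rf σ K))
    (I' := Option (σ → K)) (pD (K := K) (σ := σ)) (DX (pD (K := K) (σ := σ))) (shF a)
    (shF_algebraMap_K a) (q := q + 1) (H := H) hH
  refine ⟨H', hH', fun w => ?_⟩
  refine h (Fin.cons a w) (Fin.cons none (fun k => some (w k))) ?_
  intro k f
  refine Fin.cases ?_ (fun k => ?_) k
  · exact shF_pD_self a f
  · exact shF_pD a _ f

/-- the components as fractions -/
theorem sum_fraction {ι : Type} [Fintype ι] (V : ι → MvPolynomial σ K) (hV : ∀ s, V s ≠ 0)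
    (R : ι → MvPolynomial σ K) (c : ι → Rf σ K)
    (hc : ∀ s, algebraMap _ _ (V s) * c s = algebraMap _ _ (R s)) :
    ∃ U : MvPolynomial σ K, ∑ s, c s = algebraMap _ _ U / algebraMap _ _ (∏ s, V s) ∧
      ∀ e, (∀ s, (R s).totalDegree ≤ e) → U.totalDegree ≤ e + (∏ s, V s).totalDegree := by
  classical
  have hinj := IsFractionRing.injective (MvPolynomial σ K) (Rf σ K)
  have hV' : ∀ s, algebraMap (MvPolynomial σ K) (Rf σ K) (V s) ≠ 0 := fun s h =>
    hV s (hinj (by rw [h, map_zero]))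
  refine ⟨∑ s, R s * ∏ t ∈ Finset.univ.erase s, V t, ?_, ?_⟩
  · have hprod : algebraMap (MvPolynomial σ K) (Rf σ K) (∏ s, V s) ≠ 0 := by
      rw [map_prod]
      exact Finset.prod_ne_zero_iff.2 fun s _ => hV' s
    rw [eq_div_iff hprod, Finset.sum_mul, map_sum]
    refine Finset.sum_congr rfl fun s _ => ?_
    rw [map_mul, ← hc s, ← Finset.mul_prod_erase Finset.univ V (Finset.mem_univ s), map_mul]
    ring
  · intro e he
    refine (MvPolynomial.totalDegree_finsetSum _ _).trans (Finset.sup_le fun s _ => ?_)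
    refine (MvPolynomial.totalDegree_mul _ _).trans ?_
    refine Nat.add_le_add (he s) ?_
    have h1 : (∏ t ∈ Finset.univ.erase s, V t) ≠ 0 := Finset.prod_ne_zero_iff.2 fun t _ => hV t
    rw [← Finset.mul_prod_erase Finset.univ V (Finset.mem_univ s),
      MvPolynomial.totalDegree_mul_of_isDomain (hV s) h1]
    exact Nat.le_add_left _ _

theorem algebraMap_C_ne {c : K} (hc : c ≠ 0) :
    algebraMap (MvPolynomial σ K) (Rf σ K) (MvPolynomial.C c) ≠ 0 := by
  intro h
  apply hc
  have h1 := IsFractionRing.injective (MvPolynomial σ K) (Rf σ K) (h.trans (map_zero _).symm)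
  exact (MvPolynomial.C_eq_zero).1 h1

theorem algebraMap_C_inv {c : K} (hc : c ≠ 0) :
    (algebraMap (MvPolynomial σ K) (Rf σ K) (MvPolynomial.C c))⁻¹ =
      algebraMap (MvPolynomial σ K) (Rf σ K) (MvPolynomial.C c⁻¹) := by
  symm
  apply eq_inv_of_mul_eq_one_left
  rw [← map_mul, ← map_mul, inv_mul_cancel₀ hc, map_one, map_one]

/-- `Pm` as the image of a polynomial -/
theorem Pm_eq (a : σ → K) {p : MvPolynomial σ K} {c : K} (hc : c ≠ 0)
    (hlc : (sh a p).leadingCoeff = MvPolynomial.C c) :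
    Pm a p = (Polynomial.C (MvPolynomial.C c⁻¹) * sh a p).map
      (algebraMap (MvPolynomial σ K) (Rf σ K)) := by
  rw [Pm, leadingCoeff_shP, hlc, algebraMap_C_inv hc, Polynomial.map_mul, Polynomial.map_C]
  rfl

theorem shP_prod (a : σ → K) (S : Multiset (MvPolynomial σ K)) :
    (sh a S.prod).map (algebraMap (MvPolynomial σ K) (Rf σ K)) =
      (S.map (fun g => shP a g)).prod := by
  rw [map_multiset_prod, ← Polynomial.coe_mapRingHom, map_multiset_prod, Multiset.map_map]
  rfl

theorem Pm_not_dvd (𝒬 : Finset (MvPolynomial σ K)) {d : ℕ} (h𝒬 : Irr 𝒬 d) (a : σ → K)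
    (hm : ∀ p ∈ 𝒬, Mon p a) {p : MvPolynomial σ K} (hp : p ∈ 𝒬)
    {S : Multiset (MvPolynomial σ K)} (hS : ∀ g ∈ S, g ∈ 𝒬 ∧ g ≠ p) :
    ¬ Pm a p ∣ (sh a S.prod).map (algebraMap (MvPolynomial σ K) (Rf σ K)) := by
  intro hdvd
  have hpirr := h𝒬.1 p hp
  rw [Pm_dvd_iff a hpirr.ne_zero, shP_prod] at hdvd
  obtain ⟨g, hg, hdvd⟩ := (irreducible_shP a hpirr (hm p hp)).prime.exists_mem_multiset_map_dvd
    hdvd
  have hg2 := hS g hg
  exact not_dvd_shP a hpirr (h𝒬.1 g hg2.1) (hm p hp) (hm g hg2.1)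
    (fun h => hg2.2 (h𝒬.2.1 p hp g hg2.1 h).symm) hdvd

theorem shF_frac (a : σ → K) {p : MvPolynomial σ K} {c : K} (hc : c ≠ 0)
    (hlc : (sh a p).leadingCoeff = MvPolynomial.C c) {h : Rf σ K} {B Q : MvPolynomial σ K}
    (hh : h = algebraMap _ _ B / (algebraMap _ _ p * algebraMap _ _ Q)) :
    shF a h = algebraMap (Rf σ K)[X] (RatFunc (Rf σ K))
          ((Polynomial.C (MvPolynomial.C c⁻¹) * sh a B).map
            (algebraMap (MvPolynomial σ K) (Rf σ K))) /
        (algebraMap (Rf σ K)[X] (RatFunc (Rf σ K)) (Pm a p) *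
          algebraMap (Rf σ K)[X] (RatFunc (Rf σ K))
          ((sh a Q).map (algebraMap (MvPolynomial σ K) (Rf σ K)))) := by
  rw [hh, map_div₀, map_mul, shF_algebraMap, shF_algebraMap, shF_algebraMap, Pm_eq a hc hlc]
  rw [Polynomial.map_mul, Polynomial.map_mul, map_mul, map_mul, Polynomial.map_C, mul_assoc,
    mul_div_mul_left]
  rw [← algebraMap_C_inv hc]
  apply ι_ne
  rw [Ne, Polynomial.C_eq_zero, inv_eq_zero]
  exact algebraMap_C_ne hc

theorem psi_K (b : σ → K) (c : K) :
    psi b (algebraMap K (Rf σ K) c) = algebraMap K (RatFunc (AlgebraicClosure (Rf σ K))) c := by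
  rw [psi, RingHom.comp_apply, shF_algebraMap_K]
  have h7 : algebraMap K (RatFunc (Rf σ K)) c = algebraMap (Rf σ K)[X] (RatFunc (Rf σ K))
      (Polynomial.C (algebraMap K (Rf σ K) c)) := by
    rw [IsScalarTower.algebraMap_apply K (Rf σ K)[X] (RatFunc (Rf σ K))]
    rfl
  rw [h7, mapE_algebraMap, Polynomial.map_C, ← IsScalarTower.algebraMap_apply,
    IsScalarTower.algebraMap_apply K (AlgebraicClosure (Rf σ K))[X]
      (RatFunc (AlgebraicClosure (Rf σ K)))]
  rfl

/-- derivations of the algebraic closure -/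
noncomputable def DE (v : σ → K) : Derivation K (AlgebraicClosure (Rf σ K))
    (AlgebraicClosure (Rf σ K)) := extAlg (AlgebraicClosure (Rf σ K)) (pD v)

theorem psi_none (b : σ → K) (f : Rf σ K) :
    psi b (pD b f) = DX (DE (K := K) (σ := σ)) none (psi b f) := by
  rw [psi, RingHom.comp_apply, RingHom.comp_apply, shF_pD_self,
    mapE_DX_none pD (DE (K := K) (σ := σ))]

theorem psi_some (b w : σ → K) (f : Rf σ K) :
    psi b (pD w f) = DX (DE (K := K) (σ := σ)) (some w) (psi b f) := by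
  rw [psi, RingHom.comp_apply, RingHom.comp_apply, shF_pD,
    mapE_DX_some pD (DE (K := K) (σ := σ))]
  intro w f
  exact (extAlg_algebraMap (pD w) f).symm

theorem regAt_map (b : σ → K) (α : AlgebraicClosure (Rf σ K)) (U : (MvPolynomial σ K)[X])
    (i : ℕ) :
    RegAt α (psi b ((U.map (algebraMap (MvPolynomial σ K) (Rf σ K))).coeff i))
      ((U.map (MvPolynomial.aeval (xg b α) : MvPolynomial σ K →ₐ[K] _).toRingHom).coeff i) := by
  rw [coeff_map, coeff_map]
  exact regAt_psi b α _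

end Pool.Agent.H531R2.D4
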