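import Pool.Agent.H531R2.D4.CaseB

set_option autoImplicit false
set_option linter.unusedSectionVars false

namespace Pool.Agent.H531R2.D4

open Polynomial

variable {K : Type} [Field K] [CharZero K] {σ : Type}

/-- roots of the evaluated polynomials -/
theorem root_p (b a : σ → K) (α ζ : AlgebraicClosure (Rf σ K)) {p : MvPolynomial σ K} {c : K}
    (hc : c ≠ 0)
    (h : ((Polynomial.C (MvPolynomial.C c⁻¹) * sh a p).map
      (MvPolynomial.aeval (xg b α) : MvPolynomial σ K →ₐ[K] _).toRingHom).eval ζ = 0) :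
    MvPolynomial.aeval (mv (xg b α) a ζ) p = 0 := by
  rw [Polynomial.map_mul, eval_mul, eval_map_sh, Polynomial.map_C, eval_C] at h
  refine (mul_eq_zero.1 h).resolve_left ?_
  simp only [AlgHom.toRingHom_eq_coe, RingHom.coe_coe, MvPolynomial.aeval_C]
  intro h2
  exact inv_ne_zero hc ((map_eq_zero _).1 h2)

theorem root_q (b a : σ → K) (α ζ : AlgebraicClosure (Rf σ K)) {S : Multiset (MvPolynomial σ K)}
    (h : ((sh a S.prod).map
      (MvPolynomial.aeval (xg b α) : MvPolynomial σ K →ₐ[K] _).toRingHom).eval ζ = 0) :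
    ∃ g ∈ S, MvPolynomial.aeval (mv (xg b α) a ζ) g = 0 := by
  rw [eval_map_sh, map_multiset_prod, Multiset.prod_eq_zero_iff, Multiset.mem_map] at h
  exact h

theorem exists_zeta (𝒬 : Finset (MvPolynomial σ K)) (a₁ a₂ : σ → K) (hone : OneP 𝒬 a₁ a₂)
    {p : MvPolynomial σ K} (hp : p ∈ 𝒬) {c : K} (hc : c ≠ 0) {ι : Type}
    (S : ι → Multiset (MvPolynomial σ K)) (hS : ∀ s, ∀ g ∈ S s, g ∈ 𝒬 ∧ g ≠ p)
    (α : AlgebraicClosure (Rf σ K)) :
    ∃ ζ₀, ∀ ζ, ζ ≠ ζ₀ →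
        ((Polynomial.C (MvPolynomial.C c⁻¹) * sh a₁ p).map
          (MvPolynomial.aeval (xg a₂ α) : MvPolynomial σ K →ₐ[K] _).toRingHom).eval ζ = 0 →
        ∀ s, ((sh a₁ (S s).prod).map
          (MvPolynomial.aeval (xg a₂ α) : MvPolynomial σ K →ₐ[K] _).toRingHom).eval ζ ≠ 0 := by
  by_cases hex : ∃ ζ₀, ((Polynomial.C (MvPolynomial.C c⁻¹) * sh a₁ p).map
      (MvPolynomial.aeval (xg a₂ α) : MvPolynomial σ K →ₐ[K] _).toRingHom).eval ζ₀ = 0 ∧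
      ∃ s, ((sh a₁ (S s).prod).map
      (MvPolynomial.aeval (xg a₂ α) : MvPolynomial σ K →ₐ[K] _).toRingHom).eval ζ₀ = 0
  · obtain ⟨ζ₀, hz, s₀, hs₀⟩ := hex
    refine ⟨ζ₀, fun ζ hne hζ s hs => hne ?_⟩
    obtain ⟨g, hg, hg0⟩ := root_q _ _ _ _ hs
    obtain ⟨g', hg', hg'0⟩ := root_q _ _ _ _ hs₀
    exact hone p g g' hp (hS s g hg).1 (hS s₀ g' hg').1 (hS s g hg).2 (hS s₀ g' hg').2 α ζ ζ₀
      (root_p _ _ _ _ hc hζ) hg0 (root_p _ _ _ _ hc hz) hg'0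
  · exact ⟨0, fun ζ _ hζ s hs => hex ⟨ζ, hζ, s, hs⟩⟩

/-- regularity of the numerators at all points of the line with direction `a₂` -/
theorem reg_all (𝒬 : Finset (MvPolynomial σ K)) {d : ℕ} (h𝒬 : Irr 𝒬 d) (a₁ a₂ : σ → K)
    (hm : ∀ p ∈ 𝒬, Mon p a₁) (hone : OneP 𝒬 a₁ a₂)
    {p : MvPolynomial σ K} (hp : p ∈ 𝒬) {ι : Type} [Fintype ι] {q : ℕ}
    (Ψ : ι → (Fin (q + 2) → Option (σ → K)) → RatFunc (Rf σ K))
    (hΨ : ∀ s, Ψ s ∈ Lam (DX (pD (K := K) (σ := σ))) (q + 2))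
    (v : Fin q → (σ → K)) (h : ι → Rf σ K)
    (C : ι → (Rf σ K)[X])
    (hC : ∀ s, Comp (Pm a₁ p) (shF a₁ (h s)) (C s))
    (hCΨ : ∀ s, Ψ s (Fin.cons none (Fin.cons (some a₂) (fun k => some (v k)))) =
      algebraMap (Rf σ K)[X] (RatFunc (Rf σ K)) (C s) /
        algebraMap (Rf σ K)[X] (RatFunc (Rf σ K)) (Pm a₁ p))
    (S : ι → Multiset (MvPolynomial σ K)) (hS : ∀ s, ∀ g ∈ S s, g ∈ 𝒬 ∧ g ≠ p)
    (B : ι → MvPolynomial σ K)
    (hh : ∀ s, h s = algebraMap _ _ (B s) / (algebraMap _ _ p * algebraMap _ _ (S s).prod))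
    (h0 : (∑ s, C s).coeff ((Pm a₁ p).natDegree - 1) = 0) (α : AlgebraicClosure (Rf σ K))
    (i : ℕ) : ∃ c, RegAt α (psi a₂ ((∑ s, C s).coeff i)) c := by
  have hpirr := h𝒬.1 p hp
  have hp0 := hpirr.ne_zero
  have hPirr := Pm_irreducible a₁ hpirr (hm p hp)
  obtain ⟨c, hc, hlc⟩ := hm p hp
  have hdvd : ∀ s, ∃ W, C s * (sh a₁ (S s).prod).map (algebraMap (MvPolynomial σ K) (Rf σ K)) -
      (Polynomial.C (MvPolynomial.C c⁻¹) * sh a₁ (B s)).map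
        (algebraMap (MvPolynomial σ K) (Rf σ K)) = Pm a₁ p * W := by
    intro s
    apply dvd_of_comp hPirr (Pm_not_dvd 𝒬 h𝒬 a₁ hm hp (hS s))
    rw [← shF_frac a₁ hc hlc (hh s)]
    exact hC s
  choose W hW using hdvd
  obtain ⟨ζ₀, hζ₀⟩ := exists_zeta 𝒬 a₁ a₂ hone hp hc S hS α
  have h1 := onepoint (K := K) (F := Rf σ K) (I := σ → K) (pD (K := K) (σ := σ))
      (E := AlgebraicClosure (Rf σ K)) (DE (K := K) (σ := σ)) (psi a₂) (psi_K a₂) a₂
      (psi_none a₂) (fun w f => psi_some a₂ w f) α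
      Ψ hΨ v (Pm a₁ p) (Pm_monic a₁ hp0) C (fun s => (hC s).1) hCΨ
  have h2 := h1 (fun s => (sh a₁ (S s).prod).map (algebraMap (MvPolynomial σ K) (Rf σ K)))
      (fun s => (Polynomial.C (MvPolynomial.C c⁻¹) * sh a₁ (B s)).map
        (algebraMap (MvPolynomial σ K) (Rf σ K))) W
      (fun s => by
        have := hW s
        rw [sub_eq_iff_eq_add] at this
        rw [this, add_comm])
  have hP1 : ∀ i, RegAt α (psi a₂ ((Pm a₁ p).coeff i))
      (((Polynomial.C (MvPolynomial.C c⁻¹) * sh a₁ p).map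
        (MvPolynomial.aeval (xg a₂ α) : MvPolynomial σ K →ₐ[K] _).toRingHom).coeff i) := by
    intro i
    have := regAt_map a₂ α (Polynomial.C (MvPolynomial.C c⁻¹) * sh a₁ p) i
    rw [← Pm_eq a₁ hc hlc] at this
    exact this
  have h3 := h2 _ hP1 (fun s => (sh a₁ (S s).prod).map
        (MvPolynomial.aeval (xg a₂ α) : MvPolynomial σ K →ₐ[K] _).toRingHom)
      (fun s i => regAt_map a₂ α (sh a₁ (S s).prod) i)
      (fun s => (Polynomial.C (MvPolynomial.C c⁻¹) * sh a₁ (B s)).map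
        (MvPolynomial.aeval (xg a₂ α) : MvPolynomial σ K →ₐ[K] _).toRingHom)
      (fun s i => regAt_map a₂ α (Polynomial.C (MvPolynomial.C c⁻¹) * sh a₁ (B s)) i) ζ₀ hζ₀ h0 i
  exact h3

theorem caseB [Finite σ] (𝒬 : Finset (MvPolynomial σ K)) {d : ℕ} (h𝒬 : Irr 𝒬 d) (a₁ a₂ : σ → K)
    (hm : ∀ p ∈ 𝒬, Mon p a₁) (hone : OneP 𝒬 a₁ a₂)
    (hnc : ∀ p ∈ 𝒬, ∀ q ∈ 𝒬, q ≠ p → ∀ g, Irreducible g → g ∣ Nn a₁ p q →
      (sh a₂ g).natDegree ≠ 0)
    {p : MvPolynomial σ K} (hp : p ∈ 𝒬) {ι : Type} [Fintype ι] {q : ℕ}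
    (H : ι → (Fin (q + 2) → (σ → K)) → Rf σ K) (hH : ∀ s, H s ∈ Lam pD (q + 2))
    (v : Fin q → (σ → K)) (hB : ∀ s, Bdd 𝒬 d (H s (Fin.cons a₁ (Fin.cons a₂ v))))
    (C : ι → (Rf σ K)[X])
    (hC : ∀ s, Comp (Pm a₁ p) (shF a₁ (H s (Fin.cons a₁ (Fin.cons a₂ v)))) (C s))
    (h0 : (∑ s, C s).coeff ((Pm a₁ p).natDegree - 1) = 0) (i : ℕ) :
    ∃ c : MvPolynomial σ K, c.totalDegree ≤ 8 * (d + 1) ^ 4 ∧
      (∑ s, C s).coeff i = algebraMap _ _ c := by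
  classical
  have hpirr := h𝒬.1 p hp
  have hp0 := hpirr.ne_zero
  have hinj := IsFractionRing.injective (MvPolynomial σ K) (Rf σ K)
  have hPirr := Pm_irreducible a₁ hpirr (hm p hp)
  have hPm := Pm_monic a₁ hp0
  -- pull back and components
  have h1 : ∀ s, ∃ H' ∈ Lam (DX (pD (K := K) (σ := σ))) (q + 2), ∀ w : Fin (q + 1) → (σ → K),
      H' (Fin.cons none (fun k => some (w k))) = shF a₁ (H s (Fin.cons a₁ w)) :=
    fun s => pull_sh a₁ (hH s)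
  choose H' hH' hH'2 using h1
  have h2 : ∀ s, ∃ Ψ ∈ Lam (DX (pD (K := K) (σ := σ))) (q + 2), ∀ w : Fin (q + 1) → (σ → K),
      ∀ C : (Rf σ K)[X], Comp (Pm a₁ p) (H' s (Fin.cons none (fun k => some (w k)))) C →
      Ψ (Fin.cons none (fun k => some (w k))) =
        algebraMap (Rf σ K)[X] (RatFunc (Rf σ K)) C /
          algebraMap (Rf σ K)[X] (RatFunc (Rf σ K)) (Pm a₁ p) :=
    fun s => comp_mem (K := K) (F := Rf σ K) (I := σ → K) (pD (K := K) (σ := σ)) hPirr hPm (hH' s)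
  choose Ψ hΨ hΨ2 using h2
  have hcons : (fun k => some ((Fin.cons a₂ v : Fin (q + 1) → (σ → K)) k)) =
      (Fin.cons (some a₂) (fun k => some (v k)) : Fin (q + 1) → Option (σ → K)) := by
    funext k
    refine Fin.cases ?_ (fun k => ?_) k
    · rfl
    · rfl
  have hCΨ : ∀ s, Ψ s (Fin.cons none (Fin.cons (some a₂) (fun k => some (v k)))) =
      algebraMap (Rf σ K)[X] (RatFunc (Rf σ K)) (C s) /
        algebraMap (Rf σ K)[X] (RatFunc (Rf σ K)) (Pm a₁ p) := by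
    intro s
    have h3 := hΨ2 s (Fin.cons a₂ v) (C s) (by rw [hH'2]; exact hC s)
    rw [hcons] at h3
    exact h3
  -- bounded representation
  have h4 := fun s => comp_bound 𝒬 h𝒬 a₁ hm hp (hB s) (hC s)
  choose S B R hS hScard hBd hh hRd hRc hR using h4
  have hreg := reg_all 𝒬 h𝒬 a₁ a₂ hm hone hp Ψ hΨ v _ C hC hCΨ S hS B hh h0
  -- polynomial along `a₂`
  have hpoly : ∃ G : (Rf σ K)[X], shF a₂ ((∑ s, C s).coeff i) = algebraMap _ _ G :=
    poly_of_regAt (E := AlgebraicClosure (Rf σ K)) fun α => hreg α i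
  -- the common denominator
  let V : ι → MvPolynomial σ K := fun s => ((S s).map (fun g => Nn a₁ p g)).prod
  have hV : ∀ s, V s ≠ 0 := by
    intro s h
    obtain ⟨g, hg, hg0⟩ := Multiset.mem_map.1 (Multiset.prod_eq_zero_iff.1 h)
    have hg2 := hS s g hg
    exact Nn_ne_zero a₁ hpirr (h𝒬.1 g hg2.1) (hm p hp) (hm g hg2.1)
      (fun h => hg2.2 (h𝒬.2.1 p hp g hg2.1 h).symm) hg0
  have hcs : ∀ s, algebraMap (MvPolynomial σ K) (Rf σ K) (V s) * (C s).coeff i =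
      algebraMap _ _ ((R s).coeff i) := by
    intro s
    have h8 := congrArg (fun f => f.coeff i) (hR s)
    simp only [coeff_C_mul, coeff_map] at h8
    exact h8
  obtain ⟨U, hU, hUd⟩ := sum_fraction V hV (fun s => (R s).coeff i) (fun s => (C s).coeff i) hcs
  have hsum : (∑ s, C s).coeff i = algebraMap _ _ U / algebraMap _ _ (∏ s, V s) := by
    rw [finsetSum_coeff, hU]
  have hV0 : ∏ s, V s ≠ 0 := Finset.prod_ne_zero_iff.2 fun s _ => hV s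
  obtain ⟨c', hc'⟩ := poly_of_poly_along a₂ hV0 hsum (by
    intro g hg hgV
    obtain ⟨s, _, hs⟩ := (hg.prime.dvd_finsetProd_iff _).1 hgV
    obtain ⟨g', hg', hdv⟩ := hg.prime.exists_mem_multiset_map_dvd hs
    exact hnc p hp g' (hS s g' hg').1 (hS s g' hg').2 g hg hdv) hpoly
  refine ⟨c', ?_, hc'⟩
  by_cases hc0 : c' = 0
  · rw [hc0, MvPolynomial.totalDegree_zero]
    exact Nat.zero_le _
  have h9 : c' * ∏ s, V s = U := by
    apply hinj
    rw [map_mul, ← hc', hsum, div_mul_cancel₀]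
    intro h
    exact hV0 (hinj (by rw [h, map_zero]))
  have h10 := hUd (8 * (d + 1) ^ 4) (fun s => hRc s i)
  rw [← h9, MvPolynomial.totalDegree_mul_of_isDomain hc0 hV0] at h10
  omega

end Pool.Agent.H531R2.D4
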