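import Mathlib

/-!
# Logarithmic forms over a field with a family of derivations: definitions
-/

set_option autoImplicit false

namespace Pool.Agent.H531R2.D4

open Polynomial

section Frac

variable {K A L : Type} [Field K] [CommRing A] [IsDomain A] [Field L] [Algebra K A] [Algebra K L]
  [Algebra A L] [IsScalarTower K A L] [IsFractionRing A L]

/-- extension of a derivation to the fraction field -/
theorem exists_extFrac (D : Derivation K A A) :
    ∃ D' : Derivation K L L, ∀ a, D' (algebraMap A L a) = algebraMap A L (D a) := by
  classical
  -- the ring homomorphism `a ↦ (a, D a)` to the dual numbers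
  let g : A →ₐ[K] TrivSqZeroExt L L :=
    { toFun := fun a => TrivSqZeroExt.inl (algebraMap A L a) + TrivSqZeroExt.inr (algebraMap A L (D a))
      map_one' := by
        simp
      map_mul' := by
        intro a b
        ext
        · simp
        · simp only [Derivation.leibniz, smul_eq_mul, map_add, map_mul, TrivSqZeroExt.snd_add,
            TrivSqZeroExt.snd_inl, TrivSqZeroExt.snd_inr, TrivSqZeroExt.snd_mul,
            TrivSqZeroExt.fst_add, TrivSqZeroExt.fst_inl, TrivSqZeroExt.fst_inr, zero_add, add_zero,
            MulOpposite.op_smul, smul_eq_mul]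
          simp [mul_comm]
      map_zero' := by simp
      map_add' := by
        intro a b
        ext
        · simp
        · simp only [map_add, TrivSqZeroExt.snd_add, TrivSqZeroExt.snd_inl,
            TrivSqZeroExt.snd_inr, zero_add]
      commutes' := by
        intro r
        have h : (algebraMap K (TrivSqZeroExt L L)) r = TrivSqZeroExt.inl (algebraMap K L r) := rfl
        rw [h, D.map_algebraMap, map_zero, ← IsScalarTower.algebraMap_apply]
        ext <;> simp }
  have hg : ∀ y : nonZeroDivisors A, IsUnit (g y) := by
    intro y
    rw [TrivSqZeroExt.isUnit_iff_isUnit_fst]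
    have : (g y).fst = algebraMap A L y := by
      simp [g]
    rw [this, isUnit_iff_ne_zero]
    exact IsFractionRing.to_map_ne_zero_of_mem_nonZeroDivisors y.2
  let G : L →+* TrivSqZeroExt L L := IsLocalization.lift (M := nonZeroDivisors A) (S := L)
    (g := (g : A →+* TrivSqZeroExt L L)) hg
  have hG : ∀ a, G (algebraMap A L a) = g a := fun a => IsLocalization.lift_eq hg a
  have hfst : ∀ x, (G x).fst = x := by
    intro x
    obtain ⟨a, b, hb, rfl⟩ := IsFractionRing.div_surjective (A := A) x
    have hb0 : algebraMap A L b ≠ 0 := IsFractionRing.to_map_ne_zero_of_mem_nonZeroDivisors hb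
    have h1 : G (algebraMap A L a / algebraMap A L b) * G (algebraMap A L b) =
        G (algebraMap A L a) := by
      rw [← map_mul, div_mul_cancel₀ _ hb0]
    have h2 := congrArg TrivSqZeroExt.fst h1
    rw [TrivSqZeroExt.fst_mul, hG, hG] at h2
    have h3 : ∀ c, (g c).fst = algebraMap A L c := by
      intro c
      simp [g]
    rw [h3, h3] at h2
    rw [eq_div_iff hb0]
    exact h2
  refine ⟨Derivation.mk'
    { toFun := fun x => (G x).snd
      map_add' := by
        intro x y
        rw [map_add, TrivSqZeroExt.snd_add]
      map_smul' := by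
        intro r x
        rw [RingHom.id_apply, Algebra.smul_def, map_mul, TrivSqZeroExt.snd_mul, hfst, hfst,
          IsScalarTower.algebraMap_apply K A L, hG]
        have h4 : (g (algebraMap K A r)).snd = 0 := by
          change (TrivSqZeroExt.inl (algebraMap A L (algebraMap K A r)) +
            TrivSqZeroExt.inr (algebraMap A L (D (algebraMap K A r))) : TrivSqZeroExt L L).snd = 0
          rw [D.map_algebraMap, map_zero]
          simp
        rw [h4, smul_zero, add_zero, smul_eq_mul, Algebra.smul_def,
          IsScalarTower.algebraMap_apply K A L] } ?_, ?_⟩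
  · intro x y
    change (G (x * y)).snd = x • (G y).snd + y • (G x).snd
    rw [map_mul, TrivSqZeroExt.snd_mul, hfst, hfst]
    simp [mul_comm]
  · intro a
    change (G (algebraMap A L a)).snd = _
    rw [hG]
    change (TrivSqZeroExt.inl (algebraMap A L a) +
            TrivSqZeroExt.inr (algebraMap A L (D a)) : TrivSqZeroExt L L).snd = _
    rw [TrivSqZeroExt.snd_add, TrivSqZeroExt.snd_inl, TrivSqZeroExt.snd_inr, zero_add]

/-- extension of a derivation to the fraction field -/
noncomputable def extFrac (L : Type) [Field L] [Algebra K L]
    [Algebra A L] [IsScalarTower K A L] [IsFractionRing A L] (D : Derivation K A A) :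
    Derivation K L L := (exists_extFrac (L := L) D).choose

theorem extFrac_algebraMap (D : Derivation K A A) (a : A) :
    extFrac L D (algebraMap A L a) = algebraMap A L (D a) :=
  (exists_extFrac (L := L) D).choose_spec a

end Frac

section Alg

variable {K F E : Type} [Field K] [Field F] [Field E] [Algebra K F] [Algebra K E] [Algebra F E]
  [IsScalarTower K F E] [CharZero F] [Algebra.IsAlgebraic F E]

/-- extension of a derivation to an algebraic extension -/
theorem exists_extAlg (D : Derivation K F F) :
    ∃ D' : Derivation K E E, ∀ a, D' (algebraMap F E a) = algebraMap F E (D a) := by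
  have : Algebra.FormallyEtale F E := Algebra.FormallyEtale.of_isSeparable F E
  let e := KaehlerDifferential.tensorKaehlerEquivOfFormallyEtale K F E
  let l : KaehlerDifferential K F →ₗ[F] E :=
    (Algebra.linearMap F E).comp D.liftKaehlerDifferential
  let l' : TensorProduct F E (KaehlerDifferential K F) →ₗ[E] E :=
    TensorProduct.AlgebraTensorModule.lift
      ((LinearMap.lsmul E (KaehlerDifferential K F →ₗ[F] E)).flip l)
  let m : KaehlerDifferential K E →ₗ[E] E := l'.comp e.symm.toLinearMap
  refine ⟨m.compDer (KaehlerDifferential.D K E), ?_⟩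
  intro a
  change l' (e.symm (KaehlerDifferential.D K E (algebraMap F E a))) = _
  rw [KaehlerDifferential.tensorKaehlerEquivOfFormallyEtale_symm_D_algebraMap]
  simp [l', l]

/-- extension of a derivation to an algebraic extension -/
noncomputable def extAlg (E : Type) [Field E] [Algebra K E] [Algebra F E]
    [IsScalarTower K F E] [Algebra.IsAlgebraic F E] (D : Derivation K F F) : Derivation K E E :=
  (exists_extAlg (E := E) D).choose

theorem extAlg_algebraMap (D : Derivation K F F) (a : F) :
    extAlg E D (algebraMap F E a) = algebraMap F E (D a) :=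
  (exists_extAlg (E := E) D).choose_spec a

end Alg

section Rat

variable {K F : Type} [Field K] [Field F] [Algebra K F]

/-- coefficientwise derivation -/
noncomputable def mapD (D : Derivation K F F) : Derivation K F[X] F[X] :=
  PolynomialModule.equivPolynomialSelf.compDer D.mapCoeffs

@[simp] theorem coeff_mapD (D : Derivation K F F) (p : F[X]) (i : ℕ) :
    (mapD D p).coeff i = D (p.coeff i) := rfl

@[simp] theorem mapD_C (D : Derivation K F F) (c : F) : mapD D (C c) = C (D c) := by
  ext i
  rw [coeff_mapD, coeff_C, coeff_C]
  split_ifs
  · rfl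
  · exact map_zero D

@[simp] theorem mapD_X (D : Derivation K F F) : mapD D X = 0 := by
  ext i
  rw [coeff_mapD, coeff_X, coeff_zero]
  split_ifs
  · exact D.map_one_eq_zero
  · exact map_zero D

/-- the derivations of `F(t)`: `none` is `d/dt`, `some i` is `D i` on the coefficients -/
noncomputable def DX {I : Type} (D : I → Derivation K F F) :
    Option I → Derivation K (RatFunc F) (RatFunc F)
  | none => extFrac (RatFunc F) ((Polynomial.derivative' (R := F)).restrictScalars K)
  | some i => extFrac (RatFunc F) (mapD (D i))

theorem DX_none {I : Type} (D : I → Derivation K F F) (p : F[X]) :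
    DX D none (algebraMap F[X] (RatFunc F) p) = algebraMap F[X] (RatFunc F) (derivative p) :=
  extFrac_algebraMap _ _

theorem DX_some {I : Type} (D : I → Derivation K F F) (i : I) (p : F[X]) :
    DX D (some i) (algebraMap F[X] (RatFunc F) p) = algebraMap F[X] (RatFunc F) (mapD (D i) p) :=
  extFrac_algebraMap _ _

/-- the logarithmic determinant `det (D_{v i} f_j / f_j)` -/
noncomputable def lam {I : Type} (D : I → Derivation K F F) {q : ℕ} (f : Fin q → F)
    (v : Fin q → I) : F :=
  (Matrix.of fun i j => D (v i) (f j) / f j).det

/-- the `K`-span of the logarithmic forms of degree `q` -/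
def Lam {I : Type} (D : I → Derivation K F F) (q : ℕ) : Submodule K ((Fin q → I) → F) :=
  Submodule.span K {g | ∃ f : Fin q → F, (∀ j, f j ≠ 0) ∧ g = lam D f}

/-- `y` is regular at the irreducible polynomial `P` -/
def Reg (P : F[X]) (y : RatFunc F) : Prop :=
  ∃ U V : F[X], ¬ P ∣ V ∧ y = algebraMap F[X] (RatFunc F) U / algebraMap F[X] (RatFunc F) V

/-- `y` has at most a simple pole at `P`, with numerator `C` -/
def Comp (P : F[X]) (y : RatFunc F) (C : F[X]) : Prop :=
  C.degree < P.degree ∧ Reg P (y - algebraMap F[X] (RatFunc F) C / algebraMap F[X] (RatFunc F) P)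

/-- `y` is regular at the point `α` with value `c` -/
def RegAt (α : F) (y : RatFunc F) (c : F) : Prop :=
  ∃ U V : F[X], V.eval α ≠ 0 ∧ y = algebraMap F[X] (RatFunc F) U / algebraMap F[X] (RatFunc F) V ∧
    c = U.eval α / V.eval α

/-- `y` vanishes at infinity -/
def Proper (y : RatFunc F) : Prop :=
  ∃ U V : F[X], V ≠ 0 ∧ U.degree < V.degree ∧
    y = algebraMap F[X] (RatFunc F) U / algebraMap F[X] (RatFunc F) V

end Rat

end Pool.Agent.H531R2.D4
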