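import Pool.Agent.H531R2.D4.MainE

set_option autoImplicit false
set_option linter.unusedSectionVars false

/-!
# From the main induction to algebraic independence after substitution
-/

namespace Pool.Agent.H531R2.D4

open Polynomial

variable {K : Type} [Field K] [CharZero K] {N : ℕ}

theorem dD_single (i : Fin N) (p : MvPolynomial (Fin N) K) :
    dD (Pi.single i 1) p = MvPolynomial.pderiv i p := by
  have : dD (Pi.single i (1 : K)) = MvPolynomial.pderiv i := by
    apply MvPolynomial.derivation_ext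
    intro j
    rw [dD, MvPolynomial.mkDerivation_X, MvPolynomial.pderiv_X]
    by_cases h : j = i
    · subst h
      rw [Pi.single_eq_same, Pi.single_eq_same, map_one]
    · rw [Pi.single_eq_of_ne h, Pi.single_eq_of_ne h, map_zero]
  rw [this]

theorem lam_algebraMap {r : ℕ} (T : Fin r → MvPolynomial (Fin N) K)
    (v : Fin r → (Fin N → K)) :
    lam (pD (K := K) (σ := Fin N)) (fun j => algebraMap _ (Rf (Fin N) K) (T j)) v =
      algebraMap _ (Rf (Fin N) K) (Matrix.of fun i j => dD (v i) (T j)).det /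
      algebraMap _ (Rf (Fin N) K) (∏ j, T j) := by
  have hinj := IsFractionRing.injective (MvPolynomial (Fin N) K) (Rf (Fin N) K)
  have h1 : (Matrix.of fun i j => pD (v i) (algebraMap _ (Rf (Fin N) K) (T j)) /
      algebraMap _ (Rf (Fin N) K) (T j)) =
      Matrix.of fun i j => (algebraMap _ (Rf (Fin N) K) (T j))⁻¹ *
        ((Matrix.of fun i j => dD (v i) (T j)).map (algebraMap _ (Rf (Fin N) K))) i j := by
    ext i j
    simp only [Matrix.of_apply, Matrix.map_apply]
    rw [pD_algebraMap, div_eq_inv_mul]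
  rw [lam, h1, Matrix.det_mul_row, ← RingHom.mapMatrix_apply, ← RingHom.map_det, map_prod,
    Finset.prod_inv_distrib, div_eq_inv_mul]

theorem exists_param {r δ : ℕ} (T : Fin r → MvPolynomial (Fin N) K)
    (hfac : ∀ j, ∀ g, Irreducible g → g ∣ T j → g.totalDegree ≤ δ)
    (hT : AlgebraicIndependent K T) :
    ∃ (b : Fin N → K) (a : Fin r → (Fin N → K)) (z : Fin r → K),
      SVD (DD r (r * δ + r + δ)) b ∧
      (∀ j, SVD (DD r (r * δ + r + δ) + DD r (r * δ + r + δ)) (a j)) ∧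
      MvPolynomial.eval (b + ∑ j, z j • a j) (Matrix.of fun i j => dD (a i) (T j)).det ≠ 0 := by
  classical
  have hinj := IsFractionRing.injective (MvPolynomial (Fin N) K) (Rf (Fin N) K)
  have hT0 : ∀ j, T j ≠ 0 := fun j => hT.ne_zero j
  obtain ⟨s, hs⟩ := det_of_algIndK T hT
  obtain ⟨𝒬, ι, _, H, h𝒬, -, hH, hB, hsum⟩ := expand T hT0 hfac
  have hprod : ∏ j, T j ≠ 0 := Finset.prod_ne_zero_iff.2 fun j _ => hT0 j
  have hprod' : algebraMap (MvPolynomial (Fin N) K) (Rf (Fin N) K) (∏ j, T j) ≠ 0 := fun h =>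
    hprod (hinj (h.trans (map_zero _).symm))
  have hne : ∑ s, H s ≠ 0 := by
    rw [hsum]
    intro h0
    have h1 := congrFun h0 (fun i => Pi.single (s i) 1)
    rw [lam_algebraMap T, Pi.zero_apply, div_eq_zero_iff] at h1
    have h2 := h1.resolve_right hprod'
    apply hs
    have h3 := hinj (h2.trans (map_zero _).symm)
    rw [← Matrix.det_transpose]
    rw [← h3]
    congr 1
    ext i j
    rw [Matrix.transpose_apply, Matrix.of_apply, Matrix.of_apply, dD_single]
  obtain ⟨𝒢, h𝒢1, h𝒢2⟩ : ∃ 𝒢 : Finset (MvPolynomial (Fin N) K),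
      (∀ g ∈ 𝒢, g ≠ 0 ∧ g.totalDegree ≤ r * δ + r + δ) ∧
      ∀ x : Fin N → K, (∀ g ∈ 𝒢, MvPolynomial.eval x g ≠ 0) →
        MvPolynomial.eval x (∏ j, T j) ≠ 0 := by
    obtain ⟨𝒬', e, c, hI, -, hc, hTe⟩ := J_factor T hT0 hfac
    refine ⟨𝒬', fun g hg => ⟨(hI.1 g hg).ne_zero, (hI.2.2 g hg).trans (by omega)⟩, ?_⟩
    intro x hx
    rw [map_prod]
    refine Finset.prod_ne_zero_iff.2 fun j _ => ?_
    rw [hTe j, map_mul, MvPolynomial.eval_C, map_prod]
    refine mul_ne_zero (hc j) (Finset.prod_ne_zero_iff.2 fun g hg => ?_)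
    rw [map_pow]
    exact pow_ne_zero _ (hx g hg)
  obtain ⟨b, a, z, hb, ha, hG, B, Q, hB0, hQ0, hBQ⟩ := main_q (K := K) (N := N) r _ 𝒬 𝒢 h𝒬 h𝒢1 ι H
    hH hB hne
  refine ⟨b, a, z, hb, ha, ?_⟩
  rw [hsum, lam_algebraMap T] at hBQ
  have hQ : algebraMap (MvPolynomial (Fin N) K) (Rf (Fin N) K) Q ≠ 0 := by
    intro h
    apply hQ0
    rw [hinj (h.trans (map_zero _).symm), map_zero]
  rw [div_eq_div_iff hprod' hQ, ← map_mul, ← map_mul] at hBQ
  have h1 := congrArg (MvPolynomial.eval (b + ∑ j, z j • a j)) (hinj hBQ)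
  rw [map_mul, map_mul] at h1
  intro h2
  rw [h2, zero_mul] at h1
  exact mul_ne_zero hB0 (h𝒢2 _ hG) h1.symm

end Pool.Agent.H531R2.D4
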