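import Pool.Agent.H531R2.D4.FinalA

set_option autoImplicit false
set_option linter.unusedSectionVars false

/-!
# The explicit substitution and the hitting property
-/

namespace Pool.Agent.H531R2.D4

open MvPolynomial

/-- the parameters of the substitution -/
abbrev Par (k D : ℕ) : Type :=
  (Fin D ⊕ Fin D) ⊕ (Fin k × ((Fin (D + D) ⊕ Fin (D + D)) ⊕ Unit))

/-- the Shpilka-Volkovich point over a commutative ring -/
def svR {R : Type} [CommRing R] {n D : ℕ} (u w : Fin D → R) (i : Fin n) : R :=
  ∑ l, u l * ∏ j ∈ Finset.univ.erase i, (w l - ((j : ℕ) : R))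

/-- the point with parameters `v` -/
def pt {R : Type} [CommRing R] (n : ℕ) {k D : ℕ} (v : Par k D → R) (i : Fin n) : R :=
  svR (fun l => v (.inl (.inl l))) (fun l => v (.inl (.inr l))) i +
    ∑ j, v (.inr (j, .inr ())) *
      svR (fun l => v (.inr (j, .inl (.inl l)))) (fun l => v (.inr (j, .inl (.inr l)))) i

theorem map_svR {R S : Type} [CommRing R] [CommRing S] (φ : R →+* S) {n D : ℕ} (u w : Fin D → R)
    (i : Fin n) : φ (svR u w i) = svR (fun l => φ (u l)) (fun l => φ (w l)) i := by
  simp only [svR, map_sum, map_mul, map_prod, map_sub, map_natCast]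

theorem map_pt {R S : Type} [CommRing R] [CommRing S] (φ : R →+* S) (n : ℕ) {k D : ℕ}
    (v : Par k D → R) (i : Fin n) : φ (pt n v i) = pt n (fun j => φ (v j)) i := by
  simp only [pt, map_add, map_svR, map_sum, map_mul]

variable {K : Type} [Field K] [CharZero K] {N : ℕ}

/-- the substitution -/
noncomputable def Phi (K : Type) [Field K] (N k D : ℕ) :
    MvPolynomial (Fin N) K →ₐ[K] MvPolynomial (Par k D) K :=
  aeval (pt N (X : Par k D → MvPolynomial (Par k D) K))

theorem svR_eq {D : ℕ} (u w : Fin D → K) (i : Fin N) : svR u w i = sv u w i := rfl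

/-- restriction to the affine space through `b` with directions `a j` -/
noncomputable def chi {r : ℕ} (b : Fin N → K) (a : Fin r → (Fin N → K)) :
    MvPolynomial (Fin N) K →ₐ[K] MvPolynomial (Fin r) K :=
  aeval (fun i => C (b i) + ∑ j, X j * C (a j i))

theorem pderiv_chi {r : ℕ} (b : Fin N → K) (a : Fin r → (Fin N → K)) (j : Fin r)
    (p : MvPolynomial (Fin N) K) : pderiv j (chi b a p) = chi b a (dD (a j) p) := by
  induction p using MvPolynomial.induction_on with
  | C c =>
    have h1 : dD (a j) (C c : MvPolynomial (Fin N) K) = 0 := (dD (a j)).map_algebraMap c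
    rw [h1, map_zero, chi, algHom_C, MvPolynomial.algebraMap_eq, pderiv_C]
  | add p q hp hq => rw [map_add, map_add, map_add, map_add, hp, hq]
  | mul_X p i hp =>
    have h1 : pderiv j (chi b a (X i)) = chi b a (dD (a j) (X i)) := by
      rw [dD, MvPolynomial.mkDerivation_X, chi, aeval_X, algHom_C, map_add, pderiv_C, zero_add,
        map_sum, MvPolynomial.algebraMap_eq, Finset.sum_eq_single j]
      · rw [pderiv_mul, pderiv_X_self, pderiv_C, mul_zero, one_mul, add_zero]
      · intro k _ hk
        rw [pderiv_mul, pderiv_X_of_ne hk, pderiv_C, mul_zero, zero_mul, add_zero]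
      · intro h
        exact absurd (Finset.mem_univ j) h
    rw [map_mul, pderiv_mul, Derivation.leibniz, map_add, hp, h1, smul_eq_mul, smul_eq_mul,
      map_mul, map_mul]
    ring

theorem eval_chi {r : ℕ} (b : Fin N → K) (a : Fin r → (Fin N → K)) (z : Fin r → K)
    (p : MvPolynomial (Fin N) K) :
    eval z (chi b a p) = eval (b + ∑ j, z j • a j) p := by
  have h : (eval z).comp (chi b a : MvPolynomial (Fin N) K →+* _) =
      eval (b + ∑ j, z j • a j) := by
    apply MvPolynomial.ringHom_ext
    · intro c
      simp [chi]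
    · intro i
      simp [chi, Finset.sum_apply]
  exact congrArg (fun g => g p) h

theorem algInd_chi {r : ℕ} (T : Fin r → MvPolynomial (Fin N) K) (b : Fin N → K)
    (a : Fin r → (Fin N → K)) (z : Fin r → K)
    (h : eval (b + ∑ j, z j • a j) (Matrix.of fun i j => dD (a i) (T j)).det ≠ 0) :
    AlgebraicIndependent K (fun j => chi b a (T j)) := by
  refine algInd_of_detK (fun i => pderiv i) _ ?_
  intro h0
  apply h
  rw [← eval_chi, AlgHom.map_det, ← Matrix.det_transpose]
  have h1 : ((chi b a).mapMatrix (Matrix.of fun i j => dD (a i) (T j))).transpose =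
      (Matrix.of fun i j => pderiv j (chi b a (T i))) := by
    ext i j
    rw [Matrix.transpose_apply, AlgHom.mapMatrix_apply, Matrix.map_apply, Matrix.of_apply,
      Matrix.of_apply, pderiv_chi]
  rw [h1, h0, map_zero]

theorem exists_spec {r e D : ℕ} {b : Fin N → K} {a : Fin r → (Fin N → K)} (hb : SVD D b)
    (ha : ∀ j, SVD (D + D) (a j)) :
    ∃ ρ : MvPolynomial (Par (r + e) D) K →ₐ[K] MvPolynomial (Fin r) K,
      ∀ p, ρ (Phi K N (r + e) D p) = chi b a p := by
  obtain ⟨u, w, rfl⟩ := hb
  choose U W hUW using ha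
  let f : Par (r + e) D → MvPolynomial (Fin r) K := fun x =>
    match x with
    | .inl (.inl l) => C (u l)
    | .inl (.inr l) => C (w l)
    | .inr (j, .inl (.inl l)) => C ((Fin.append U (fun _ => 0) : Fin (r + e) → Fin (D + D) → K) j l)
    | .inr (j, .inl (.inr l)) => C ((Fin.append W (fun _ => 0) : Fin (r + e) → Fin (D + D) → K) j l)
    | .inr (j, .inr _) => (Fin.append X (fun _ => 0) : Fin (r + e) → MvPolynomial (Fin r) K) j
  refine ⟨aeval f, fun p => ?_⟩
  have h : (aeval f : MvPolynomial (Par (r + e) D) K →ₐ[K] MvPolynomial (Fin r) K).comp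
      (Phi K N (r + e) D) = chi (sv u w) a := by
    apply MvPolynomial.algHom_ext
    intro i
    rw [AlgHom.comp_apply, Phi, aeval_X, chi, aeval_X]
    have h1 := map_pt (aeval f : MvPolynomial (Par (r + e) D) K →ₐ[K]
      MvPolynomial (Fin r) K).toRingHom N (X : Par (r + e) D → MvPolynomial (Par (r + e) D) K) i
    refine h1.trans ?_
    have h2 : (fun j : Par (r + e) D => (aeval f : MvPolynomial (Par (r + e) D) K →ₐ[K]
      MvPolynomial (Fin r) K).toRingHom (X j)) = f := by
      funext j
      exact aeval_X f j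
    rw [h2, pt, Fin.sum_univ_add]
    have h3 : ∑ j : Fin e, f (.inr (Fin.natAdd r j, .inr ())) *
        svR (fun l => f (.inr (Fin.natAdd r j, .inl (.inl l))))
          (fun l => f (.inr (Fin.natAdd r j, .inl (.inr l)))) i = 0 := by
      refine Finset.sum_eq_zero fun j _ => ?_
      have : f (.inr (Fin.natAdd r j, .inr ())) = 0 := by
        simp only [f, Fin.append_right]
      rw [this, zero_mul]
    rw [h3, add_zero]
    congr 1
    · have := map_svR (C : K →+* MvPolynomial (Fin r) K) u w i
      exact this.symm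
    · refine Finset.sum_congr rfl fun j _ => ?_
      have h4 : f (.inr (Fin.castAdd e j, .inr ())) = X j := by
        simp only [f, Fin.append_left]
      have h5 := map_svR (C : K →+* MvPolynomial (Fin r) K) (U j) (W j) i
      rw [svR_eq, ← hUW] at h5
      rw [h4, h5]
      simp only [f, Fin.append_left]
  exact congrArg (fun g => g p) h

/-- the substitution preserves algebraic independence -/
theorem Phi_algInd {r k δ : ℕ} (hr : r ≤ k) (T : Fin r → MvPolynomial (Fin N) K)
    (hfac : ∀ j, ∀ g, Irreducible g → g ∣ T j → g.totalDegree ≤ δ)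
    (hT : AlgebraicIndependent K T) :
    AlgebraicIndependent K (fun j => Phi K N k (DD k (k * δ + k + δ)) (T j)) := by
  obtain ⟨e, rfl⟩ := Nat.exists_eq_add_of_le hr
  obtain ⟨b, a, z, hb, ha, hdet⟩ := exists_param T hfac hT
  have hD : DD r (r * δ + r + δ) ≤ DD (r + e) ((r + e) * δ + (r + e) + δ) := by
    have h1 : r * δ + r + δ ≤ (r + e) * δ + (r + e) + δ := by nlinarith
    refine (DD_mono r h1).trans ?_
    generalize (r + e) * δ + (r + e) + δ = d
    clear hdet ha hb h1 hr
    induction e with
    | zero => exact le_refl _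
    | succ e ih => exact ih.trans (DD_le_succ (r + e) d)
  obtain ⟨ρ, hρ⟩ := exists_spec (e := e) (SVD_mono hD hb)
    (fun j => SVD_mono (Nat.add_le_add hD hD) (ha j))
  refine AlgebraicIndependent.of_comp ρ ?_
  have h1 : (ρ ∘ fun j => Phi K N (r + e) (DD (r + e) ((r + e) * δ + (r + e) + δ)) (T j)) =
      fun j => chi b a (T j) := by
    funext j
    exact hρ (T j)
  rw [h1]
  exact algInd_chi T b a z hdet

/-- the substitution is injective on polynomial expressions of products of polynomials of bounded
degree with bounded transcendence degree -/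
theorem Phi_ne_zero {k δ m : ℕ} (T : Fin m → MvPolynomial (Fin N) K)
    (hfac : ∀ j, T j ≠ 0 → ∀ g, Irreducible g → g ∣ T j → g.totalDegree ≤ δ)
    (hk : ∀ u : Fin (k + 1) → Fin m, ¬ AlgebraicIndependent K (fun a => T (u a)))
    {f : MvPolynomial (Fin N) K} (hf : f ∈ Algebra.adjoin K (Set.range T)) (hf0 : f ≠ 0) :
    Phi K N k (DD k (k * δ + k + δ)) f ≠ 0 := by
  intro h0
  apply hf0
  refine faithfulK T (Phi K N k (DD k (k * δ + k + δ))) hk ?_ hf h0
  intro r hr u hu
  exact Phi_algInd hr (fun a => T (u a)) (fun j g hg hgT => hfac (u j) (hu.ne_zero j) g hg hgT) hu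

end Pool.Agent.H531R2.D4
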