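import Pool.Agent.H531R2.D4.CaseB2

set_option autoImplicit false
set_option linter.unusedSectionVars false

/-!
# Preparations for the main induction
-/

namespace Pool.Agent.H531R2.D4

open Polynomial

section multilinear

variable {K : Type} [Field K] [CharZero K] {σ : Type}

theorem dD_add (v w : σ → K) (p : MvPolynomial σ K) : dD (v + w) p = dD v p + dD w p := by
  have : dD (v + w) = dD v + dD w := by
    apply MvPolynomial.derivation_ext
    intro i
    rw [Derivation.add_apply]
    simp [dD, MvPolynomial.mkDerivation_X]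
  rw [this, Derivation.add_apply]

theorem dD_smul (c : K) (w : σ → K) (p : MvPolynomial σ K) : dD (c • w) p = c • dD w p := by
  have : dD (c • w) = c • dD w := by
    apply MvPolynomial.derivation_ext
    intro i
    rw [Derivation.smul_apply]
    simp [dD, MvPolynomial.mkDerivation_X, MvPolynomial.smul_eq_C_mul]
  rw [this, Derivation.smul_apply]

theorem pD_add (v w : σ → K) (f : Rf σ K) : pD (v + w) f = pD v f + pD w f := by
  have := der_compat0 (A := MvPolynomial σ K) (RingHom.id (Rf σ K)) (pD (v + w)) (pD v + pD w)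
    (by
      intro a
      rw [RingHom.id_apply, RingHom.id_apply, Derivation.add_apply, pD_algebraMap, pD_algebraMap,
        pD_algebraMap, dD_add, map_add]) f
  rwa [RingHom.id_apply, RingHom.id_apply, Derivation.add_apply] at this

theorem pD_smul (c : K) (w : σ → K) (f : Rf σ K) : pD (c • w) f = c • pD w f := by
  have := der_compat0 (A := MvPolynomial σ K) (RingHom.id (Rf σ K)) (pD (c • w)) (c • pD w)
    (by
      intro a
      rw [RingHom.id_apply, RingHom.id_apply, Derivation.smul_apply, pD_algebraMap, pD_algebraMap,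
        dD_smul, Algebra.smul_def, Algebra.smul_def, map_mul,
        ← IsScalarTower.algebraMap_apply]) f
  rwa [RingHom.id_apply, RingHom.id_apply, Derivation.smul_apply] at this

/-- the row of logarithmic derivatives, linear in the direction -/
noncomputable def rowL {q : ℕ} (f : Fin q → Rf σ K) : (σ → K) →ₗ[K] (Fin q → Rf σ K) where
  toFun v := fun j => pD v (f j) / f j
  map_add' v w := by
    funext j
    rw [Pi.add_apply, pD_add, add_div]
  map_smul' c w := by
    funext j
    rw [Pi.smul_apply, pD_smul, smul_div_assoc, RingHom.id_apply]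

theorem Lam_multilinear {q : ℕ} {H : (Fin q → (σ → K)) → Rf σ K} (hH : H ∈ Lam pD q) :
    ∃ M : MultilinearMap K (fun _ : Fin q => σ → K) (Rf σ K), ∀ v, M v = H v := by
  refine Lam_induction (K := K) (F := Rf σ K) (I := σ → K) (pD (K := K) (σ := σ)) (p := fun H =>
    ∃ M : MultilinearMap K (fun _ : Fin q => σ → K) (Rf σ K), ∀ v, M v = H v) hH ?_ ?_ ?_ ?_
  · intro f _
    let M0 : MultilinearMap K (fun _ : Fin q => (Fin q → Rf σ K)) (Rf σ K) :=
      (Matrix.detRowAlternating (R := Rf σ K) (n := Fin q)).toMultilinearMap.restrictScalars K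
    refine ⟨M0.compLinearMap (fun _ => rowL f), fun v => rfl⟩
  · exact ⟨0, fun v => rfl⟩
  · rintro x y ⟨M, hM⟩ ⟨M', hM'⟩
    exact ⟨M + M', fun v => by rw [MultilinearMap.add_apply, hM, hM', Pi.add_apply]⟩
  · rintro c x ⟨M, hM⟩
    exact ⟨c • M, fun v => by rw [MultilinearMap.smul_apply, hM, Pi.smul_apply]⟩

theorem exists_basis_ne [Finite σ] [DecidableEq σ] {q : ℕ} {H : (Fin q → (σ → K)) → Rf σ K}
    (hH : H ∈ Lam pD q) (hne : H ≠ 0) : ∃ f : Fin q → σ, H (fun i => Pi.single (f i) 1) ≠ 0 := by
  have := Fintype.ofFinite σ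
  obtain ⟨M, hM⟩ := Lam_multilinear hH
  by_contra hcon
  push Not at hcon
  apply hne
  have h1 : M = 0 := by
    apply Module.Basis.ext_multilinear (fun _ => Pi.basisFun K σ)
    intro v
    rw [MultilinearMap.zero_apply, hM]
    have := hcon v
    simpa [Pi.basisFun_apply] using this
  funext v
  rw [← hM, h1]
  rfl

end multilinear

section sv

variable {K : Type} [Field K] [CharZero K] {N : ℕ}

/-- the Shpilka-Volkovich points with `D` parameter pairs -/
def SVD (D : ℕ) (x : Fin N → K) : Prop := ∃ u w : Fin D → K, x = sv u w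

theorem SVD_add {D D' : ℕ} {x y : Fin N → K} (hx : SVD D x) (hy : SVD D' y) (μ : K) :
    SVD (D + D') (x + μ • y) := by
  obtain ⟨u, w, rfl⟩ := hx
  obtain ⟨u', w', rfl⟩ := hy
  refine ⟨Fin.append u (μ • u'), Fin.append w w', ?_⟩
  funext i
  rw [Pi.add_apply, Pi.smul_apply, sv, sv, sv, Fin.sum_univ_add]
  simp only [Fin.append_left, Fin.append_right, Pi.smul_apply, smul_eq_mul, Finset.mul_sum,
    mul_assoc]

theorem SVD_zero (D : ℕ) : SVD D (0 : Fin N → K) := ⟨0, 0, by
  funext i
  simp [sv]⟩

theorem SVD_mono {D D' : ℕ} (h : D ≤ D') {x : Fin N → K} (hx : SVD D x) : SVD D' x := by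
  obtain ⟨e, rfl⟩ := Nat.exists_eq_add_of_le h
  have := SVD_add hx (SVD_zero (K := K) (N := N) e) 0
  simpa using this

theorem SVD_single {D : ℕ} (hD : 1 ≤ D) (i : Fin N) : SVD D (Pi.single i (1 : K)) := by
  refine SVD_mono hD ?_
  refine ⟨fun _ => (∏ j ∈ Finset.univ.erase i, (((i : ℕ) : K) - ((j : ℕ) : K)))⁻¹,
    fun _ => ((i : ℕ) : K), ?_⟩
  funext k
  rw [sv, Fin.sum_univ_one]
  have hne : (∏ j ∈ Finset.univ.erase i, (((i : ℕ) : K) - ((j : ℕ) : K))) ≠ 0 := by
    refine Finset.prod_ne_zero_iff.2 fun j hj => ?_
    rw [sub_ne_zero]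
    intro h
    have h2 : (i : ℕ) = (j : ℕ) := by exact_mod_cast h
    exact (Finset.ne_of_mem_erase hj) (Fin.ext h2.symm)
  by_cases hk : k = i
  · subst hk
    rw [Pi.single_eq_same, inv_mul_cancel₀ hne]
  · rw [Pi.single_eq_of_ne hk]
    symm
    refine mul_eq_zero_of_right _ ?_
    apply Finset.prod_eq_zero (i := i)
    · rw [Finset.mem_erase]
      exact ⟨fun h => hk h.symm, Finset.mem_univ _⟩
    · rw [sub_self]

end sv

section dir

variable {K : Type} [Field K] [CharZero K] {N : ℕ}

/-- the top form of `g` is nonzero at `a` -/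
def TopNe (g : MvPolynomial (Fin N) K) (a : Fin N → K) : Prop :=
  MvPolynomial.eval a (MvPolynomial.homogeneousComponent g.totalDegree g) ≠ 0

theorem top_ne_zero {g : MvPolynomial (Fin N) K} (hg : g ≠ 0) :
    MvPolynomial.homogeneousComponent g.totalDegree g ≠ 0 := by
  have hs : g.support.Nonempty := by
    rw [Finset.nonempty_iff_ne_empty]
    intro h
    exact hg (MvPolynomial.support_eq_empty.1 h)
  obtain ⟨m, hm, hmd⟩ := Finset.exists_mem_eq_sup g.support hs (fun s => s.sum fun _ e => e)
  intro h
  have h1 := congrArg (MvPolynomial.coeff m) h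
  rw [MvPolynomial.coeff_homogeneousComponent, MvPolynomial.coeff_zero, if_pos] at h1
  · exact MvPolynomial.mem_support_iff.1 hm h1
  · rw [MvPolynomial.totalDegree, hmd]
    rfl

theorem exists_dir {D : ℕ} (hD : 1 ≤ D) (T : Finset (MvPolynomial (Fin N) K))
    (hT : ∀ g ∈ T, g ≠ 0 ∧ g.totalDegree ≤ D) {L : Type} [Field L] [Algebra K L]
    (f : (Fin N → K) →ₗ[K] L) (hf : f ≠ 0) :
    ∃ x : Fin N → K, SVD D x ∧ f x ≠ 0 ∧ ∀ g ∈ T, TopNe g x := by
  classical
  have hinj : Function.Injective (algebraMap K L) := (algebraMap K L).injective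
  let ell : MvPolynomial (Fin N) L :=
    ∑ i, MvPolynomial.C (f (Pi.single i 1)) * MvPolynomial.X i
  have hell : ∀ x : Fin N → K, MvPolynomial.eval (fun j => algebraMap K L (x j)) ell = f x := by
    intro x
    have h1 : x = ∑ i, x i • (Pi.single i (1 : K) : Fin N → K) := by
      funext j
      simp [Finset.sum_apply, Pi.single_apply]
    conv_rhs => rw [h1]
    rw [map_sum, map_sum]
    refine Finset.sum_congr rfl fun i _ => ?_
    rw [map_mul, MvPolynomial.eval_C, MvPolynomial.eval_X, map_smul, Algebra.smul_def, mul_comm]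
  have hell0 : ell ≠ 0 := by
    intro h
    apply hf
    ext x
    have := hell (LinearMap.single K (fun _ => K) x 1)
    rw [h, map_zero] at this
    simp only [LinearMap.comp_apply, LinearMap.zero_apply]
    exact this.symm
  let G : Option (MvPolynomial (Fin N) K) → MvPolynomial (Fin N) L := fun o =>
    match o with
    | none => ell
    | some g => MvPolynomial.map (algebraMap K L)
        (MvPolynomial.homogeneousComponent g.totalDegree g)
  obtain ⟨u, w, huw⟩ := exists_sv (K := K) (N := N) (D := D) (L := L) (Finset.insertNone T) G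
    (by
      intro o ho
      cases o with
      | none => exact hell0
      | some g =>
        have hg := hT g (Finset.some_mem_insertNone.1 ho)
        have h1 := top_ne_zero hg.1
        intro h
        apply h1
        exact MvPolynomial.map_injective _ hinj (h.trans (map_zero _).symm))
    (by
      intro o ho
      cases o with
      | none =>
        refine (MvPolynomial.totalDegree_finsetSum _ _).trans (Finset.sup_le fun i _ => ?_)
        refine (MvPolynomial.totalDegree_mul _ _).trans ?_
        rw [MvPolynomial.totalDegree_C, MvPolynomial.totalDegree_X, zero_add]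
        exact hD
      | some g =>
        have hg := hT g (Finset.some_mem_insertNone.1 ho)
        have h1 := MvPolynomial.homogeneousComponent_isHomogeneous g.totalDegree g
        exact (h1.map (algebraMap K L)).totalDegree_le.trans hg.2)
  refine ⟨sv u w, ⟨u, w, rfl⟩, ?_, ?_⟩
  · have := huw none Finset.none_mem_insertNone
    rw [← hell]
    exact this
  · intro g hg
    have h1 := huw (some g) (Finset.some_mem_insertNone.2 hg)
    intro h2
    apply h1
    change MvPolynomial.eval (fun j => algebraMap K L (sv u w j)) (MvPolynomial.map (algebraMap K L)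
        (MvPolynomial.homogeneousComponent g.totalDegree g)) = 0
    have h3 := MvPolynomial.eval₂_comp (algebraMap K L) (sv u w : Fin N → K)
      (MvPolynomial.homogeneousComponent g.totalDegree g)
    rw [h2, map_zero] at h3
    rw [MvPolynomial.eval_map]
    exact h3.symm

end dir

end Pool.Agent.H531R2.D4
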