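import Pool.Agent.H531R2.D4.ShDefs

set_option autoImplicit false
set_option linter.unusedSectionVars false

/-!
# Logarithmic forms of degree one
-/

namespace Pool.Agent.H531R2.D4

open Polynomial

variable {K F : Type} [Field K] [Field F] [Algebra K F] {I : Type} (D : I → Derivation K F F)

theorem logder_poly {P : F[X]} (hP : Irreducible P) {U : F[X]} (hU : U ≠ 0) :
    ∃ m : ℕ, Comp P (algebraMap F[X] (RatFunc F) (derivative U) / algebraMap F[X] (RatFunc F) U)
      (C (m : F) * derivative P) := by
  have hfin : FiniteMultiplicity P U := FiniteMultiplicity.of_prime_left hP.prime hU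
  obtain ⟨W, hUW, hW⟩ := hfin.exists_eq_pow_mul_and_not_dvd
  set m := multiplicity P U
  have hP1 := ι_ne hP.ne_zero
  have hW1 := ι_ne (ne_of_not_dvd hW)
  refine ⟨m, ?_, ?_⟩
  · refine lt_of_le_of_lt ?_ (degree_derivative_lt hP.ne_zero)
    by_cases hm : (m : F) = 0
    · rw [hm, map_zero, zero_mul, degree_zero]; exact bot_le
    · rw [degree_C_mul hm]
  · have h1 : algebraMap F[X] (RatFunc F) (derivative U) / algebraMap F[X] (RatFunc F) U -
        algebraMap F[X] (RatFunc F) (C (m : F) * derivative P) / algebraMap F[X] (RatFunc F) P =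
        algebraMap F[X] (RatFunc F) (derivative W) / algebraMap F[X] (RatFunc F) W := by
      rw [hUW]
      rcases Nat.eq_zero_or_pos m with hm | hm
      · simp [hm]
      · obtain ⟨k, hk⟩ := Nat.exists_eq_add_of_lt hm
        rw [zero_add] at hk
        rw [hk, derivative_mul, derivative_pow]
        simp only [map_add, map_mul, map_pow, Nat.add_sub_cancel]
        field_simp
        ring
    rw [h1]
    exact ⟨derivative W, W, hW, rfl⟩

theorem comp_one {P : F[X]} (hP : Irreducible P) {H : (Fin 1 → Option I) → RatFunc F}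
    (hH : H ∈ Lam (DX D) 1) : ∃ c : K, ∀ w : Fin 0 → Option I,
      Comp P (H (Fin.cons none w)) (C (algebraMap K F c) * derivative P) := by
  refine Lam_induction (DX D) (p := fun H => ∃ c : K, ∀ w : Fin 0 → Option I,
      Comp P (H (Fin.cons none w)) (C (algebraMap K F c) * derivative P)) hH ?_ ?_ ?_ ?_
  · intro f hf
    obtain ⟨U, V, hV, hUV⟩ := IsFractionRing.div_surjective (A := F[X]) (f 0)
    have hV0 : V ≠ 0 := nonZeroDivisors.ne_zero hV
    have hU0 : U ≠ 0 := by
      rintro rfl
      apply hf 0
      rw [← hUV, map_zero, zero_div]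
    obtain ⟨m, hm⟩ := logder_poly hP hU0
    obtain ⟨m', hm'⟩ := logder_poly hP hV0
    refine ⟨(m : K) - (m' : K), fun w => ?_⟩
    have h1 : lam (DX D) f (Fin.cons none w) =
        algebraMap F[X] (RatFunc F) (derivative U) / algebraMap F[X] (RatFunc F) U +
        -(algebraMap F[X] (RatFunc F) (derivative V) / algebraMap F[X] (RatFunc F) V) := by
      rw [lam, Matrix.det_fin_one, Matrix.of_apply, Fin.cons_zero]
      have h2 := logder_mul (DX D none) (hf 0) (ι_ne hV0)
      have h3 : f 0 * algebraMap F[X] (RatFunc F) V = algebraMap F[X] (RatFunc F) U := by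
        rw [← hUV, div_mul_cancel₀ _ (ι_ne hV0)]
      rw [h3, DX_none, DX_none] at h2
      rw [h2]
      ring
    rw [h1]
    have h4 := hm.add hP hm'.neg
    have h5 : C ((m : F)) * derivative P + -(C (m' : F) * derivative P) =
        C (algebraMap K F ((m : K) - (m' : K))) * derivative P := by
      simp only [map_sub, map_natCast, sub_mul]
      ring
    rw [h5] at h4
    exact h4
  · refine ⟨0, fun w => ?_⟩
    rw [map_zero, map_zero, zero_mul]
    exact comp_zero_of_reg hP (reg_zero hP)
  · rintro x y ⟨c, hc⟩ ⟨c', hc'⟩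
    refine ⟨c + c', fun w => ?_⟩
    have := (hc w).add hP (hc' w)
    rw [map_add, map_add, add_mul]
    exact this
  · rintro a x ⟨c, hc⟩
    refine ⟨a * c, fun w => ?_⟩
    have := (hc w).polC_mul hP (algebraMap K F a)
    rw [map_mul, map_mul, mul_assoc]
    rw [Pi.smul_apply, Algebra.smul_def, IsScalarTower.algebraMap_apply K F (RatFunc F)]
    exact this

/-- a form of degree one whose numerator has vanishing top coefficient is regular -/
theorem comp_one_zero [CharZero F] {P : F[X]} (hP : Irreducible P) (hm : P.Monic)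
    {H : (Fin 1 → Option I) → RatFunc F}
    (hH : H ∈ Lam (DX D) 1) (w : Fin 0 → Option I) {C' : F[X]}
    (hC : Comp P (H (Fin.cons none w)) C') (h0 : C'.coeff (P.natDegree - 1) = 0) : C' = 0 := by
  obtain ⟨c, hc⟩ := comp_one D hP hH
  have h1 := comp_unique hP hC (hc w)
  have hn : 0 < P.natDegree := hP.natDegree_pos
  rw [h1, coeff_C_mul, coeff_derivative, Nat.sub_add_cancel hn] at h0
  have h2 : P.coeff P.natDegree = 1 := hm
  rw [h2, one_mul] at h0
  have h3 : ((P.natDegree - 1 : ℕ) : F) + 1 ≠ 0 := Nat.cast_add_one_ne_zero _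
  have h4 : algebraMap K F c = 0 := (mul_eq_zero.1 h0).resolve_right h3
  rw [h1, h4, map_zero, zero_mul]

end Pool.Agent.H531R2.D4
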