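import Pool.Agent.H531R2.D4.MainA
import Pool.Agent.H531R2.D4.MainB

set_option autoImplicit false
set_option linter.unusedSectionVars false

/-!
# Preparations for the main induction, second part
-/

namespace Pool.Agent.H531R2.D4

open Polynomial

section factor

variable {K : Type} [Field K] {σ : Type}

theorem one_le_totalDegree {g : MvPolynomial σ K} (hg : Irreducible g) : 1 ≤ g.totalDegree := by
  by_contra h
  have h0 : g.totalDegree = 0 := by omega
  have h1 := MvPolynomial.totalDegree_eq_zero_iff_eq_C.1 h0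
  have hc : MvPolynomial.coeff 0 g ≠ 0 := by
    intro h2
    rw [h2, map_zero] at h1
    exact hg.ne_zero h1
  apply hg.not_isUnit
  rw [h1]
  exact (isUnit_iff_ne_zero.2 hc).map MvPolynomial.C

theorem card_le_totalDegree (S : Multiset (MvPolynomial σ K)) (hS : ∀ g ∈ S, Irreducible g) :
    Multiset.card S ≤ S.prod.totalDegree := by
  induction S using Multiset.induction_on with
  | empty => simp
  | cons g S ih =>
    rw [Multiset.card_cons, Multiset.prod_cons, MvPolynomial.totalDegree_mul_of_isDomain]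
    · have h1 := one_le_totalDegree (hS g (Multiset.mem_cons_self g S))
      have h2 := ih fun x hx => hS x (Multiset.mem_cons_of_mem hx)
      omega
    · exact (hS g (Multiset.mem_cons_self g S)).ne_zero
    · rw [Ne, Multiset.prod_eq_zero_iff]
      intro h
      exact (hS 0 (Multiset.mem_cons_of_mem h)).ne_zero rfl

/-- simultaneous factorisation of a finite set of polynomials -/
theorem factor_set (𝒩 : Finset (MvPolynomial σ K)) (h0 : ∀ g ∈ 𝒩, g ≠ 0) {e : ℕ}
    (he : ∀ g ∈ 𝒩, g.totalDegree ≤ e) :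
    ∃ 𝒬' : Finset (MvPolynomial σ K), Irr 𝒬' e ∧
      ∀ S : Multiset (MvPolynomial σ K), (∀ g ∈ S, g ∈ 𝒩) →
        ∃ (c : K) (S' : Multiset (MvPolynomial σ K)), c ≠ 0 ∧ (∀ g ∈ S', g ∈ 𝒬') ∧
          Multiset.card S' ≤ Multiset.card S * e ∧ S.prod = MvPolynomial.C c * S'.prod := by
  classical
  let _ : StrongNormalizationMonoid (MvPolynomial σ K) :=
    UniqueFactorizationMonoid.strongNormalizationMonoid
  let 𝒬 : Finset (MvPolynomial σ K) := 𝒩.biUnion
    (fun g => (UniqueFactorizationMonoid.normalizedFactors g).toFinset)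
  have h𝒬 : ∀ g ∈ 𝒬, ∃ j ∈ 𝒩, g ∈ UniqueFactorizationMonoid.normalizedFactors j := by
    intro g hg
    obtain ⟨j, hj1, hj⟩ := Finset.mem_biUnion.1 hg
    exact ⟨j, hj1, Multiset.mem_toFinset.1 hj⟩
  refine ⟨𝒬, ⟨?_, ?_, ?_⟩, ?_⟩
  · intro p hp
    obtain ⟨j, -, hj⟩ := h𝒬 p hp
    exact UniqueFactorizationMonoid.irreducible_of_normalized_factor p hj
  · intro p hp q hq hpq
    obtain ⟨j, -, hj⟩ := h𝒬 p hp
    obtain ⟨j', -, hj'⟩ := h𝒬 q hq
    exact hpq.eq_of_normalized (UniqueFactorizationMonoid.normalize_normalized_factor p hj)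
      (UniqueFactorizationMonoid.normalize_normalized_factor q hj')
  · intro p hp
    obtain ⟨j, hj1, hj⟩ := h𝒬 p hp
    obtain ⟨r, hr⟩ := UniqueFactorizationMonoid.dvd_of_mem_normalizedFactors hj
    have h1 := h0 j hj1
    have h2 := he j hj1
    rw [hr, MvPolynomial.totalDegree_mul_of_isDomain (left_ne_zero_of_mul (hr ▸ h1))
      (right_ne_zero_of_mul (hr ▸ h1))] at h2
    omega
  · have key : ∀ g ∈ 𝒩, ∃ (c : K) (S' : Multiset (MvPolynomial σ K)), c ≠ 0 ∧
        (∀ g ∈ S', g ∈ 𝒬) ∧ Multiset.card S' ≤ e ∧ g = MvPolynomial.C c * S'.prod := by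
      intro g hg
      obtain ⟨u, hu⟩ := UniqueFactorizationMonoid.prod_normalizedFactors (h0 g hg)
      obtain ⟨c, hc, hcu⟩ := MvPolynomial.isUnit_iff_eq_C_of_isReduced.1 u.isUnit
      have hirr : ∀ x ∈ UniqueFactorizationMonoid.normalizedFactors g, Irreducible x :=
        fun x hx => UniqueFactorizationMonoid.irreducible_of_normalized_factor x hx
      have hg2 : g = MvPolynomial.C c * (UniqueFactorizationMonoid.normalizedFactors g).prod := by
        rw [← hcu, mul_comm]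
        exact hu.symm
      refine ⟨c, UniqueFactorizationMonoid.normalizedFactors g, hc.ne_zero, ?_, ?_, hg2⟩
      · intro x hx
        exact Finset.mem_biUnion.2 ⟨g, hg, Multiset.mem_toFinset.2 hx⟩
      · refine (card_le_totalDegree _ hirr).trans (le_trans ?_ (he g hg))
        conv_rhs => rw [hg2]
        rw [MvPolynomial.totalDegree_mul_of_isDomain]
        · exact Nat.le_add_left _ _
        · rw [Ne, MvPolynomial.C_eq_zero]
          exact hc.ne_zero
        · rw [Ne, Multiset.prod_eq_zero_iff]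
          intro h
          exact (hirr 0 h).ne_zero rfl
    intro S
    induction S using Multiset.induction_on with
    | empty =>
      intro _
      exact ⟨1, 0, one_ne_zero, by simp, by simp, by simp⟩
    | cons g S ih =>
      intro hS
      obtain ⟨c, S', hc, hS'1, hS'2, hS'3⟩ := ih fun x hx => hS x (Multiset.mem_cons_of_mem hx)
      obtain ⟨c', S'', hc', hS''1, hS''2, hS''3⟩ := key g (hS g (Multiset.mem_cons_self g S))
      refine ⟨c' * c, S'' + S', mul_ne_zero hc' hc, ?_, ?_, ?_⟩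
      · intro x hx
        rcases Multiset.mem_add.1 hx with h | h
        · exact hS''1 x h
        · exact hS'1 x h
      · rw [Multiset.card_add, Multiset.card_cons]
        nlinarith
      · rw [Multiset.prod_cons, Multiset.prod_add, hS'3, map_mul]
        conv_lhs => rw [hS''3]
        ring

end factor

variable {K : Type} [Field K] [CharZero K] {σ : Type}

theorem bdd_step (𝒬 : Finset (MvPolynomial σ K)) {d : ℕ} (h𝒬 : Irr 𝒬 d) (a : σ → K)
    (hm : ∀ p ∈ 𝒬, Mon p a) {p : MvPolynomial σ K} (hp : p ∈ 𝒬) {h : Rf σ K} (hB : Bdd 𝒬 d h)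
    {C : (Rf σ K)[X]} (hC : Comp (Pm a p) (shF a h) C) (𝒬' : Finset (MvPolynomial σ K))
    (hI : ∀ g ∈ 𝒬', Irreducible g)
    (h𝒬' : ∀ S : Multiset (MvPolynomial σ K), (∀ g ∈ S, ∃ q ∈ 𝒬, q ≠ p ∧ g = Nn a p q) →
        ∃ (c : K) (S' : Multiset (MvPolynomial σ K)), c ≠ 0 ∧ (∀ g ∈ S', g ∈ 𝒬') ∧
          Multiset.card S' ≤ Multiset.card S * (2 * d * d) ∧
          S.prod = MvPolynomial.C c * S'.prod) (i : ℕ) :
    Bdd 𝒬' (8 * (d + 1) ^ 4) (C.coeff i) := by
  obtain ⟨S, B, R, hS, hcard, -, -, -, hR, hC2⟩ := comp_bound 𝒬 h𝒬 a hm hp hB hC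
  obtain ⟨c, S', hc, hS'1, hS'2, hS'3⟩ := h𝒬' (S.map (fun g => Nn a p g)) (by
    intro g hg
    obtain ⟨x, hx, rfl⟩ := Multiset.mem_map.1 hg
    exact ⟨x, (hS x hx).1, (hS x hx).2, rfl⟩)
  rw [Multiset.card_map] at hS'2
  refine ⟨S', MvPolynomial.C c⁻¹ * R.coeff i, hS'1, ?_, ?_, ?_⟩
  · have h1 : Multiset.card S * (2 * d * d) ≤ d * (2 * d * d) := Nat.mul_le_mul_right _ hcard
    have h2 : d * (2 * d * d) ≤ 8 * (d + 1) ^ 4 := by
      have : (d + 1) ^ 4 = d ^ 4 + 4 * d ^ 3 + 6 * d ^ 2 + 4 * d + 1 := by ring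
      have h3 : d * (2 * d * d) = 2 * d ^ 3 := by ring
      rw [this, h3]
      nlinarith [Nat.zero_le (d ^ 4), Nat.zero_le (d ^ 3), Nat.zero_le (d ^ 2)]
    omega
  · refine (MvPolynomial.totalDegree_mul _ _).trans ?_
    rw [MvPolynomial.totalDegree_C, zero_add]
    exact hR i
  · have h1 := congrArg (fun f => f.coeff i) hC2
    simp only [coeff_C_mul, coeff_map] at h1
    rw [hS'3, map_mul] at h1
    have h4 := algebraMap_C_ne (σ := σ) hc
    have h3 : S'.prod ≠ 0 := by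
      rw [Ne, Multiset.prod_eq_zero_iff]
      intro h
      exact (hI 0 (hS'1 0 h)).ne_zero rfl
    have h5 : algebraMap (MvPolynomial σ K) (Rf σ K) S'.prod ≠ 0 := by
      intro h
      apply h3
      exact IsFractionRing.injective (MvPolynomial σ K) (Rf σ K) (h.trans (map_zero _).symm)
    rw [map_mul, ← algebraMap_C_inv hc, eq_div_iff h5, ← h1]
    field_simp

/-- a simultaneous non-root of finitely many nonzero polynomials -/
theorem exists_nonroot {α : Type} (s : Finset α) (E : α → K[X]) (hE : ∀ i ∈ s, E i ≠ 0) :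
    ∃ z : K, ∀ i ∈ s, (E i).eval z ≠ 0 := by
  have h1 : ∏ i ∈ s, E i ≠ 0 := Finset.prod_ne_zero_iff.2 hE
  by_contra hcon
  push Not at hcon
  apply h1
  apply Polynomial.funext
  intro z
  obtain ⟨i, hi, hz⟩ := hcon z
  rw [eval_prod, eval_zero]
  exact Finset.prod_eq_zero hi hz

/-- the restriction of a polynomial to a line -/
theorem exists_line (x a : σ → K) (g : MvPolynomial σ K) (h : MvPolynomial.eval x g ≠ 0) :
    ∃ E : K[X], E ≠ 0 ∧ ∀ z, E.eval z = MvPolynomial.eval (mv x a z) g := by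
  refine ⟨(sh a g).map (MvPolynomial.aeval x : MvPolynomial σ K →ₐ[K] K).toRingHom, ?_, ?_⟩
  · intro h0
    apply h
    have h1 := eval_map_sh a g x (0 : K)
    rw [h0, eval_zero] at h1
    have h2 : (mv x a 0 : σ → K) = x := by
      funext i
      rw [mv, mul_zero, add_zero]
    rw [h2] at h1
    exact h1.symm
  · intro z
    rw [eval_map_sh]
    rfl

theorem mv_eq (x a : σ → K) (z : K) : mv x a z = x + z • a := by
  funext i
  rw [mv, Pi.add_apply, Pi.smul_apply, smul_eq_mul, mul_comm z]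
  rfl

theorem Lam_linear {q : ℕ} {H : (Fin (q + 1) → (σ → K)) → Rf σ K} (hH : H ∈ Lam pD (q + 1))
    (w : Fin q → (σ → K)) :
    ∃ f : (σ → K) →ₗ[K] Rf σ K, ∀ v, f v = H (Fin.cons v w) := by
  obtain ⟨M, hM⟩ := Lam_multilinear hH
  refine ⟨M.toLinearMap (Fin.cons 0 w) 0, fun v => ?_⟩
  rw [MultilinearMap.toLinearMap_apply, Fin.update_cons_zero, hM]

theorem Lam_linear2 {q : ℕ} {H : (Fin (q + 2) → (σ → K)) → Rf σ K} (hH : H ∈ Lam pD (q + 2))
    (a : σ → K) (w : Fin q → (σ → K)) :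
    ∃ f : (σ → K) →ₗ[K] Rf σ K, ∀ v, f v = H (Fin.cons a (Fin.cons v w)) := by
  obtain ⟨M, hM⟩ := Lam_multilinear hH
  refine ⟨(M.curryLeft a).toLinearMap (Fin.cons 0 w) 0, fun v => ?_⟩
  rw [MultilinearMap.toLinearMap_apply, Fin.update_cons_zero, MultilinearMap.curryLeft_apply, hM]

/-- changing the first direction by a multiple of the second one -/
theorem Lam_shear {q : ℕ} {H : (Fin (q + 2) → (σ → K)) → Rf σ K} (hH : H ∈ Lam pD (q + 2))
    (a b : σ → K) (μ : K) (w : Fin q → (σ → K)) :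
    H (Fin.cons (a + μ • b) (Fin.cons b w)) = H (Fin.cons a (Fin.cons b w)) := by
  obtain ⟨f, hf⟩ := Lam_linear hH (Fin.cons b w)
  rw [← hf, ← hf, map_add, map_smul, hf b]
  have h1 : H (Fin.cons b (Fin.cons b w)) = 0 := by
    refine Lam_eq_zero (pD (K := K) (σ := σ)) hH _ (i := 0) (j := 1) (by simp) ?_
    rw [Fin.cons_zero, ← Fin.succ_zero_eq_one, Fin.cons_succ, Fin.cons_zero]
  rw [h1, smul_zero, add_zero]

/-- residues along the direction `a` -/
theorem res_sh (a : σ → K) {p : MvPolynomial σ K} (hp : Irreducible p) (hm : Mon p a) {q : ℕ}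
    {H : (Fin (q + 1) → (σ → K)) → Rf σ K} (hH : H ∈ Lam pD (q + 1)) :
    ∃ Ψ ∈ Lam (pD (K := K) (σ := σ)) q, ∃ C : (Fin q → (σ → K)) → (Rf σ K)[X],
      ∀ v, Comp (Pm a p) (shF a (H (Fin.cons a v))) (C v) ∧
        (C v).coeff ((Pm a p).natDegree - 1) = Ψ v := by
  obtain ⟨H', hH', hH'2⟩ := pull_sh a hH
  obtain ⟨Ψ, hΨ, h⟩ := res_trace (K := K) (F := Rf σ K) (I := σ → K) (pD (K := K) (σ := σ))
    (Pm_irreducible a hp hm) (Pm_monic a hp.ne_zero) hH'
  choose C hC using h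
  refine ⟨Ψ, hΨ, C, fun v => ?_⟩
  rw [← hH'2]
  exact hC v

theorem shP_irr_reg (a : σ → K) {p : MvPolynomial σ K} (hp : Irreducible p)
    {y : RatFunc (Rf σ K)} (h : Reg (Pm a p) y) : Reg (shP a p) y := by
  obtain ⟨U, V, hV, h⟩ := h
  exact ⟨U, V, fun h' => hV ((Pm_dvd_iff a hp.ne_zero V).2 h'), h⟩

/-- if all components vanish then the form vanishes -/
theorem sum_eq_zero_of_comp (𝒬 : Finset (MvPolynomial σ K)) {d : ℕ} (h𝒬 : Irr 𝒬 d) (a : σ → K)
    (hm : ∀ p ∈ 𝒬, Mon p a) {q : ℕ} {ι : Type} [Fintype ι]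
    (H : ι → (Fin (q + 1) → (σ → K)) → Rf σ K) (hH : ∀ s, H s ∈ Lam pD (q + 1))
    (w : Fin q → (σ → K)) (hB : ∀ s, Bdd 𝒬 d (H s (Fin.cons a w)))
    (h0 : ∀ p ∈ 𝒬, ∃ C : ι → (Rf σ K)[X],
      (∀ s, Comp (Pm a p) (shF a (H s (Fin.cons a w))) (C s)) ∧ ∑ s, C s = 0) :
    ∑ s, H s (Fin.cons a w) = 0 := by
  classical
  choose S B hS hcard hBd hh using hB
  have hV : ∀ s, (S s).prod ≠ 0 := by
    intro s
    rw [Ne, Multiset.prod_eq_zero_iff]
    intro h
    exact (h𝒬.1 0 (hS s 0 h)).ne_zero rfl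
  have hinj := IsFractionRing.injective (MvPolynomial σ K) (Rf σ K)
  obtain ⟨U, hU, -⟩ := sum_fraction (fun s => (S s).prod) hV B
    (fun s => H s (Fin.cons a w)) (by
      intro s
      rw [hh s, mul_div_cancel₀]
      intro h
      exact hV s (hinj (h.trans (map_zero _).symm)))
  have hprod : ∏ s, (S s).prod = (∑ s, S s).prod := by
    rw [← Multiset.prod_sum]
  apply (shF a).injective
  rw [map_zero]
  refine eq_zero_of_reg (𝒬.image (shP a)) ?_ ?_ ((∑ s, S s).map (shP a)) ?_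
    ((sh a U).map (algebraMap (MvPolynomial σ K) (Rf σ K))) ?_ ?_
  · intro P hP
    obtain ⟨p, hp, rfl⟩ := Finset.mem_image.1 hP
    exact irreducible_shP a (h𝒬.1 p hp) (hm p hp)
  · obtain ⟨H', hH', hH'2⟩ := pull_sh a (Submodule.sum_mem (Lam (pD (K := K) (σ := σ)) (q + 1))
      (t := Finset.univ) (f := H) fun s _ => hH s)
    have h1 := Lam_proper (pD (K := K) (σ := σ)) hH' (fun k => some (w k))
    rw [hH'2, Finset.sum_apply] at h1
    exact h1
  · intro P hP
    obtain ⟨g, hg, rfl⟩ := Multiset.mem_map.1 hP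
    obtain ⟨s, _, hs⟩ := Multiset.mem_sum.1 hg
    exact Finset.mem_image_of_mem _ (hS s g hs)
  · rw [hU, map_div₀, shF_algebraMap, shF_algebraMap, hprod, shP_prod]
  · intro P hP
    obtain ⟨p, hp, rfl⟩ := Finset.mem_image.1 hP
    apply shP_irr_reg a (h𝒬.1 p hp)
    obtain ⟨C, hC, hC0⟩ := h0 p hp
    have h1 := Comp.sum (Pm_irreducible a (h𝒬.1 p hp) (hm p hp)) Finset.univ (fun s _ => hC s)
    rw [hC0, ← map_sum] at h1
    exact reg_of_comp_zero h1

end Pool.Agent.H531R2.D4
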