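import Pool.Agent.H531R2.D4.MainC

set_option autoImplicit false
set_option linter.unusedSectionVars false

/-!
# The main induction
-/

namespace Pool.Agent.H531R2.D4

open Polynomial

/-- the growth of the degree bound -/
def nb (d : ℕ) : ℕ := 8 * (d + 1) ^ 4

/-- the number of parameter pairs -/
def DD : ℕ → ℕ → ℕ
  | 0, d => d
  | q + 1, d => DD q (nb d)

theorem le_nb (d : ℕ) : d ≤ nb d := by
  have h1 : d + 1 ≤ (d + 1) ^ 4 := Nat.le_self_pow (by norm_num) _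
  unfold nb
  omega

theorem one_le_nb (d : ℕ) : 1 ≤ nb d := by
  have h1 : 1 ≤ (d + 1) ^ 4 := Nat.one_le_pow _ _ (Nat.succ_pos d)
  unfold nb
  omega

theorem two_le_nb (d : ℕ) : 2 * d * d ≤ nb d := by
  have h1 : (d + 1) ^ 2 ≤ (d + 1) ^ 4 := Nat.pow_le_pow_right (Nat.succ_pos d) (by norm_num)
  unfold nb
  nlinarith

theorem nb_mono {d d' : ℕ} (h : d ≤ d') : nb d ≤ nb d' := by
  unfold nb
  exact Nat.mul_le_mul_left _ (Nat.pow_le_pow_left (Nat.succ_le_succ h) 4)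

theorem DD_mono (q : ℕ) : ∀ {d d' : ℕ}, d ≤ d' → DD q d ≤ DD q d' := by
  induction q with
  | zero => exact fun h => h
  | succ q ih => exact fun h => ih (nb_mono h)

theorem le_DD (q : ℕ) : ∀ d : ℕ, d ≤ DD q d := by
  induction q with
  | zero => exact fun d => le_refl d
  | succ q ih => exact fun d => (le_nb d).trans (ih (nb d))

theorem DD_le_succ (q d : ℕ) : DD q d ≤ DD (q + 1) d := DD_mono q (le_nb d)

variable {K : Type} [Field K] [CharZero K] {N : ℕ}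

/-- what is to be shown for a form -/
def Concl (D : ℕ) (𝒢 : Finset (MvPolynomial (Fin N) K)) {q : ℕ}
    (H : (Fin q → (Fin N → K)) → Rf (Fin N) K) : Prop :=
  ∃ (b : Fin N → K) (a : Fin q → (Fin N → K)) (z : Fin q → K), SVD D b ∧
    (∀ j, SVD (D + D) (a j)) ∧ (∀ g ∈ 𝒢, MvPolynomial.eval (b + ∑ j, z j • a j) g ≠ 0) ∧
    NZ (b + ∑ j, z j • a j) (H a)

theorem finite_not_TopNe (g : MvPolynomial (Fin N) K) (a b : Fin N → K) (h : TopNe g a) :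
    {μ : K | ¬ TopNe g (a + μ • b)}.Finite := by
  obtain ⟨E, hE, hE2⟩ := exists_line a b _ h
  refine (Polynomial.finite_setOf_isRoot hE).subset ?_
  intro μ hμ
  rw [Set.mem_setOf_eq, IsRoot.def, hE2, mv_eq]
  exact not_not.1 hμ

theorem extend (𝒬 𝒢 : Finset (MvPolynomial (Fin N) K)) {d : ℕ} (h𝒬 : Irr 𝒬 d)
    (a₁ : Fin N → K) (hm : ∀ p ∈ 𝒬, Mon p a₁) {p : MvPolynomial (Fin N) K} (hp : p ∈ 𝒬)
    {ι : Type} [Fintype ι] (h : ι → Rf (Fin N) K) (hB : ∀ s, Bdd 𝒬 d (h s))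
    (C : ι → (Rf (Fin N) K)[X]) (hC : ∀ s, Comp (Pm a₁ p) (shF a₁ (h s)) (C s))
    (y : Fin N → K) (h1 : ∀ g ∈ 𝒢, MvPolynomial.eval y g ≠ 0)
    (h2 : ∀ g ∈ 𝒬, MvPolynomial.eval y g ≠ 0)
    (h3 : ∀ q ∈ 𝒬, q ≠ p → MvPolynomial.eval y (Nn a₁ p q) ≠ 0) (i : ℕ)
    (hi : NZ y ((∑ s, C s).coeff i)) :
    ∃ z : K, (∀ g ∈ 𝒢, MvPolynomial.eval (y + z • a₁) g ≠ 0) ∧ NZ (y + z • a₁) (∑ s, h s) := by
  classical
  obtain ⟨E, hE, hE2⟩ := spec 𝒬 h𝒬 a₁ hm hp h hB C hC y h2 h3 i hi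
  have h4 : ∀ g ∈ 𝒢, ∃ E : K[X], E ≠ 0 ∧ ∀ z, E.eval z = MvPolynomial.eval (mv y a₁ z) g :=
    fun g hg => exists_line y a₁ g (h1 g hg)
  choose! Eg hEg hEg2 using h4
  obtain ⟨z, hz⟩ := exists_nonroot (K := K) (Finset.insertNone 𝒢)
    (fun o => match o with | none => E | some g => Eg g) (by
      intro o ho
      cases o with
      | none => exact hE
      | some g => exact hEg g (Finset.some_mem_insertNone.1 ho))
  refine ⟨z, ?_, ?_⟩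
  · intro g hg
    have h5 := hz (some g) (Finset.some_mem_insertNone.2 hg)
    have h6 := hEg2 g hg z
    rw [← mv_eq, ← h6]
    exact h5
  · rw [← mv_eq]
    exact hE2 z (hz none Finset.none_mem_insertNone)

theorem main_zero (d : ℕ) (𝒢 : Finset (MvPolynomial (Fin N) K))
    (h𝒢 : ∀ g ∈ 𝒢, g ≠ 0 ∧ g.totalDegree ≤ d) (H : (Fin 0 → (Fin N → K)) → Rf (Fin N) K)
    (hH : H ∈ Lam (pD (K := K) (σ := Fin N)) 0) (hne : H ≠ 0) : Concl d 𝒢 H := by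
  obtain ⟨c, hc⟩ := Lam_zero_const (pD (K := K) (σ := Fin N)) hH
  have hc0 : c ≠ 0 := by
    rintro rfl
    apply hne
    funext w
    rw [hc, map_zero]
    rfl
  obtain ⟨u, w, huw⟩ := exists_sv (K := K) (N := N) (D := d) (L := K) 𝒢 id
    (fun g hg => (h𝒢 g hg).1) (fun g hg => (h𝒢 g hg).2)
  have hx : (sv u w : Fin N → K) + ∑ j : Fin 0, (0 : K) • (0 : Fin N → K) = sv u w := by simp
  refine ⟨sv u w, fun _ => 0, fun _ => 0, ⟨u, w, rfl⟩, fun j => j.elim0, ?_, ?_⟩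
  · intro g hg
    rw [hx]
    exact huw g hg
  · rw [hx, hc]
    refine ⟨MvPolynomial.C c, 1, ?_, ?_, ?_⟩
    · rw [MvPolynomial.eval_C]; exact hc0
    · rw [map_one]; exact one_ne_zero
    · rw [map_one, div_one, IsScalarTower.algebraMap_apply K (MvPolynomial (Fin N) K)]
      rfl

/-- the statement of the main theorem at level `q` -/
def MainAt (K : Type) [Field K] [CharZero K] (N q : ℕ) : Prop :=
  ∀ (d : ℕ) (𝒬 𝒢 : Finset (MvPolynomial (Fin N) K)), Irr 𝒬 d →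
    (∀ g ∈ 𝒢, g ≠ 0 ∧ g.totalDegree ≤ d) → ∀ (ι : Type) [Fintype ι]
    (H : ι → (Fin q → (Fin N → K)) → Rf (Fin N) K),
    (∀ s, H s ∈ Lam (pD (K := K) (σ := Fin N)) q) →
    (∀ s v, Bdd 𝒬 d (H s v)) → ∑ s, H s ≠ 0 → Concl (DD q d) 𝒢 (∑ s, H s)

theorem point_eq {q : ℕ} (b a₁ : Fin N → K) (a : Fin q → (Fin N → K)) (z₀ : K) (z : Fin q → K) :
    b + ∑ j, (Fin.cons z₀ z : Fin (q + 1) → K) j • (Fin.cons a₁ a : Fin (q + 1) → (Fin N → K)) j =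
      (b + ∑ j, z j • a j) + z₀ • a₁ := by
  rw [Fin.sum_univ_succ, Fin.cons_zero, Fin.cons_zero]
  simp only [Fin.cons_succ]
  abel

theorem caseA {q d : ℕ} (ih : MainAt K N q) (𝒬 𝒢 : Finset (MvPolynomial (Fin N) K))
    (h𝒬 : Irr 𝒬 d) (h𝒢 : ∀ g ∈ 𝒢, g ≠ 0 ∧ g.totalDegree ≤ d) {ι : Type} [Fintype ι]
    (H : ι → (Fin (q + 1) → (Fin N → K)) → Rf (Fin N) K)
    (hB : ∀ s v, Bdd 𝒬 d (H s v)) (a₁ : Fin N → K)
    (ha₁ : SVD (DD (q + 1) d + DD (q + 1) d) a₁) (hm : ∀ p ∈ 𝒬, Mon p a₁)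
    {p : MvPolynomial (Fin N) K} (hp : p ∈ 𝒬) (Ψ : ι → (Fin q → (Fin N → K)) → Rf (Fin N) K)
    (hΨ : ∀ s, Ψ s ∈ Lam (pD (K := K) (σ := Fin N)) q)
    (C : ι → (Fin q → (Fin N → K)) → (Rf (Fin N) K)[X])
    (hC : ∀ s v, Comp (Pm a₁ p) (shF a₁ (H s (Fin.cons a₁ v))) (C s v) ∧
      (C s v).coeff ((Pm a₁ p).natDegree - 1) = Ψ s v) (hne : ∑ s, Ψ s ≠ 0) :
    Concl (DD (q + 1) d) 𝒢 (∑ s, H s) := by
  classical
  have hNne : ∀ g ∈ 𝒬, g ≠ p → Nn a₁ p g ≠ 0 := fun g hg hgp =>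
    Nn_ne_zero a₁ (h𝒬.1 p hp) (h𝒬.1 g hg) (hm p hp) (hm g hg)
      (fun h => hgp (h𝒬.2.1 p hp g hg h).symm)
  have hNd : ∀ g ∈ 𝒬, (Nn a₁ p g).totalDegree ≤ 2 * d * d := fun g hg =>
    totalDegree_Nn_le a₁ p g (h𝒬.2.2 p hp) (h𝒬.2.2 g hg)
  let 𝒩 : Finset (MvPolynomial (Fin N) K) := (𝒬.erase p).image (fun g => Nn a₁ p g)
  have h𝒩 : ∀ g ∈ 𝒩, g ≠ 0 ∧ g.totalDegree ≤ 2 * d * d := by
    intro g hg
    obtain ⟨x, hx, rfl⟩ := Finset.mem_image.1 hg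
    exact ⟨hNne x (Finset.mem_of_mem_erase hx) (Finset.ne_of_mem_erase hx),
      hNd x (Finset.mem_of_mem_erase hx)⟩
  obtain ⟨𝒬', hI, hS⟩ := factor_set 𝒩 (fun g hg => (h𝒩 g hg).1) (fun g hg => (h𝒩 g hg).2)
  have hI' : Irr 𝒬' (nb d) := ⟨hI.1, hI.2.1, fun g hg => (hI.2.2 g hg).trans (two_le_nb d)⟩
  have hB' : ∀ s v, Bdd 𝒬' (nb d) (Ψ s v) := by
    intro s v
    rw [← (hC s v).2]
    refine bdd_step 𝒬 h𝒬 a₁ hm hp (hB s _) (hC s v).1 𝒬' hI.1 ?_ _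
    intro S hS'
    refine hS S fun g hg => ?_
    obtain ⟨x, hx, hxp, rfl⟩ := hS' g hg
    exact Finset.mem_image_of_mem (fun g => Nn a₁ p g) (Finset.mem_erase.2 ⟨hxp, hx⟩)
  obtain ⟨b, a, z, hb, ha, hG, hNZ⟩ := ih (nb d) 𝒬' (𝒢 ∪ 𝒬 ∪ 𝒩) hI' (by
    intro g hg
    rcases Finset.mem_union.1 hg with hg | hg
    · rcases Finset.mem_union.1 hg with hg | hg
      · exact ⟨(h𝒢 g hg).1, (h𝒢 g hg).2.trans (le_nb d)⟩
      · exact ⟨(h𝒬.1 g hg).ne_zero, (h𝒬.2.2 g hg).trans (le_nb d)⟩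
    · exact ⟨(h𝒩 g hg).1, (h𝒩 g hg).2.trans (two_le_nb d)⟩) ι Ψ hΨ hB' hne
  obtain ⟨z₀, hz1, hz2⟩ := extend 𝒬 𝒢 h𝒬 a₁ hm hp (fun s => H s (Fin.cons a₁ a))
    (fun s => hB s _) (fun s => C s a) (fun s => (hC s a).1) (b + ∑ j, z j • a j)
    (fun g hg => hG g (Finset.mem_union_left _ (Finset.mem_union_left _ hg)))
    (fun g hg => hG g (Finset.mem_union_left _ (Finset.mem_union_right _ hg)))
    (fun g hg hgp => hG _ (Finset.mem_union_right _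
      (Finset.mem_image_of_mem (fun g => Nn a₁ p g) (Finset.mem_erase.2 ⟨hgp, hg⟩))))
    ((Pm a₁ p).natDegree - 1) (by
      rw [finsetSum_coeff]
      have h1 : ∑ s, (C s a).coeff ((Pm a₁ p).natDegree - 1) = (∑ s, Ψ s) a := by
        rw [Finset.sum_apply]
        exact Finset.sum_congr rfl fun s _ => (hC s a).2
      rw [h1]
      exact hNZ)
  refine ⟨b, Fin.cons a₁ a, Fin.cons z₀ z, hb, ?_, ?_, ?_⟩
  · intro j
    refine Fin.cases ?_ (fun j => ?_) j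
    · exact ha₁
    · rw [Fin.cons_succ]; exact ha j
  · intro g hg
    rw [point_eq]
    exact hz1 g hg
  · rw [point_eq, Finset.sum_apply]
    exact hz2

theorem caseB' {q d D : ℕ} (hdD : nb d ≤ D) (𝒬 𝒢 : Finset (MvPolynomial (Fin N) K))
    (h𝒬 : Irr 𝒬 d) (h𝒢 : ∀ g ∈ 𝒢, g ≠ 0 ∧ g.totalDegree ≤ d) {ι : Type} [Fintype ι]
    (H : ι → (Fin (q + 2) → (Fin N → K)) → Rf (Fin N) K)
    (hH : ∀ s, H s ∈ Lam (pD (K := K) (σ := Fin N)) (q + 2))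
    (hB : ∀ s v, Bdd 𝒬 d (H s v)) (a₁ a₂ : Fin N → K) (hm : ∀ p ∈ 𝒬, Mon p a₁)
    (hone : OneP 𝒬 a₁ a₂)
    (hnc : ∀ p ∈ 𝒬, ∀ q ∈ 𝒬, q ≠ p → ∀ g, Irreducible g → g ∣ Nn a₁ p q →
      (sh a₂ g).natDegree ≠ 0)
    (v : Fin q → (Fin N → K))
    (hsv : ∀ j, SVD (D + D) ((Fin.cons a₁ (Fin.cons a₂ v) : Fin (q + 2) → (Fin N → K)) j))
    {p : MvPolynomial (Fin N) K} (hp : p ∈ 𝒬)
    (C : ι → (Rf (Fin N) K)[X])
    (hC : ∀ s, Comp (Pm a₁ p) (shF a₁ (H s (Fin.cons a₁ (Fin.cons a₂ v)))) (C s))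
    (h0 : (∑ s, C s).coeff ((Pm a₁ p).natDegree - 1) = 0) (hne : ∑ s, C s ≠ 0) :
    Concl D 𝒢 (∑ s, H s) := by
  classical
  have hNne : ∀ g ∈ 𝒬, g ≠ p → Nn a₁ p g ≠ 0 := fun g hg hgp =>
    Nn_ne_zero a₁ (h𝒬.1 p hp) (h𝒬.1 g hg) (hm p hp) (hm g hg)
      (fun h => hgp (h𝒬.2.1 p hp g hg h).symm)
  have hNd : ∀ g ∈ 𝒬, (Nn a₁ p g).totalDegree ≤ 2 * d * d := fun g hg =>
    totalDegree_Nn_le a₁ p g (h𝒬.2.2 p hp) (h𝒬.2.2 g hg)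
  let 𝒩 : Finset (MvPolynomial (Fin N) K) := (𝒬.erase p).image (fun g => Nn a₁ p g)
  have h𝒩 : ∀ g ∈ 𝒩, g ≠ 0 ∧ g.totalDegree ≤ 2 * d * d := by
    intro g hg
    obtain ⟨x, hx, rfl⟩ := Finset.mem_image.1 hg
    exact ⟨hNne x (Finset.mem_of_mem_erase hx) (Finset.ne_of_mem_erase hx),
      hNd x (Finset.mem_of_mem_erase hx)⟩
  obtain ⟨i, hi⟩ : ∃ i, (∑ s, C s).coeff i ≠ 0 := by
    by_contra hcon
    push Not at hcon
    apply hne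
    ext i
    rw [hcon, coeff_zero]
  obtain ⟨c, hcd, hc⟩ := caseB 𝒬 h𝒬 a₁ a₂ hm hone hnc hp H hH v (fun s => hB s _) C hC h0 i
  have hc0 : c ≠ 0 := by
    rintro rfl
    apply hi
    rw [hc, map_zero]
  have hall : ∀ g ∈ 𝒢 ∪ 𝒬 ∪ 𝒩 ∪ {c}, g ≠ 0 ∧ g.totalDegree ≤ D := by
    intro g hg
    rcases Finset.mem_union.1 hg with hg | hg
    · rcases Finset.mem_union.1 hg with hg | hg
      · rcases Finset.mem_union.1 hg with hg | hg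
        · exact ⟨(h𝒢 g hg).1, ((h𝒢 g hg).2.trans (le_nb d)).trans hdD⟩
        · exact ⟨(h𝒬.1 g hg).ne_zero, ((h𝒬.2.2 g hg).trans (le_nb d)).trans hdD⟩
      · exact ⟨(h𝒩 g hg).1, ((h𝒩 g hg).2.trans (two_le_nb d)).trans hdD⟩
    · rw [Finset.mem_singleton.1 hg]
      exact ⟨hc0, hcd.trans hdD⟩
  obtain ⟨u, w, huw⟩ := exists_sv (K := K) (N := N) (D := D) (L := K) (𝒢 ∪ 𝒬 ∪ 𝒩 ∪ {c}) id
    (fun g hg => (hall g hg).1) (fun g hg => (hall g hg).2)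
  have hG : ∀ g ∈ 𝒢 ∪ 𝒬 ∪ 𝒩 ∪ {c}, MvPolynomial.eval (sv u w) g ≠ 0 := fun g hg => huw g hg
  obtain ⟨z₀, hz1, hz2⟩ := extend 𝒬 𝒢 h𝒬 a₁ hm hp (fun s => H s (Fin.cons a₁ (Fin.cons a₂ v)))
    (fun s => hB s _) C hC (sv u w)
    (fun g hg => hG g (Finset.mem_union_left _ (Finset.mem_union_left _
      (Finset.mem_union_left _ hg))))
    (fun g hg => hG g (Finset.mem_union_left _ (Finset.mem_union_left _
      (Finset.mem_union_right _ hg))))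
    (fun g hg hgp => hG _ (Finset.mem_union_left _ (Finset.mem_union_right _
      (Finset.mem_image_of_mem (fun g => Nn a₁ p g) (Finset.mem_erase.2 ⟨hgp, hg⟩)))))
    i (by
      rw [hc]
      refine ⟨c, 1, hG c (Finset.mem_union_right _ (Finset.mem_singleton_self c)), ?_, ?_⟩
      · rw [map_one]; exact one_ne_zero
      · rw [map_one, div_one])
  have hpt : sv u w + ∑ j, (Fin.cons z₀ (fun _ => 0) : Fin (q + 2) → K) j •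
      (Fin.cons a₁ (Fin.cons a₂ v) : Fin (q + 2) → (Fin N → K)) j = sv u w + z₀ • a₁ := by
    rw [point_eq]
    simp
  refine ⟨sv u w, Fin.cons a₁ (Fin.cons a₂ v), Fin.cons z₀ (fun _ => 0), ⟨u, w, rfl⟩, hsv, ?_, ?_⟩
  · intro g hg
    rw [hpt]
    exact hz1 g hg
  · rw [hpt, Finset.sum_apply]
    exact hz2

end Pool.Agent.H531R2.D4
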