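import Pool.Agent.H531R2.D4.MainD

set_option autoImplicit false
set_option linter.unusedSectionVars false

/-!
# The main induction, conclusion
-/

namespace Pool.Agent.H531R2.D4

open Polynomial

variable {K : Type} [Field K] [CharZero K] {N : ℕ}

theorem cons_tail_eq {α : Type} {q : ℕ} (g : Fin (q + 1) → α) :
    g = Fin.cons (g 0) (fun i => g i.succ) := by
  funext i
  refine Fin.cases ?_ (fun i => ?_) i
  · rfl
  · rfl

/-- the data at the direction `a` -/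
theorem exists_data (𝒬 : Finset (MvPolynomial (Fin N) K)) {d : ℕ} (h𝒬 : Irr 𝒬 d)
    (a : Fin N → K) (hm : ∀ p ∈ 𝒬, Mon p a) {q : ℕ} {ι : Type}
    (H : ι → (Fin (q + 1) → (Fin N → K)) → Rf (Fin N) K)
    (hH : ∀ s, H s ∈ Lam (pD (K := K) (σ := Fin N)) (q + 1)) :
    ∀ p ∈ 𝒬, ∃ (Ψ : ι → (Fin q → (Fin N → K)) → Rf (Fin N) K)
      (C : ι → (Fin q → (Fin N → K)) → (Rf (Fin N) K)[X]),
      (∀ s, Ψ s ∈ Lam (pD (K := K) (σ := Fin N)) q) ∧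
      ∀ s v, Comp (Pm a p) (shF a (H s (Fin.cons a v))) (C s v) ∧
      (C s v).coeff ((Pm a p).natDegree - 1) = Ψ s v := by
  intro p hp
  have h1 := fun s => res_sh a (h𝒬.1 p hp) (hm p hp) (hH s)
  choose Ψ hΨ C hC using h1
  exact ⟨Ψ, C, hΨ, hC⟩

theorem main_one (d : ℕ) (𝒬 𝒢 : Finset (MvPolynomial (Fin N) K)) (h𝒬 : Irr 𝒬 d)
    (h𝒢 : ∀ g ∈ 𝒢, g ≠ 0 ∧ g.totalDegree ≤ d) (ih : MainAt K N 0) (ι : Type) [Fintype ι]
    (H : ι → (Fin 1 → (Fin N → K)) → Rf (Fin N) K)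
    (hH : ∀ s, H s ∈ Lam (pD (K := K) (σ := Fin N)) 1)
    (hB : ∀ s v, Bdd 𝒬 d (H s v)) (a : Fin N → K) (ha : SVD (DD 1 d + DD 1 d) a)
    (hm : ∀ p ∈ 𝒬, Mon p a) (w : Fin 0 → (Fin N → K))
    (hne : (∑ s, H s) (Fin.cons a w) ≠ 0) : Concl (DD 1 d) 𝒢 (∑ s, H s) := by
  classical
  have hdata := exists_data 𝒬 h𝒬 a hm H hH
  choose! Ψ C hΨ hC using hdata
  by_cases hex : ∃ p ∈ 𝒬, ∑ s, Ψ p s ≠ 0
  · obtain ⟨p, hp, hp2⟩ := hex
    exact caseA ih 𝒬 𝒢 h𝒬 h𝒢 H hB a ha hm hp (Ψ p) (hΨ p hp) (C p) (hC p hp) hp2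
  · exfalso
    push Not at hex
    apply hne
    rw [Finset.sum_apply]
    refine sum_eq_zero_of_comp 𝒬 h𝒬 a hm H hH w (fun s => hB s _) ?_
    intro p hp
    refine ⟨fun s => C p s w, fun s => (hC p hp s w).1, ?_⟩
    obtain ⟨H', hH', hH'2⟩ := pull_sh a (Submodule.sum_mem (Lam (pD (K := K) (σ := Fin N)) 1)
      (t := Finset.univ) (f := H) fun s _ => hH s)
    have h1 := Comp.sum (Pm_irreducible a (h𝒬.1 p hp) (hm p hp)) Finset.univ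
      (fun s _ => (hC p hp s w).1)
    have h2 : ∑ s, shF a (H s (Fin.cons a w)) = H' (Fin.cons none (fun k => some (w k))) := by
      rw [hH'2, ← map_sum, Finset.sum_apply]
    rw [h2] at h1
    refine comp_one_zero (pD (K := K) (σ := Fin N)) (Pm_irreducible a (h𝒬.1 p hp) (hm p hp))
      (Pm_monic a (h𝒬.1 p hp).ne_zero) hH' _ h1 ?_
    rw [finsetSum_coeff]
    have h3 : ∑ s, (C p s w).coeff ((Pm a p).natDegree - 1) = (∑ s, Ψ p s) w := by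
      rw [Finset.sum_apply]
      exact Finset.sum_congr rfl fun s _ => (hC p hp s w).2
    rw [h3, hex p hp]
    rfl

theorem main_two (q d : ℕ) (𝒬 𝒢 : Finset (MvPolynomial (Fin N) K)) (h𝒬 : Irr 𝒬 d)
    (h𝒢 : ∀ g ∈ 𝒢, g ≠ 0 ∧ g.totalDegree ≤ d) (ih : MainAt K N (q + 1)) (ι : Type) [Fintype ι]
    (H : ι → (Fin (q + 2) → (Fin N → K)) → Rf (Fin N) K)
    (hH : ∀ s, H s ∈ Lam (pD (K := K) (σ := Fin N)) (q + 2))
    (hB : ∀ s v, Bdd 𝒬 d (H s v)) (a₀ b₀ : Fin N → K) (μ : K)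
    (hm₀ : ∀ p ∈ 𝒬, Mon p a₀) (hm : ∀ p ∈ 𝒬, Mon p (a₀ + μ • b₀))
    (hN : ∀ p ∈ 𝒬, ∀ q ∈ 𝒬, q ≠ p → Mon (Nn a₀ p q) b₀)
    (hone : OneP 𝒬 (a₀ + μ • b₀) b₀) (w : Fin q → (Fin N → K))
    (hsv : ∀ j, SVD (DD (q + 2) d + DD (q + 2) d)
      ((Fin.cons (a₀ + μ • b₀) (Fin.cons b₀ w) : Fin (q + 2) → (Fin N → K)) j))
    (hne : (∑ s, H s) (Fin.cons a₀ (Fin.cons b₀ w)) ≠ 0) :
    Concl (DD (q + 2) d) 𝒢 (∑ s, H s) := by
  classical
  have hHs : ∑ s, H s ∈ Lam (pD (K := K) (σ := Fin N)) (q + 2) :=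
    Submodule.sum_mem _ fun s _ => hH s
  have hne' : (∑ s, H s) (Fin.cons (a₀ + μ • b₀) (Fin.cons b₀ w)) ≠ 0 := by
    rw [Lam_shear hHs]
    exact hne
  have hdata := exists_data 𝒬 h𝒬 (a₀ + μ • b₀) hm H hH
  choose! Ψ C hΨ hC using hdata
  by_cases hex : ∃ p ∈ 𝒬, ∑ s, Ψ p s ≠ 0
  · obtain ⟨p, hp, hp2⟩ := hex
    exact caseA ih 𝒬 𝒢 h𝒬 h𝒢 H hB (a₀ + μ • b₀) (hsv 0) hm hp (Ψ p) (hΨ p hp) (C p)
      (hC p hp) hp2
  · push Not at hex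
    by_cases hex2 : ∃ p ∈ 𝒬, ∑ s, C p s (Fin.cons b₀ w) ≠ 0
    · obtain ⟨p, hp, hp2⟩ := hex2
      refine caseB' (D := DD (q + 2) d) ?_ 𝒬 𝒢 h𝒬 h𝒢 H hH hB (a₀ + μ • b₀) b₀ hm hone ?_ w hsv hp
        (fun s => C p s (Fin.cons b₀ w)) (fun s => (hC p hp s _).1) ?_ hp2
      · exact le_DD (q + 1) (nb d)
      · intro p hp g hg hgp x hx hxd
        exact nonconst a₀ b₀ μ (h𝒬.1 p hp) (h𝒬.1 g hg) (hm₀ p hp) (hm₀ g hg) (hm p hp) (hm g hg)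
          (hN p hp g hg hgp) hx hxd
      · rw [finsetSum_coeff]
        have h3 : ∑ s, (C p s (Fin.cons b₀ w)).coeff ((Pm (a₀ + μ • b₀) p).natDegree - 1) =
            (∑ s, Ψ p s) (Fin.cons b₀ w) := by
          rw [Finset.sum_apply]
          exact Finset.sum_congr rfl fun s _ => (hC p hp s _).2
        rw [h3, hex p hp]
        rfl
    · exfalso
      push Not at hex2
      apply hne'
      rw [Finset.sum_apply]
      exact sum_eq_zero_of_comp 𝒬 h𝒬 (a₀ + μ • b₀) hm H hH (Fin.cons b₀ w) (fun s => hB s _)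
        (fun p hp => ⟨fun s => C p s (Fin.cons b₀ w), fun s => (hC p hp s _).1, hex2 p hp⟩)

theorem main_q (q : ℕ) : MainAt K N q := by
  classical
  induction q with
  | zero =>
    intro d 𝒬 𝒢 h𝒬 h𝒢 ι _ H hH hB hne
    exact main_zero d 𝒢 h𝒢 _ (Submodule.sum_mem _ fun s _ => hH s) hne
  | succ q ih =>
    intro d 𝒬 𝒢 h𝒬 h𝒢 ι _ H hH hB hne
    have hHs : ∑ s, H s ∈ Lam (pD (K := K) (σ := Fin N)) (q + 1) :=
      Submodule.sum_mem _ fun s _ => hH s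
    have hD : nb d ≤ DD (q + 1) d := le_DD q (nb d)
    have hD1 : 1 ≤ DD (q + 1) d := (one_le_nb d).trans hD
    obtain ⟨f, hf⟩ := exists_basis_ne hHs hne
    rw [cons_tail_eq (fun i : Fin (q + 1) => (Pi.single (f i) 1 : Fin N → K))] at hf
    obtain ⟨ℓ, hℓ⟩ := Lam_linear hHs (fun i => (Pi.single (f i.succ) 1 : Fin N → K))
    have hℓ0 : ℓ ≠ 0 := by
      rintro rfl
      apply hf
      rw [← hℓ]
      rfl
    obtain ⟨a₀, ha₀, hne₀, htop₀⟩ := exists_dir hD1 𝒬 (fun g hg => ⟨(h𝒬.1 g hg).ne_zero,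
      ((h𝒬.2.2 g hg).trans (le_nb d)).trans hD⟩) ℓ hℓ0
    rw [hℓ] at hne₀
    have hm₀ : ∀ p ∈ 𝒬, Mon p a₀ := fun p hp => mon_of_top a₀ p (htop₀ p hp)
    cases q with
    | zero =>
      exact main_one d 𝒬 𝒢 h𝒬 h𝒢 ih ι H hH hB a₀ (SVD_mono (Nat.le_add_right _ _) ha₀) hm₀ _ hne₀
    | succ q =>
      rw [cons_tail_eq (fun i : Fin (q + 1) => (Pi.single (f i.succ) 1 : Fin N → K))] at hne₀
      obtain ⟨ℓ', hℓ'⟩ := Lam_linear2 hHs a₀ (fun i => (Pi.single (f i.succ.succ) 1 : Fin N → K))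
      have hℓ'0 : ℓ' ≠ 0 := by
        rintro rfl
        apply hne₀
        rw [← hℓ']
        rfl
      let 𝒩 : Finset (MvPolynomial (Fin N) K) :=
        (𝒬 ×ˢ 𝒬).filter (fun x => x.2 ≠ x.1) |>.image (fun x => Nn a₀ x.1 x.2)
      have h𝒩 : ∀ g ∈ 𝒩, g ≠ 0 ∧ g.totalDegree ≤ DD (q + 2) d := by
        intro g hg
        obtain ⟨x, hx, rfl⟩ := Finset.mem_image.1 hg
        obtain ⟨hx1, hx2⟩ := Finset.mem_filter.1 hx
        obtain ⟨hx3, hx4⟩ := Finset.mem_product.1 hx1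
        refine ⟨Nn_ne_zero a₀ (h𝒬.1 _ hx3) (h𝒬.1 _ hx4) (hm₀ _ hx3) (hm₀ _ hx4)
          (fun h => hx2 (h𝒬.2.1 _ hx3 _ hx4 h).symm), ?_⟩
        exact ((totalDegree_Nn_le a₀ _ _ (h𝒬.2.2 _ hx3) (h𝒬.2.2 _ hx4)).trans
          (two_le_nb d)).trans hD
      obtain ⟨b₀, hb₀, hne₁, htop₁⟩ := exists_dir hD1 𝒩 h𝒩 ℓ' hℓ'0
      rw [hℓ'] at hne₁
      have hfin1 := finite_not_OneP 𝒬 h𝒬.1 h𝒬.2.1 a₀ b₀ hm₀
      have hfin2 : (⋃ g ∈ 𝒬, {μ : K | ¬ TopNe g (a₀ + μ • b₀)}).Finite :=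
        Set.Finite.biUnion 𝒬.finite_toSet fun g hg => finite_not_TopNe g a₀ b₀ (htop₀ g hg)
      obtain ⟨μ, hμ⟩ := (hfin1.union hfin2).infinite_compl.nonempty
      rw [Set.mem_compl_iff, Set.mem_union, not_or] at hμ
      have hone : OneP 𝒬 (a₀ + μ • b₀) b₀ := by
        by_contra h
        exact hμ.1 h
      have hm : ∀ p ∈ 𝒬, Mon p (a₀ + μ • b₀) := by
        intro p hp
        apply mon_of_top
        by_contra h
        exact hμ.2 (Set.mem_biUnion hp (by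
          rw [Set.mem_setOf_eq, TopNe]
          exact fun h' => h' h))
      refine main_two q d 𝒬 𝒢 h𝒬 h𝒢 ih ι H hH hB a₀ b₀ μ hm₀ hm ?_ hone
        (fun i => (Pi.single (f i.succ.succ) 1 : Fin N → K)) ?_ hne₁
      · intro p hp g hg hgp
        apply mon_of_top
        apply htop₁
        exact Finset.mem_image.2 ⟨(p, g), Finset.mem_filter.2 ⟨Finset.mem_product.2 ⟨hp, hg⟩, hgp⟩,
          rfl⟩
      · intro j
        refine Fin.cases ?_ (fun j => Fin.cases ?_ (fun j => ?_) j) j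
        · exact SVD_add ha₀ hb₀ μ
        · exact SVD_mono (Nat.le_add_right _ _) hb₀
        · exact SVD_mono (Nat.le_add_right _ _) (SVD_single hD1 _)

end Pool.Agent.H531R2.D4
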