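import Pool.Agent.H531R2.D4.Api

/-!
# Shifts `X ↦ X + t a`: definitions
-/

set_option autoImplicit false

namespace Pool.Agent.H531R2.D4

open Polynomial

variable {K : Type} [Field K] {σ : Type}

/-- rational functions in the variables `σ` -/
abbrev Rf (σ K : Type) [Field K] : Type := FractionRing (MvPolynomial σ K)

/-- `f(X) ↦ f(X + t a)` -/
noncomputable def sh (a : σ → K) : MvPolynomial σ K →ₐ[K] (MvPolynomial σ K)[X] :=
  MvPolynomial.aeval (fun i => C (MvPolynomial.X i) + C (MvPolynomial.C (a i)) * X)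

theorem eval_zero_sh (a : σ → K) (p : MvPolynomial σ K) : (sh a p).eval 0 = p := by
  have h : (evalRingHom (0 : MvPolynomial σ K)).comp (sh a : MvPolynomial σ K →+* _) =
      RingHom.id _ := by
    apply MvPolynomial.ringHom_ext
    · intro r
      simp [sh, MvPolynomial.algebraMap_eq]
    · intro i
      simp [sh]
  exact congrArg (fun g => g p) h

theorem sh_injective (a : σ → K) : Function.Injective (sh a) := by
  intro p q h
  rw [← eval_zero_sh a p, ← eval_zero_sh a q, h]

/-- `f(X) ↦ f(X + t a)` from polynomials to `K(X)(t)` -/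
noncomputable def shR (a : σ → K) : MvPolynomial σ K →+* RatFunc (Rf σ K) :=
  ((algebraMap (Rf σ K)[X] (RatFunc (Rf σ K))).comp
    (mapRingHom (algebraMap (MvPolynomial σ K) (Rf σ K)))).comp (sh a : MvPolynomial σ K →+* _)

theorem shR_injective (a : σ → K) : Function.Injective (shR a) := by
  apply (RatFunc.algebraMap_injective (Rf σ K)).comp
  apply (Polynomial.map_injective _ (IsFractionRing.injective (MvPolynomial σ K) (Rf σ K))).comp
  exact sh_injective a

/-- `f(X) ↦ f(X + t a)` on rational functions -/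
noncomputable def shF (a : σ → K) : Rf σ K →+* RatFunc (Rf σ K) :=
  IsFractionRing.lift (shR_injective a)

theorem shF_algebraMap (a : σ → K) (p : MvPolynomial σ K) :
    shF a (algebraMap _ _ p) = algebraMap (Rf σ K)[X] (RatFunc (Rf σ K))
      ((sh a p).map (algebraMap (MvPolynomial σ K) (Rf σ K))) :=
  IsFractionRing.lift_algebraMap (shR_injective a) p

/-- derivation in direction `v` on polynomials -/
noncomputable def dD (v : σ → K) : Derivation K (MvPolynomial σ K) (MvPolynomial σ K) :=
  MvPolynomial.mkDerivation K (fun i => MvPolynomial.C (v i))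

/-- derivation in direction `v` on rational functions -/
noncomputable def pD (v : σ → K) : Derivation K (Rf σ K) (Rf σ K) :=
  extFrac (Rf σ K) (dD v)

theorem pD_algebraMap (v : σ → K) (p : MvPolynomial σ K) :
    pD v (algebraMap _ _ p) = algebraMap _ (Rf σ K) (dD v p) :=
  extFrac_algebraMap _ _

/-- `p` has a constant leading coefficient in the direction `a` -/
def Mon (p : MvPolynomial σ K) (a : σ → K) : Prop :=
  ∃ c : K, c ≠ 0 ∧ (sh a p).leadingCoeff = MvPolynomial.C c

/-- the shift of `p` over the field of rational functions -/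
noncomputable def shP (a : σ → K) (p : MvPolynomial σ K) : (Rf σ K)[X] :=
  (sh a p).map (algebraMap (MvPolynomial σ K) (Rf σ K))

/-- monic version of the shift of `p` over the field of rational functions -/
noncomputable def Pm (a : σ → K) (p : MvPolynomial σ K) : (Rf σ K)[X] :=
  C (shP a p).leadingCoeff⁻¹ * shP a p

/-- the eliminant of `p` and `q` in the direction `a` -/
noncomputable def Nn (a : σ → K) (p q : MvPolynomial σ K) : MvPolynomial σ K :=
  resultant (sh a p) (sh a q)

/-- the point `x + s a` -/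
def mv {B : Type} [CommRing B] [Algebra K B] (x : σ → B) (a : σ → K) (s : B) : σ → B :=
  fun i => x i + algebraMap K B (a i) * s

/-- the one-point property of the pair of directions `(a₁, a₂)`, for the polynomials in `𝒬`:
two points of the plane `X + ⟨a₁, a₂⟩` with the same second coordinate, both on `p = 0` and each on
some other `q = 0`, are equal -/
def OneP (𝒬 : Finset (MvPolynomial σ K)) (a₁ a₂ : σ → K) : Prop :=
  ∀ (p q q' : MvPolynomial σ K), p ∈ 𝒬 → q ∈ 𝒬 → q' ∈ 𝒬 → q ≠ p → q' ≠ p →
    ∀ α ζ ζ' : AlgebraicClosure (Rf σ K),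
    let x : σ → AlgebraicClosure (Rf σ K) :=
      mv (fun i => algebraMap (MvPolynomial σ K) _ (MvPolynomial.X i)) a₂ α
    MvPolynomial.aeval (mv x a₁ ζ) p = 0 → MvPolynomial.aeval (mv x a₁ ζ) q = 0 →
    MvPolynomial.aeval (mv x a₁ ζ') p = 0 → MvPolynomial.aeval (mv x a₁ ζ') q' = 0 → ζ = ζ'

/-- `h` is a fraction with denominator a product of at most `d` elements of `𝒬` and numerator of
degree at most `d` -/
def Bdd (𝒬 : Finset (MvPolynomial σ K)) (d : ℕ) (h : Rf σ K) : Prop :=
  ∃ (S : Multiset (MvPolynomial σ K)) (B : MvPolynomial σ K), (∀ g ∈ S, g ∈ 𝒬) ∧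
    Multiset.card S ≤ d ∧ B.totalDegree ≤ d ∧
    h = algebraMap _ _ B / algebraMap _ _ S.prod

/-- a finite set of pairwise non-associated irreducible polynomials of degree at most `d` -/
def Irr (𝒬 : Finset (MvPolynomial σ K)) (d : ℕ) : Prop :=
  (∀ p ∈ 𝒬, Irreducible p) ∧ (∀ p ∈ 𝒬, ∀ q ∈ 𝒬, Associated p q → p = q) ∧
    ∀ p ∈ 𝒬, p.totalDegree ≤ d

/-- `h` is defined and nonzero at the point `x` -/
def NZ (x : σ → K) (h : Rf σ K) : Prop :=
  ∃ B Q : MvPolynomial σ K, MvPolynomial.eval x B ≠ 0 ∧ MvPolynomial.eval x Q ≠ 0 ∧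
    h = algebraMap _ _ B / algebraMap _ _ Q

end Pool.Agent.H531R2.D4
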