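import Pool.Agent.H531R2.D4.Api

/-! Formalised by helper287. -/

/-!
# Regular values at a point: API (for the one-point theorem)
-/

set_option autoImplicit false

namespace Pool.Agent.H531R2.D4

open Polynomial

section RegAtApi

variable {G : Type} [Field G] {a : G}


theorem op_ne_of_eval {V : G[X]} (h : V.eval a ≠ 0) : V ≠ 0 := by
  rintro rfl
  exact h (by simp)

theorem op_poly (a : G) (U : G[X]) : RegAt a ((algebraMap G[X] (RatFunc G)) U) (U.eval a) :=
  ⟨U, 1, by simp, by simp, by simp⟩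

theorem op_const (a : G) (c : G) : RegAt a (RatFunc.C c) c := by
  have h := op_poly a (C c)
  rwa [eval_C, RatFunc.algebraMap_C] at h

theorem op_zero (a : G) : RegAt a (0 : RatFunc G) 0 := by
  have h := op_poly a (0 : G[X])
  rwa [eval_zero, map_zero] at h

theorem op_one (a : G) : RegAt a (1 : RatFunc G) 1 := by
  have h := op_poly a (1 : G[X])
  rwa [eval_one, map_one] at h

theorem op_unique {y : RatFunc G} {c d : G} (h : RegAt a y c) (h' : RegAt a y d) : c = d := by
  obtain ⟨U, V, hV, rfl, rfl⟩ := h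
  obtain ⟨U', V', hV', h1, rfl⟩ := h'
  rw [div_eq_div_iff (ι_ne (op_ne_of_eval hV)) (ι_ne (op_ne_of_eval hV')), ← map_mul,
    ← map_mul] at h1
  have h2 := congrArg (eval a) (RatFunc.algebraMap_injective G h1)
  rw [eval_mul, eval_mul] at h2
  rw [div_eq_div_iff hV hV']
  exact h2

theorem op_add {x y : RatFunc G} {c d : G} (h : RegAt a x c) (h' : RegAt a y d) :
    RegAt a (x + y) (c + d) := by
  obtain ⟨U, V, hV, rfl, rfl⟩ := h
  obtain ⟨U', V', hV', rfl, rfl⟩ := h'
  refine ⟨U * V' + U' * V, V * V', by rw [eval_mul]; exact mul_ne_zero hV hV', ?_, ?_⟩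
  · have h1 := ι_ne (op_ne_of_eval hV)
    have h2 := ι_ne (op_ne_of_eval hV')
    rw [map_add, map_mul, map_mul, map_mul]
    field_simp
  · rw [eval_add, eval_mul, eval_mul, eval_mul]
    field_simp

theorem op_mul {x y : RatFunc G} {c d : G} (h : RegAt a x c) (h' : RegAt a y d) :
    RegAt a (x * y) (c * d) := by
  obtain ⟨U, V, hV, rfl, rfl⟩ := h
  obtain ⟨U', V', hV', rfl, rfl⟩ := h'
  refine ⟨U * U', V * V', by rw [eval_mul]; exact mul_ne_zero hV hV', ?_, ?_⟩
  · rw [map_mul, map_mul, div_mul_div_comm]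
  · rw [eval_mul, eval_mul, div_mul_div_comm]

theorem op_neg {x : RatFunc G} {c : G} (h : RegAt a x c) : RegAt a (-x) (-c) := by
  obtain ⟨U, V, hV, rfl, rfl⟩ := h
  exact ⟨-U, V, hV, by rw [map_neg, neg_div], by rw [eval_neg, neg_div]⟩

theorem op_sub {x y : RatFunc G} {c d : G} (h : RegAt a x c) (h' : RegAt a y d) :
    RegAt a (x - y) (c - d) := by
  rw [sub_eq_add_neg, sub_eq_add_neg]
  exact op_add h (op_neg h')

theorem op_div {x y : RatFunc G} {c d : G} (h : RegAt a x c) (h' : RegAt a y d) (hd : d ≠ 0) :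
    RegAt a (x / y) (c / d) := by
  obtain ⟨U, V, hV, rfl, rfl⟩ := h
  obtain ⟨U', V', hV', rfl, rfl⟩ := h'
  have hU' : U'.eval a ≠ 0 := by
    intro h0
    rw [h0, zero_div] at hd
    exact hd rfl
  refine ⟨U * V', V * U', by rw [eval_mul]; exact mul_ne_zero hV hU', ?_, ?_⟩
  · rw [map_mul, map_mul, div_div_div_eq]
  · rw [eval_mul, eval_mul, div_div_div_eq]

theorem op_pow {x : RatFunc G} {c : G} (h : RegAt a x c) (n : ℕ) : RegAt a (x ^ n) (c ^ n) := by
  induction n with
  | zero => rw [pow_zero, pow_zero]; exact op_one a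
  | succ n ih => rw [pow_succ, pow_succ]; exact op_mul ih h

theorem op_sum {β : Type} (s : Finset β) {x : β → RatFunc G} {c : β → G}
    (h : ∀ b ∈ s, RegAt a (x b) (c b)) : RegAt a (∑ b ∈ s, x b) (∑ b ∈ s, c b) := by
  classical
  induction s using Finset.induction_on with
  | empty => rw [Finset.sum_empty, Finset.sum_empty]; exact op_zero a
  | insert b s hb ih =>
    rw [Finset.sum_insert hb, Finset.sum_insert hb]
    exact op_add (h b (Finset.mem_insert_self _ _))
      (ih fun b' hb' => h b' (Finset.mem_insert_of_mem hb'))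

theorem op_reg_iff {y : RatFunc G} : Reg (X - C a) y ↔ ∃ c, RegAt a y c := by
  constructor
  · rintro ⟨U, V, hV, h⟩
    rw [dvd_iff_isRoot] at hV
    exact ⟨_, U, V, hV, h, rfl⟩
  · rintro ⟨c, U, V, hV, h, -⟩
    refine ⟨U, V, ?_, h⟩
    rw [dvd_iff_isRoot]
    exact hV

/-- a function whose product with `X - a` vanishes at `a` is regular at `a` -/
theorem op_cancel {y : RatFunc G} (h : RegAt a ((algebraMap G[X] (RatFunc G)) (X - C a) * y) 0) : ∃ c, RegAt a y c := by
  obtain ⟨U, V, hV, h1, h2⟩ := h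
  have h3 : U.eval a = 0 := by
    have := (div_eq_zero_iff.1 h2.symm)
    exact this.resolve_right hV
  have h4 : (X - C a) ∣ U := by rw [dvd_iff_isRoot]; exact h3
  obtain ⟨U', rfl⟩ := h4
  refine ⟨_, U', V, hV, ?_, rfl⟩
  have h5 : (algebraMap G[X] (RatFunc G)) (X - C a) ≠ 0 := ι_ne (X_sub_C_ne_zero a)
  rw [map_mul, mul_div_assoc] at h1
  exact mul_left_cancel₀ h5 h1

theorem op_pi (a : G) : RegAt a ((algebraMap G[X] (RatFunc G)) (X - C a)) 0 := by
  have h := op_poly a (X - C a)
  rwa [eval_sub, eval_X, eval_C, sub_self] at h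

end RegAtApi

section RegP

variable {G : Type} [Field G] {a : G}


/-- coefficientwise values at `a` -/
def RegP (a : G) (p : (RatFunc G)[X]) (pt : G[X]) : Prop := ∀ i, RegAt a (p.coeff i) (pt.coeff i)

theorem RegP.mul {p r : (RatFunc G)[X]} {pt rt : G[X]} (h : RegP a p pt) (h' : RegP a r rt) :
    RegP a (p * r) (pt * rt) := by
  intro i
  rw [coeff_mul, coeff_mul]
  exact op_sum _ fun b _ => op_mul (h b.1) (h' b.2)

theorem RegP.add {p r : (RatFunc G)[X]} {pt rt : G[X]} (h : RegP a p pt) (h' : RegP a r rt) :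
    RegP a (p + r) (pt + rt) := by
  intro i
  rw [coeff_add, coeff_add]
  exact op_add (h i) (h' i)

theorem RegP.sub {p r : (RatFunc G)[X]} {pt rt : G[X]} (h : RegP a p pt) (h' : RegP a r rt) :
    RegP a (p - r) (pt - rt) := by
  intro i
  rw [coeff_sub, coeff_sub]
  exact op_sub (h i) (h' i)

theorem RegP.sum {β : Type} (s : Finset β) {x : β → (RatFunc G)[X]} {c : β → G[X]}
    (h : ∀ b ∈ s, RegP a (x b) (c b)) : RegP a (∑ b ∈ s, x b) (∑ b ∈ s, c b) := by
  intro i
  rw [finsetSum_coeff, finsetSum_coeff]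
  exact op_sum _ fun b hb => h b hb i

theorem RegP.const {y : RatFunc G} {c : G} (h : RegAt a y c) : RegP a (C y) (C c) := by
  intro i
  rw [coeff_C, coeff_C]
  split_ifs
  · exact h
  · exact op_zero a

theorem RegP.unique {p : (RatFunc G)[X]} {pt rt : G[X]} (h : RegP a p pt) (h' : RegP a p rt) :
    pt = rt := by
  ext i
  exact op_unique (h i) (h' i)

theorem RegP.exists {p : (RatFunc G)[X]} (h : ∀ i, ∃ c, RegAt a (p.coeff i) c) :
    ∃ pt, RegP a p pt := by
  choose c hc using h
  refine ⟨∑ i ∈ Finset.range (p.natDegree + 1), monomial i (c i), fun i => ?_⟩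
  rw [finsetSum_coeff]
  simp only [coeff_monomial]
  rw [Finset.sum_ite_eq']
  split_ifs with hi
  · exact hc i
  · rw [Finset.mem_range, not_lt] at hi
    have : p.coeff i = 0 := coeff_eq_zero_of_natDegree_lt (by omega)
    rw [this]
    exact op_zero a

theorem RegP.coeff_eq_zero {p : (RatFunc G)[X]} {pt : G[X]} (h : RegP a p pt) {i : ℕ}
    (hi : p.coeff i = 0) : pt.coeff i = 0 := by
  have h1 := h i
  rw [hi] at h1
  exact op_unique h1 (op_zero a)

/-- division by a monic polynomial with regular coefficients -/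
theorem RegP.div {p : (RatFunc G)[X]} {pt : G[X]} (hp : p.Monic) (h : RegP a p pt) (k : ℕ) :
    ∀ w : (RatFunc G)[X], (∀ i, ∃ c, RegAt a ((p * w).coeff i) c) → w.degree < k →
      ∀ i, ∃ c, RegAt a (w.coeff i) c := by
  induction k with
  | zero =>
    intro w _ hw i
    have hw0 : w = 0 := by
      rw [Nat.cast_zero] at hw
      exact degree_eq_bot.1 (Nat.WithBot.lt_zero_iff.1 hw)
    rw [hw0, coeff_zero]
    exact ⟨0, op_zero a⟩
  | succ k ih =>
    intro w hreg hw
    have hwk : w.natDegree ≤ k := by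
      have := (degree_lt_iff_coeff_zero w (k + 1)).1 (by exact_mod_cast hw)
      exact natDegree_le_iff_coeff_eq_zero.2 fun N hN => this N (by omega)
    have hlead : (p * w).coeff (p.natDegree + k) = w.coeff k := by
      rw [coeff_mul_add_eq_of_natDegree_le le_rfl hwk, coeff_natDegree, hp.leadingCoeff, one_mul]
    obtain ⟨c, hc⟩ := hreg (p.natDegree + k)
    rw [hlead] at hc
    obtain ⟨A, hA⟩ := RegP.exists hreg
    have hmon : RegP a (monomial k (w.coeff k)) (monomial k c) := by
      intro i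
      rw [coeff_monomial, coeff_monomial]
      split_ifs
      · exact hc
      · exact op_zero a
    have h1 : RegP a (p * (w - monomial k (w.coeff k))) (A - pt * monomial k c) := by
      rw [mul_sub]
      exact hA.sub (h.mul hmon)
    have h2 : (w - monomial k (w.coeff k)).degree < k := by
      rw [degree_lt_iff_coeff_zero]
      intro m hm
      rw [coeff_sub, coeff_monomial]
      split_ifs with hkm
      · rw [hkm, sub_self]
      · rw [sub_zero]
        exact coeff_eq_zero_of_natDegree_lt (by omega)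
    have h3 := ih _ (fun i => ⟨_, h1 i⟩) h2
    intro i
    obtain ⟨d, hd⟩ := h3 i
    refine ⟨d + (monomial k c).coeff i, ?_⟩
    have h4 := op_add hd (hmon i)
    rw [coeff_sub, sub_add_cancel] at h4
    exact h4

end RegP

end Pool.Agent.H531R2.D4
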