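import Pool.Agent.H531R2.D4.TD2

/-! Formalised by helper287. -/

/-!
# The one-point theorem
-/

set_option autoImplicit false

namespace Pool.Agent.H531R2.D4

open Polynomial

section OP

variable {K F : Type} [Field K] [Field F] [Algebra K F] {I : Type} (D : I → Derivation K F F)
variable {E : Type} [Field E] [Algebra K E] (DE : I → Derivation K E E) (ψ : F →+* RatFunc E)

theorem th_K (hψK : ∀ c : K, ψ (algebraMap K F c) = algebraMap K (RatFunc E) c) (c : K) :
    th ψ (algebraMap K (RatFunc F) c) = algebraMap K (RatFunc (RatFunc E)) c := by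
  have h1 : algebraMap K (RatFunc F) c = RatFunc.C (algebraMap K F c) := by
    rw [← RatFunc.algebraMap_C]
    rw [IsScalarTower.algebraMap_apply K F[X] (RatFunc F)]
    rfl
  rw [h1, th_C, hψK, ee_K]

theorem th_none (y : RatFunc F) :
    th ψ (DX D none y) = DX (DX DE) (some none) (th ψ y) := by
  refine der_compat _ _ (th ψ) (fun c => ?_) ?_ y
  · rw [DX_none_C, map_zero, th_C, ee_some_none]
  · rw [DX_none_X, map_one, th_X, tt_some_none]

theorem th_some (hψ : ∀ i f, ψ (D i f) = DX DE (some i) (ψ f)) (i : I) (y : RatFunc F) :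
    th ψ (DX D (some i) y) = DX (DX DE) (some (some i)) (th ψ y) := by
  refine der_compat _ _ (th ψ) (fun c => ?_) ?_ y
  · rw [DX_some_C, th_C, th_C, hψ, ee_some]
  · rw [DX_some_X, map_zero, th_X, tt_some_some]

theorem th_some₀ (i₀ : I) (hψ₀ : ∀ f, ψ (D i₀ f) = DX DE none (ψ f)) (y : RatFunc F) :
    th ψ (DX D (some i₀) y) = DX (DX DE) none (th ψ y) := by
  refine der_compat _ _ (th ψ) (fun c => ?_) ?_ y
  · rw [DX_some_C, th_C, th_C, hψ₀, ee_none]
  · rw [DX_some_X, map_zero, th_X, tt_none]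

/-- the form on `E(t)(τ)` -/
theorem op_form (hψK : ∀ c : K, ψ (algebraMap K F c) = algebraMap K (RatFunc E) c) (i₀ : I)
    (hψ₀ : ∀ f, ψ (D i₀ f) = DX DE none (ψ f)) (hψ : ∀ i f, ψ (D i f) = DX DE (some i) (ψ f))
    {q : ℕ} {Ψ : (Fin (q + 2) → Option I) → RatFunc F} (hΨ : Ψ ∈ Lam (DX D) (q + 2))
    (v : Fin q → I) : ∃ H ∈ Lam (DX (DX DE)) (q + 1 + 1),
      H (Fin.cons none (fun k => some ((Fin.cons none (fun k => some (v k)) :
        Fin (q + 1) → Option I) k))) =
        - th ψ (Ψ (Fin.cons none (Fin.cons (some i₀) (fun k => some (v k))))) := by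
  obtain ⟨H, hH, h⟩ := Lam_pull (DX D) (DX (DX DE)) (th ψ) (th_K ψ hψK) hΨ
  refine ⟨H, hH, ?_⟩
  set w' : Fin (q + 2) → Option (Option I) :=
    Fin.cons (some none) (Fin.cons none (fun k => some (some (v k)))) with hw'
  have h1 := h (Fin.cons none (Fin.cons (some i₀) (fun k => some (v k)))) w' (by
    intro k f
    refine Fin.cases ?_ (fun k => ?_) k
    · rw [hw', Fin.cons_zero, Fin.cons_zero]
      exact th_none D DE ψ f
    · rw [hw', Fin.cons_succ, Fin.cons_succ]
      refine Fin.cases ?_ (fun k => ?_) k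
      · rw [Fin.cons_zero, Fin.cons_zero]
        exact th_some₀ D DE ψ i₀ hψ₀ f
      · rw [Fin.cons_succ, Fin.cons_succ]
        exact th_some D DE ψ hψ (v k) f)
  rw [← h1]
  have h2 := Lam_perm (DX (DX DE)) hH w' (Equiv.swap 0 1)
  have h3 : w' ∘ (Equiv.swap 0 1) = Fin.cons none (fun k => some ((Fin.cons none
      (fun k => some (v k)) : Fin (q + 1) → Option I) k)) := by
    funext k
    rw [Function.comp_apply]
    refine Fin.cases ?_ (fun k => ?_) k
    · rw [Equiv.swap_apply_left, Fin.cons_zero, hw']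
      rfl
    · refine Fin.cases ?_ (fun k => ?_) k
      · have : (Fin.succ 0 : Fin (q + 2)) = 1 := rfl
        rw [this, Equiv.swap_apply_right, hw', Fin.cons_zero]
        rfl
      · rw [Equiv.swap_apply_of_ne_of_ne, hw', Fin.cons_succ, Fin.cons_succ, Fin.cons_succ,
          Fin.cons_succ]
        · exact Fin.succ_ne_zero _
        · intro hcon
          have : (Fin.succ 0 : Fin (q + 2)) = 1 := rfl
          rw [← this] at hcon
          exact Fin.succ_ne_zero _ (Fin.succ_injective _ hcon)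
  rw [h3] at h2
  rw [h2, Equiv.Perm.sign_swap (by simp)]
  simp

end OP

section Alg

variable {E : Type} [Field E] [IsAlgClosed E]

/-- the final polynomial argument -/
theorem op_final (ζ₀ : E) (Pt Ct : E[X]) (hPt : Pt.Monic) (hdeg : Ct.degree < Pt.degree)
    {ι : Type} [Fintype ι] (Cs Qt Wt : ι → E[X]) (hCt : Ct = ∑ s, Cs s)
    (hQ : ∀ s, Cs s * Qt s = Pt * Wt s)
    (hζ : ∀ ζ, ζ ≠ ζ₀ → Pt.eval ζ = 0 → ∀ s, (Qt s).eval ζ ≠ 0)
    (hreg : Reg (X - C ζ₀) (algebraMap E[X] (RatFunc E) (X - C ζ₀) *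
      (algebraMap E[X] (RatFunc E) Ct / algebraMap E[X] (RatFunc E) Pt)))
    (htop : Ct.coeff (Pt.natDegree - 1) = 0) : Ct = 0 := by
  obtain ⟨P1, hP1, hP1'⟩ := exists_eq_pow_rootMultiplicity_mul_and_not_dvd Pt hPt.ne_zero ζ₀
  set m := rootMultiplicity ζ₀ Pt with hm
  rw [dvd_iff_isRoot, IsRoot] at hP1'
  have hP1m : P1.Monic := by
    have h1 : ((X - C ζ₀) ^ m * P1).Monic := by rw [← hP1]; exact hPt
    exact ((monic_X_sub_C ζ₀).pow m).of_mul_monic_left h1
  have hcop : ∀ s, IsCoprime P1 (Qt s) := by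
    intro s
    refine (Polynomial.isCoprime_iff_aeval_ne_zero_of_isAlgClosed E E P1 (Qt s)).2 fun ζ => ?_
    by_cases hz : ζ = ζ₀
    · left
      rw [hz, coe_aeval_eq_eval]
      exact hP1'
    · by_cases hz1 : P1.eval ζ = 0
      · right
        rw [coe_aeval_eq_eval]
        refine hζ ζ hz ?_ s
        rw [hP1, eval_mul, hz1, mul_zero]
      · left
        rw [coe_aeval_eq_eval]
        exact hz1
  have hdvd : ∀ s, P1 ∣ Cs s := by
    intro s
    have h1 : P1 ∣ Cs s * Qt s := by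
      rw [hQ s]
      exact Dvd.dvd.mul_right (by rw [hP1]; exact dvd_mul_left _ _) _
    exact (hcop s).dvd_of_dvd_mul_right h1
  have hdvd2 : P1 ∣ Ct := by
    rw [hCt]
    exact Finset.dvd_sum fun s _ => hdvd s
  obtain ⟨R, hR⟩ := hdvd2
  have hX : (X - C ζ₀ : E[X]) ≠ 0 := X_sub_C_ne_zero ζ₀
  rcases Nat.eq_zero_or_pos m with h0 | h0
  · refine eq_zero_of_dvd_of_degree_lt (p := Pt) ?_ hdeg
    rw [hP1, h0, pow_zero, one_mul, hR]
    exact dvd_mul_right _ _
  · obtain ⟨m', hm'⟩ := Nat.exists_eq_succ_of_ne_zero h0.ne'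
    rw [Nat.succ_eq_add_one] at hm'
    obtain ⟨U, V, hV, hUV⟩ := hreg
    have hV0 := ι_ne (ne_of_not_dvd hV)
    have hPt0 := ι_ne hPt.ne_zero
    have h1 : (X - C ζ₀) * Ct * V = U * Pt := by
      apply RatFunc.algebraMap_injective E
      rw [map_mul, map_mul, map_mul]
      rw [mul_div_assoc', div_eq_div_iff hPt0 hV0] at hUV
      exact hUV
    have h2 : R * V = U * (X - C ζ₀) ^ m' := by
      have h3 : ((X - C ζ₀) * P1) * (R * V) = ((X - C ζ₀) * P1) * (U * (X - C ζ₀) ^ m') := by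
        calc ((X - C ζ₀) * P1) * (R * V) = (X - C ζ₀) * (P1 * R) * V := by ring
          _ = (X - C ζ₀) * Ct * V := by rw [← hR]
          _ = U * Pt := h1
          _ = U * ((X - C ζ₀) ^ (m' + 1) * P1) := by rw [← hm', ← hP1]
          _ = ((X - C ζ₀) * P1) * (U * (X - C ζ₀) ^ m') := by ring
      exact mul_left_cancel₀ (mul_ne_zero hX hP1m.ne_zero) h3
    have h3 : (X - C ζ₀) ^ m' ∣ R := by
      have h4 : IsCoprime ((X - C ζ₀) ^ m') V :=
        (((irreducible_X_sub_C ζ₀).coprime_iff_not_dvd).2 hV).pow_left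
      refine h4.dvd_of_dvd_mul_right ?_
      rw [h2]
      exact dvd_mul_left _ _
    obtain ⟨R', hR'⟩ := h3
    set M : E[X] := P1 * (X - C ζ₀) ^ m' with hM
    have hMm : M.Monic := hP1m.mul ((monic_X_sub_C ζ₀).pow m')
    have hCM : Ct = M * R' := by rw [hR, hR', hM]; ring
    have hPM : Pt = M * (X - C ζ₀) := by
      rw [hP1, hM, hm', pow_succ]; ring
    have hnat : Pt.natDegree = M.natDegree + 1 := by
      rw [hPM, hMm.natDegree_mul (monic_X_sub_C ζ₀), natDegree_X_sub_C]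
    have hR'0 : R'.natDegree = 0 := by
      by_contra hne
      have hRne : R' ≠ 0 := by
        rintro rfl
        exact hne natDegree_zero
      have h5 : Ct.natDegree = M.natDegree + R'.natDegree := by
        rw [hCM, hMm.natDegree_mul' hRne]
      have hCne : Ct ≠ 0 := by rw [hCM]; exact mul_ne_zero hMm.ne_zero hRne
      have h6 : Ct.natDegree < Pt.natDegree := natDegree_lt_natDegree hCne hdeg
      omega
    obtain ⟨r, hr⟩ := natDegree_eq_zero.1 hR'0
    have h7 : Ct.coeff (Pt.natDegree - 1) = r := by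
      rw [hnat, Nat.add_sub_cancel, hCM, ← hr, coeff_mul_C, hMm.coeff_natDegree, one_mul]
    rw [htop] at h7
    rw [hCM, ← hr, ← h7, map_zero, mul_zero]

end Alg

section Main

variable {K F : Type} [Field K] [Field F] [Algebra K F] {I : Type} (D : I → Derivation K F F)

theorem onepoint_of {E : Type} [Field E] [Algebra K E] [IsAlgClosed E]
    (DE : I → Derivation K E E)
    (res : ∀ {P : (RatFunc E)[X]}, Irreducible P → P.Monic → ∀ {q : ℕ}
      {H : (Fin (q + 1) → Option (Option I)) → RatFunc (RatFunc E)},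
      H ∈ Lam (DX (DX DE)) (q + 1) →
      ∃ Ψ ∈ Lam (DX DE) q, ∀ v : Fin q → Option I, ∃ C : (RatFunc E)[X],
        Comp P (H (Fin.cons none (fun k => some (v k)))) C ∧ C.coeff (P.natDegree - 1) = Ψ v)
    (sp : ∀ {P : E[X]}, Irreducible P → ∀ {q : ℕ}
      {H : (Fin (q + 1) → Option I) → RatFunc E}, H ∈ Lam (DX DE) (q + 1) →
      ∀ w : Fin q → Option I, ∃ C : E[X], Comp P (H (Fin.cons none w)) C)
    (ψ : F →+* RatFunc E)
    (hψK : ∀ c : K, ψ (algebraMap K F c) = algebraMap K (RatFunc E) c) (i₀ : I)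
    (hψ₀ : ∀ f, ψ (D i₀ f) = DX DE none (ψ f)) (hψ : ∀ i f, ψ (D i f) = DX DE (some i) (ψ f))
    (α : E) {ι : Type} [Fintype ι] {q : ℕ} (Ψ : ι → (Fin (q + 2) → Option I) → RatFunc F)
    (hΨ : ∀ s, Ψ s ∈ Lam (DX D) (q + 2)) (v : Fin q → I)
    (P : F[X]) (hP : P.Monic) (C : ι → F[X]) (hC : ∀ s, (C s).degree < P.degree)
    (hCΨ : ∀ s, Ψ s (Fin.cons none (Fin.cons (some i₀) (fun k => some (v k)))) =
      algebraMap F[X] (RatFunc F) (C s) / algebraMap F[X] (RatFunc F) P)
    (Q B W : ι → F[X]) (hQ : ∀ s, C s * Q s = B s + P * W s)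
    (Pt : E[X]) (hPt : ∀ i, RegAt α (ψ (P.coeff i)) (Pt.coeff i))
    (Qt : ι → E[X]) (hQt : ∀ s i, RegAt α (ψ ((Q s).coeff i)) ((Qt s).coeff i))
    (Bt : ι → E[X]) (hBt : ∀ s i, RegAt α (ψ ((B s).coeff i)) ((Bt s).coeff i))
    (ζ₀ : E) (hζ : ∀ ζ, ζ ≠ ζ₀ → Pt.eval ζ = 0 → ∀ s, (Qt s).eval ζ ≠ 0)
    (h0 : (∑ s, C s).coeff (P.natDegree - 1) = 0) :
    ∀ i, ∃ c, RegAt α (ψ ((∑ s, C s).coeff i)) c := by
  -- values of the monic polynomial
  have hPreg : RegP α (P.map ψ) Pt := fun i => by rw [coeff_map]; exact hPt i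
  have hPm : (P.map ψ).Monic := hP.map ψ
  have hPdeg : (P.map ψ).natDegree = P.natDegree := hP.natDegree_map ψ
  have hPt1 : Pt.coeff P.natDegree = 1 := by
    have h1 := hPt P.natDegree
    rw [hP.coeff_natDegree, map_one] at h1
    exact op_unique h1 (op_one α)
  have hPtn : Pt.natDegree = P.natDegree := by
    refine le_antisymm ?_ (le_natDegree_of_ne_zero (by rw [hPt1]; exact one_ne_zero))
    rw [natDegree_le_iff_coeff_eq_zero]
    intro N hN
    refine hPreg.coeff_eq_zero ?_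
    rw [coeff_map, coeff_eq_zero_of_natDegree_lt hN, map_zero]
  have hPtm : Pt.Monic := by rw [Monic, leadingCoeff, hPtn, hPt1]
  have hThP : RegAt (RatFunc.C α) (Th E (P.map ψ)) (algebraMap E[X] (RatFunc E) Pt) :=
    Th_regAt hPreg
  have hPt0 : algebraMap E[X] (RatFunc E) Pt ≠ 0 := ι_ne hPtm.ne_zero
  have hThP0 : Th E (P.map ψ) ≠ 0 := by
    rw [Ne, map_eq_zero_iff _ Th_injective]
    exact hPm.ne_zero
  -- the linear polynomial `τ - α`
  set A : (RatFunc E)[X] := X - Polynomial.C (RatFunc.C α) with hA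
  have hAirr : Irreducible A := irreducible_X_sub_C _
  have hAm : A.Monic := monic_X_sub_C _
  set π : RatFunc E := algebraMap E[X] (RatFunc E) (X - Polynomial.C α) with hπ
  have hπA : ee E π = algebraMap (RatFunc E)[X] (RatFunc (RatFunc E)) A := by
    rw [hπ, ee_alg, Polynomial.map_sub, map_X, map_C]
  have hAreg : RegAt (RatFunc.C α) (algebraMap (RatFunc E)[X] (RatFunc (RatFunc E)) A) 0 :=
    op_pi _
  -- the forms
  have hform : ∀ s, ∃ H ∈ Lam (DX (DX DE)) (q + 1 + 1),
      H (Fin.cons none (fun k => some ((Fin.cons none (fun k => some (v k)) :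
        Fin (q + 1) → Option I) k))) = - (Th E ((C s).map ψ) / Th E (P.map ψ)) := by
    intro s
    obtain ⟨H, hH, h1⟩ := op_form D DE ψ hψK i₀ hψ₀ hψ (hΨ s) v
    refine ⟨H, hH, ?_⟩
    rw [h1, hCΨ s, map_div₀, th_alg, th_alg]
  choose H hH hHv using hform
  -- each `(τ - α) C_s` has regular coefficients
  have hCreg : ∀ s, ∃ Cs, RegP α (Polynomial.C π * (C s).map ψ) Cs := by
    intro s
    obtain ⟨Φ, hΦ, h1⟩ := res hAirr hAm (hH s)
    obtain ⟨C', h2, -⟩ := h1 (Fin.cons none (fun k => some (v k)))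
    have h3 := h2.reg_mul hAirr
    rw [hHv s] at h3
    obtain ⟨c, hc⟩ := op_reg_iff.1 h3
    have h4 := op_mul (op_neg hc) hThP
    have h5 : -(algebraMap (RatFunc E)[X] (RatFunc (RatFunc E)) A *
        -(Th E ((C s).map ψ) / Th E (P.map ψ))) * Th E (P.map ψ) =
        Th E (Polynomial.C π * (C s).map ψ) := by
      rw [map_mul, Th_C, hπA]
      field_simp
    rw [h5] at h4
    exact RegP.exists (Th_gauss _ ⟨_, h4⟩)
  choose Cs hCs using hCreg
  -- division
  have hWreg : ∀ s, ∃ Wt, Cs s * Qt s = Pt * Wt := by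
    intro s
    have hQr : RegP α ((Q s).map ψ) (Qt s) := fun i => by rw [coeff_map]; exact hQt s i
    have hBr : RegP α ((B s).map ψ) (Bt s) := fun i => by rw [coeff_map]; exact hBt s i
    have h1 : RegP α (Polynomial.C π * (C s).map ψ * (Q s).map ψ -
        Polynomial.C π * (B s).map ψ) (Cs s * Qt s - Polynomial.C 0 * Bt s) :=
      ((hCs s).mul hQr).sub ((RegP.const (op_pi α)).mul hBr)
    have h2 : Polynomial.C π * (C s).map ψ * (Q s).map ψ - Polynomial.C π * (B s).map ψ =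
        P.map ψ * (Polynomial.C π * (W s).map ψ) := by
      have h3 := congrArg (Polynomial.map ψ) (hQ s)
      rw [Polynomial.map_mul, Polynomial.map_add, Polynomial.map_mul] at h3
      rw [mul_assoc, h3]
      ring
    rw [h2] at h1
    obtain ⟨Wt, hWt⟩ := RegP.exists (RegP.div hPm hPreg
      ((Polynomial.C π * (W s).map ψ).natDegree + 1) _ (fun i => ⟨_, h1 i⟩)
      (by
        refine lt_of_le_of_lt degree_le_natDegree ?_
        exact_mod_cast Nat.lt_succ_self _))
    refine ⟨Wt, ?_⟩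
    have h3 := RegP.unique h1 (hPreg.mul hWt)
    rw [map_zero, zero_mul, sub_zero] at h3
    exact h3
  choose Wt hWt using hWreg
  -- the sum
  set Ct : E[X] := ∑ s, Cs s with hCt
  have hCt' : RegP α (Polynomial.C π * (∑ s, C s).map ψ) Ct := by
    have h1 : Polynomial.C π * (∑ s, C s).map ψ = ∑ s, Polynomial.C π * (C s).map ψ := by
      rw [Polynomial.map_sum, Finset.mul_sum]
    rw [h1]
    exact RegP.sum _ fun s _ => hCs s
  have hCdeg : (∑ s, C s).degree < P.degree := by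
    rw [degree_eq_natDegree hP.ne_zero, ← mem_degreeLT]
    refine Submodule.sum_mem _ fun s _ => ?_
    rw [mem_degreeLT, ← degree_eq_natDegree hP.ne_zero]
    exact hC s
  have hdeg : Ct.degree < Pt.degree := by
    rw [degree_eq_natDegree hPtm.ne_zero, hPtn, degree_lt_iff_coeff_zero]
    intro m hm
    refine hCt'.coeff_eq_zero ?_
    have h1 : (∑ s, C s).coeff m = 0 := by
      refine coeff_eq_zero_of_degree_lt (lt_of_lt_of_le hCdeg ?_)
      rw [degree_eq_natDegree hP.ne_zero]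
      exact_mod_cast hm
    rw [coeff_C_mul, coeff_map, h1, map_zero, mul_zero]
  have htop : Ct.coeff (Pt.natDegree - 1) = 0 := by
    rw [hPtn]
    refine hCt'.coeff_eq_zero ?_
    rw [coeff_C_mul, coeff_map, h0, map_zero, mul_zero]
  have hreg : Reg (X - Polynomial.C ζ₀) (algebraMap E[X] (RatFunc E) (X - Polynomial.C ζ₀) *
      (algebraMap E[X] (RatFunc E) Ct / algebraMap E[X] (RatFunc E) Pt)) := by
    obtain ⟨Φ, hΦ, h1⟩ := res hAirr hAm (Submodule.sum_mem _ fun s (_ : s ∈ Finset.univ) => hH s)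
    obtain ⟨C', h2, h3⟩ := h1 (Fin.cons none (fun k => some (v k)))
    have hsum : (∑ s, H s) (Fin.cons none (fun k => some ((Fin.cons none (fun k => some (v k)) :
        Fin (q + 1) → Option I) k))) =
        -(Th E ((∑ s, C s).map ψ) / Th E (P.map ψ)) := by
      rw [Finset.sum_apply]
      simp_rw [hHv]
      rw [Finset.sum_neg_distrib, ← Finset.sum_div, Polynomial.map_sum, map_sum]
    rw [hsum] at h2
    have hdC : C' = Polynomial.C (C'.coeff 0) := by
      refine eq_C_of_degree_le_zero ?_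
      have h4 := h2.1
      rw [hA, degree_X_sub_C] at h4
      exact Nat.WithBot.lt_one_iff_le_zero.1 h4
    have hAn : A.natDegree - 1 = 0 := by rw [hA, natDegree_X_sub_C]
    rw [hAn] at h3
    obtain ⟨d, hd⟩ := op_reg_iff.1 h2.2
    have h4 := op_mul hAreg hd
    have hA0 : algebraMap (RatFunc E)[X] (RatFunc (RatFunc E)) A ≠ 0 := ι_ne hAm.ne_zero
    have h5 : RegAt (RatFunc.C α) (-(Th E (Polynomial.C π * (∑ s, C s).map ψ) /
        Th E (P.map ψ)) - RatFunc.C (C'.coeff 0))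
        (-(algebraMap E[X] (RatFunc E) Ct / algebraMap E[X] (RatFunc E) Pt) - C'.coeff 0) :=
      op_sub (op_neg (op_div (Th_regAt hCt') hThP hPt0)) (op_const _ _)
    have h6 : algebraMap (RatFunc E)[X] (RatFunc (RatFunc E)) A *
        (-(Th E ((∑ s, C s).map ψ) / Th E (P.map ψ)) -
          algebraMap (RatFunc E)[X] (RatFunc (RatFunc E)) C' /
          algebraMap (RatFunc E)[X] (RatFunc (RatFunc E)) A) =
        -(Th E (Polynomial.C π * (∑ s, C s).map ψ) / Th E (P.map ψ)) -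
          RatFunc.C (C'.coeff 0) := by
      rw [← RatFunc.algebraMap_C, ← hdC, map_mul, Th_C, hπA]
      field_simp
    rw [h6] at h4
    have h7 := op_unique h4 h5
    rw [zero_mul] at h7
    have h8 : Φ (Fin.cons none (fun k => some (v k))) =
        -(algebraMap E[X] (RatFunc E) Ct / algebraMap E[X] (RatFunc E) Pt) := by
      rw [← h3]
      exact (sub_eq_zero.1 h7.symm).symm
    obtain ⟨C'', h9⟩ := sp (irreducible_X_sub_C ζ₀) hΦ (fun k => some (v k))
    rw [h8] at h9
    have h10 := (h9.reg_mul (irreducible_X_sub_C ζ₀)).neg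
    have h11 : -(algebraMap E[X] (RatFunc E) (X - Polynomial.C ζ₀) *
        -(algebraMap E[X] (RatFunc E) Ct / algebraMap E[X] (RatFunc E) Pt)) =
        algebraMap E[X] (RatFunc E) (X - Polynomial.C ζ₀) *
        (algebraMap E[X] (RatFunc E) Ct / algebraMap E[X] (RatFunc E) Pt) := by ring
    rwa [h11] at h10
  have hfin : Ct = 0 := op_final ζ₀ Pt Ct hPtm hdeg Cs Qt Wt hCt hWt hζ hreg htop
  intro i
  have h1 := hCt' i
  rw [hfin, coeff_zero, coeff_C_mul, coeff_map] at h1
  exact op_cancel h1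

end Main

end Pool.Agent.H531R2.D4
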